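import Pool.Agent.Work.MP_c71557_gt.D.PushSt

set_option autoImplicit false
set_option linter.unusedVariables false

/-!
# MP_c71557_gt, block D: the line group of the strip
-/

namespace C715

open CategoryTheory ActCat

/-- `GU St` as a line group -/
noncomputable def GS : LineGrp P2 where
  Γ := GU St
  X := St
  pos := ps
  off g hg x hx := GU_off hg hx
  bdd g hg := bdd_St g hg
  pushR r r' r1 h h' F hF hf := pushR_St r r' r1 h h' F hF hf
  pushL l l' l1 h h' F hF hf := pushL_St l l' l1 h h' F hF hf

end C715
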