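import Pool.Agent.Work.MP_c71557_gt.D.Tsh
import Pool.Agent.Work.MP_c71557_gt.P.Frg

set_option autoImplicit false
set_option linter.unusedVariables false

/-!
# MP_c71557_gt, module D/Mt: the rotation `mt` is the lift of an element of `E Q0` (M-L)

`psi y = max 0 (min (4 y) (min (32 (y-2)) (32 (3-y))))`, `mt (x, y) = (x + psi y, y)`.

PROOF.  `bm n z = max 0 (min (z.2 / 16) ((5/8 z.2 - |z.1 - (n + 1/2) z.2|) / 2))`, a tent around
`ps = n + 1/2`.  `ph j z = min (psi z.2 / 64) (sup over n with n % 4 < j of bm n z)`.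
`tsh` applies to every `ph j`; `ph 0 = 0`, `ph 4 z = psi z.2 / 64`.  Let `(e j, G j) ∈ Lft` with
`G j z = (z.1 + ph j z, z.2)`.  `(G j)⁻¹ G (j+1)` is the identity at `z` unless `ph j z ≠ ph (j+1) z`,
so `|ps z - (n + 1/2)| < 5/8`, `2 < z.2 < 3` for some `n % 4 = j`.  Hence `(e j)⁻¹ e (j+1)` is supported in the
compact set `KK j = dev '' {|ps z - (j + 1/2)| ≤ 5/8, 2 ≤ z.2 ≤ 3}`, contained in an open half plane
disjoint from `Q0.set`.  So `e 4 ∈ E Q0.set` and `(e 4, G 4) ^ 64` is the answer.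
-/

namespace C715

private noncomputable def bm (n : ℤ) (z : P2) : ℝ :=
  max 0 (min (1 / 16 * z.2) (1 / 2 * (5 / 8 * z.2 - |z.1 - ((n : ℝ) + 1 / 2) * z.2|)))

private noncomputable def bj (j : ℕ) (n : ℤ) (z : P2) : ℝ :=
  if n % 4 < (j : ℤ) then bm n z else 0

private noncomputable def ph (j : ℕ) (z : P2) : ℝ :=
  min (1 / 64 * psi z.2) (⨆ n : ℤ, bj j n z)

private theorem bm_nonneg (n : ℤ) (z : P2) : 0 ≤ bm n z := le_max_left _ _

private theorem bj_nonneg (j : ℕ) (n : ℤ) (z : P2) : 0 ≤ bj j n z := by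
  unfold bj
  split_ifs
  · exact bm_nonneg n z
  · exact le_rfl

private theorem bj_le (j : ℕ) (n : ℤ) (z : P2) : bj j n z ≤ max 0 (1 / 16 * z.2) := by
  unfold bj bm
  split_ifs
  · exact max_le_max le_rfl (min_le_left _ _)
  · exact le_max_left _ _

private theorem bj_bdd (j : ℕ) (z : P2) : BddAbove (Set.range fun n : ℤ => bj j n z) :=
  ⟨_, by rintro _ ⟨n, rfl⟩; exact bj_le j n z⟩

private theorem sup_nonneg (j : ℕ) (z : P2) : 0 ≤ ⨆ n : ℤ, bj j n z :=
  (bj_nonneg j 0 z).trans (le_ciSup (bj_bdd j z) 0)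

private theorem psi_nonneg (y : ℝ) : 0 ≤ psi y := le_max_left _ _

private theorem psi_zero (y : ℝ) (h : y ≤ 2 ∨ 3 ≤ y) : psi y = 0 := by
  unfold psi
  refine max_eq_left ?_
  rcases h with h | h
  · exact (min_le_right _ _).trans ((min_le_left _ _).trans (by linarith))
  · exact (min_le_right _ _).trans ((min_le_right _ _).trans (by linarith))

private theorem psi_le (y : ℝ) (h : 0 < y) : psi y ≤ 4 * y := by
  unfold psi
  exact max_le (by linarith) (min_le_left _ _)

private theorem ph_nonneg (j : ℕ) (z : P2) : 0 ≤ ph j z := by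
  have h1 := psi_nonneg z.2
  exact le_min (by positivity) (sup_nonneg j z)

private theorem ph_zero (j : ℕ) (z : P2) (h : z.2 ≤ 2 ∨ 3 ≤ z.2) : ph j z = 0 := by
  unfold ph
  rw [psi_zero _ h, mul_zero, min_eq_left (sup_nonneg j z)]

private theorem ph_le (j : ℕ) (z : P2) (h : 0 < z.2) : ph j z ≤ 4 * z.2 := by
  have h1 := psi_le z.2 h
  have h2 := psi_nonneg z.2
  exact (min_le_left _ _).trans (by linarith)

private theorem bm_TT (n : ℤ) (z : P2) : bm n (TT z) = bm (n - 4) z := by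
  have h1 : TT z = (z.1 + 4 * z.2, z.2) := rfl
  unfold bm
  rw [h1]
  simp only
  have h2 : z.1 + 4 * z.2 - ((n : ℝ) + 1 / 2) * z.2 = z.1 - (((n - 4 : ℤ) : ℝ) + 1 / 2) * z.2 := by
    push_cast
    ring
  rw [h2]

private theorem bj_TT (j : ℕ) (n : ℤ) (z : P2) : bj j n (TT z) = bj j (n - 4) z := by
  unfold bj
  rw [bm_TT]
  have h : (n - 4) % 4 = n % 4 := by omega
  rw [h]

private theorem ph_TT (j : ℕ) (z : P2) : ph j (TT z) = ph j z := by
  have h1 : (TT z).2 = z.2 := rfl
  unfold ph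
  rw [h1]
  have h2 : (⨆ n : ℤ, bj j n (TT z)) = ⨆ n : ℤ, bj j n z := by
    have h3 : (fun n : ℤ => bj j n (TT z)) = fun n : ℤ => bj j ((Equiv.subRight (4 : ℤ)) n) z := by
      funext n
      exact bj_TT j n z
    rw [h3]
    exact Equiv.iSup_comp (g := fun n : ℤ => bj j n z) (Equiv.subRight (4 : ℤ))
  rw [h2]

private theorem bm_lip (n : ℤ) (s t y : ℝ) (h : s < t) : bm n (s, y) ≤ bm n (t, y) + (t - s) / 2 := by
  unfold bm
  simp only
  have h1 : |t - ((n : ℝ) + 1 / 2) * y| ≤ |s - ((n : ℝ) + 1 / 2) * y| + (t - s) := by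
    have h2 := abs_add_le (s - ((n : ℝ) + 1 / 2) * y) (t - s)
    rw [abs_of_pos (by linarith : 0 < t - s)] at h2
    have h3 : s - ((n : ℝ) + 1 / 2) * y + (t - s) = t - ((n : ℝ) + 1 / 2) * y := by ring
    rw [h3] at h2
    exact h2
  refine max_le ?_ ?_
  · have := le_max_left (0 : ℝ) (min (1 / 16 * y) (1 / 2 * (5 / 8 * y - |t - ((n : ℝ) + 1 / 2) * y|)))
    linarith
  · have h4 := le_max_right (0 : ℝ)
      (min (1 / 16 * y) (1 / 2 * (5 / 8 * y - |t - ((n : ℝ) + 1 / 2) * y|)))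
    have h5 : min (1 / 16 * y) (1 / 2 * (5 / 8 * y - |s - ((n : ℝ) + 1 / 2) * y|)) - (t - s) / 2 ≤
        min (1 / 16 * y) (1 / 2 * (5 / 8 * y - |t - ((n : ℝ) + 1 / 2) * y|)) := by
      refine le_min ?_ ?_
      · have := min_le_left (1 / 16 * y) (1 / 2 * (5 / 8 * y - |s - ((n : ℝ) + 1 / 2) * y|))
        linarith
      · have := min_le_right (1 / 16 * y) (1 / 2 * (5 / 8 * y - |s - ((n : ℝ) + 1 / 2) * y|))
        linarith
    linarith

private theorem bj_lip (j : ℕ) (n : ℤ) (s t y : ℝ) (h : s < t) :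
    bj j n (s, y) ≤ bj j n (t, y) + (t - s) / 2 := by
  unfold bj
  split_ifs
  · exact bm_lip n s t y h
  · linarith

private theorem ph_mono (j : ℕ) (y : ℝ) : StrictMono (fun t : ℝ => t + ph j (t, y)) := by
  refine strictMono_of_slope (fun t => ph j (t, y)) (1 / 2) (by norm_num) fun s t hst => ?_
  have h1 : (⨆ n : ℤ, bj j n (s, y)) ≤ (⨆ n : ℤ, bj j n (t, y)) + (t - s) / 2 := by
    refine ciSup_le fun n => ?_
    have := bj_lip j n s t y hst
    have h2 := le_ciSup (bj_bdd j (t, y)) n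
    linarith
  have h3 : ph j (s, y) - (t - s) / 2 ≤ ph j (t, y) := by
    unfold ph
    refine le_min ?_ ?_
    · have := min_le_left (1 / 64 * psi ((s, y) : P2).2) (⨆ n : ℤ, bj j n (s, y))
      simp only at this ⊢
      linarith
    · have := min_le_right (1 / 64 * psi ((s, y) : P2).2) (⨆ n : ℤ, bj j n (s, y))
      linarith
  linarith

private theorem bm_PL (n : ℤ) : IsPLf (bm n) := by
  unfold bm
  exact (IsPLf.const 0).max ((IsPLf.snd.smul _).min
    (((IsPLf.snd.smul _).sub (IsPLf.fst.sub (IsPLf.snd.smul _)).abs).smul _))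

private theorem bj_PL (j : ℕ) (n : ℤ) : IsPLf (bj j n) := by
  by_cases h : n % 4 < (j : ℤ)
  · have : bj j n = bm n := by
      funext z
      unfold bj
      rw [if_pos h]
    rw [this]
    exact bm_PL n
  · have : bj j n = fun _ => 0 := by
      funext z
      unfold bj
      rw [if_neg h]
    rw [this]
    exact IsPLf.const 0

private theorem psi_PL : IsPLf (fun z : P2 => psi z.2) := by
  unfold psi
  exact (IsPLf.const 0).max ((IsPLf.snd.smul _).min
    (((IsPLf.snd.sub (IsPLf.const _)).smul _).min (((IsPLf.const _).sub IsPLf.snd).smul _)))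

private theorem bm_far (n : ℤ) (z : P2) (h : 5 / 8 * z.2 ≤ |z.1 - ((n : ℝ) + 1 / 2) * z.2|) :
    bm n z = 0 := by
  unfold bm
  refine max_eq_left ((min_le_right _ _).trans ?_)
  linarith

private theorem ph_loc (j : ℕ) (M : ℝ) :
    ∃ ψ : P2 → ℝ, IsPLf ψ ∧ ∀ z : P2, |z.1| ≤ M → ph j z = ψ z := by
  obtain ⟨B, hB⟩ : ∃ B : ℕ, |M| + 2 ≤ B := exists_nat_ge _
  refine ⟨fun z => min (1 / 64 * psi z.2)
    ((Finset.Icc (-(B : ℤ)) B).fold Max.max 0 (fun n => bj j n z)),
    (psi_PL.smul _).min (IsPLf.sup _ _ fun n _ => bj_PL j n), fun z hz => ?_⟩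
  by_cases h : z.2 ≤ 2 ∨ 3 ≤ z.2
  · rw [ph_zero j z h]
    simp only
    rw [psi_zero _ h, mul_zero, min_eq_left]
    exact Finset.le_fold_max _ |>.2 (Or.inl le_rfl)
  · push Not at h
    have h1 : (⨆ n : ℤ, bj j n z) = (Finset.Icc (-(B : ℤ)) B).fold Max.max 0 (fun n => bj j n z) := by
      refine le_antisymm ?_ ?_
      · refine ciSup_le fun n => ?_
        by_cases hn : n ∈ Finset.Icc (-(B : ℤ)) B
        · exact Finset.le_fold_max _ |>.2 (Or.inr ⟨n, hn, le_rfl⟩)
        · have h2 : bj j n z = 0 := by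
            unfold bj
            split_ifs
            · refine bm_far n z ?_
              have hM : |z.1| ≤ |M| := hz.trans (le_abs_self M)
              have h3 : (B : ℝ) ≤ |(n : ℝ) + 1 / 2| + 1 / 2 := by
                rw [Finset.mem_Icc, not_and_or, not_le, not_le] at hn
                rcases hn with hn | hn
                · have h4 : (n : ℝ) + 1 ≤ -(B : ℝ) := by exact_mod_cast (by omega : n + 1 ≤ -(B : ℤ))
                  have h5 := neg_abs_le ((n : ℝ) + 1 / 2)
                  linarith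
                · have h4 : (B : ℝ) + 1 ≤ (n : ℝ) := by exact_mod_cast (by omega : (B : ℤ) + 1 ≤ n)
                  have h5 := le_abs_self ((n : ℝ) + 1 / 2)
                  linarith
              have h6 : |((n : ℝ) + 1 / 2) * z.2| ≤ |z.1 - ((n : ℝ) + 1 / 2) * z.2| + |z.1| := by
                have := abs_sub_abs_le_abs_sub (((n : ℝ) + 1 / 2) * z.2) z.1
                rw [abs_sub_comm] at this
                linarith
              rw [abs_mul, abs_of_pos (by linarith : 0 < z.2)] at h6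
              have h7 : (|M| + 3 / 2) * z.2 ≤ |(n : ℝ) + 1 / 2| * z.2 :=
                mul_le_mul_of_nonneg_right (by linarith) (by linarith)
              have h8 : |M| * 1 ≤ |M| * z.2 := mul_le_mul_of_nonneg_left (by linarith) (abs_nonneg M)
              linarith
            · rfl
          rw [h2]
          exact Finset.le_fold_max _ |>.2 (Or.inl le_rfl)
      · exact Finset.fold_max_le _ |>.2 ⟨sup_nonneg j z, fun n _ => le_ciSup (bj_bdd j z) n⟩
    unfold ph
    rw [h1]

private theorem ph_zero' (z : P2) : ph 0 z = 0 := by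
  have h1 : (⨆ n : ℤ, bj 0 n z) = 0 := by
    have h2 : (fun n : ℤ => bj 0 n z) = fun _ => (0 : ℝ) := by
      funext n
      unfold bj
      rw [if_neg]
      push_cast
      omega
    rw [h2]
    exact ciSup_const
  unfold ph
  rw [h1]
  have h2 := psi_nonneg z.2
  exact min_eq_right (by positivity)

private theorem ph_four (z : P2) : ph 4 z = 1 / 64 * psi z.2 := by
  by_cases h : z.2 ≤ 2 ∨ 3 ≤ z.2
  · rw [ph_zero 4 z h, psi_zero _ h, mul_zero]
  · push Not at h
    have hy : 0 < z.2 := by linarith [h.1]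
    unfold ph
    refine min_eq_left ?_
    have h1 := psi_le z.2 hy
    have h2 : 1 / 16 * z.2 ≤ bj 4 ⌊ps z⌋ z := by
      unfold bj
      rw [if_pos (by push_cast; omega)]
      unfold bm
      refine le_max_of_le_right (le_min le_rfl ?_)
      have h3 := Int.floor_le (ps z)
      have h4 := Int.lt_floor_add_one (ps z)
      have h5 : z.1 = ps z * z.2 := by
        unfold ps
        rw [div_mul_cancel₀ _ hy.ne']
      have h6 : |z.1 - ((⌊ps z⌋ : ℝ) + 1 / 2) * z.2| ≤ 1 / 2 * z.2 := by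
        have h7 : z.1 - ((⌊ps z⌋ : ℝ) + 1 / 2) * z.2 = (ps z - ⌊ps z⌋ - 1 / 2) * z.2 := by
          rw [h5]
          have : ps z = ps z := rfl
          have h8 : ps (ps z * z.2, z.2) = ps z := by
            unfold ps
            simp only
            rw [div_mul_cancel₀ _ hy.ne']
          rw [← h5]
          conv_lhs => rw [h5]
          ring
        rw [h7, abs_mul, abs_of_pos hy]
        refine mul_le_mul_of_nonneg_right ?_ hy.le
        rw [abs_le]
        constructor <;> linarith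
      linarith
    have h3 := le_ciSup (bj_bdd 4 z) ⌊ps z⌋
    linarith

private theorem ph_ne (j : ℕ) (z : P2) (h : ph j z ≠ ph (j + 1) z) :
    2 < z.2 ∧ z.2 < 3 ∧ ∃ n : ℤ, n % 4 = j ∧ |z.1 - ((n : ℝ) + 1 / 2) * z.2| < 5 / 8 * z.2 := by
  have h1 : ¬ (z.2 ≤ 2 ∨ 3 ≤ z.2) := by
    intro h1
    exact h (by rw [ph_zero j z h1, ph_zero (j + 1) z h1])
  push Not at h1
  refine ⟨h1.1, h1.2, ?_⟩
  by_contra hc
  push Not at hc
  refine h ?_
  unfold ph
  have h2 : (fun n : ℤ => bj j n z) = fun n : ℤ => bj (j + 1) n z := by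
    funext n
    unfold bj
    by_cases hn : n % 4 = j
    · rw [if_neg (by omega), if_pos (by push_cast; omega), bm_far n z (hc n hn)]
    · by_cases hn' : n % 4 < (j : ℤ)
      · rw [if_pos hn', if_pos (by push_cast; omega)]
      · rw [if_neg hn', if_neg (by push_cast; omega)]
  rw [h2]

private theorem ph_ex (j : ℕ) : ∃ p ∈ Lft, ∀ z : P2, p.2 z = (z.1 + ph j z, z.2) :=
  tsh (ph j) (ph_nonneg j) (fun z hz => ph_le j z hz) (ph_zero j) (ph_TT j) (ph_mono j) (ph_loc j)

/-- the set upstairs -/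
private def SS (j : ℕ) : Set P2 :=
  {z | (2 ≤ z.2 ∧ z.2 ≤ 3) ∧ |z.1 - ((j : ℝ) + 1 / 2) * z.2| ≤ 5 / 8 * z.2}

private theorem SS_compact (j : ℕ) : IsCompact (SS j) := by
  refine Metric.isCompact_of_isClosed_isBounded ?_ ?_
  · refine IsClosed.inter (IsClosed.inter ?_ ?_) ?_
    · exact isClosed_le continuous_const continuous_snd
    · exact isClosed_le continuous_snd continuous_const
    · exact isClosed_le (continuous_fst.sub (continuous_const.mul continuous_snd)).abs
        (continuous_const.mul continuous_snd)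
  · refine (Metric.isBounded_closedBall (x := (0 : P2)) (r := 3 * (j + 2))).subset fun z hz => ?_
    obtain ⟨⟨h1, h2⟩, h3⟩ := hz
    rw [mem_closedBall_zero_iff, Prod.norm_def, Real.norm_eq_abs, Real.norm_eq_abs]
    have hj : (0 : ℝ) ≤ j := Nat.cast_nonneg j
    have h4 := abs_le.1 h3
    refine max_le (abs_le.2 ⟨?_, ?_⟩) (abs_le.2 ⟨by linarith, by linarith⟩)
    · have h5 : 0 ≤ (j : ℝ) * z.2 := by positivity
      linarith [h4.1]
    · have h5 : (j : ℝ) * z.2 ≤ j * 3 := mul_le_mul_of_nonneg_left h2 hj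
      linarith [h4.2]

/-- the linear form -/
private def LL (j : ℕ) (p : P2) : ℝ :=
  if j = 0 then p.1 else if j = 1 then p.2 else if j = 2 then -p.1 else -p.2

private theorem LL_cont (j : ℕ) : Continuous (LL j) := by
  unfold LL
  split_ifs <;> fun_prop

private theorem LL_le (j : ℕ) (p : P2) : LL j p ≤ ‖p‖ := by
  have h1 : |p.1| ≤ ‖p‖ := norm_fst_le p
  have h2 : |p.2| ≤ ‖p‖ := norm_snd_le p
  rw [abs_le] at h1 h2
  unfold LL
  split_ifs <;> linarith [h1.1, h1.2, h2.1, h2.2]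

private theorem LL_convex (j : ℕ) : Convex ℝ {p : P2 | 1 < LL j p} := by
  have h : IsLinearMap ℝ (LL j) := by
    constructor
    · intro x y
      unfold LL
      split_ifs <;> simp only [Prod.fst_add, Prod.snd_add] <;> ring
    · intro c x
      unfold LL
      split_ifs <;> simp only [Prod.smul_fst, Prod.smul_snd, smul_eq_mul] <;> ring
  exact convex_halfSpace_gt h 1

private theorem LL_SS (j : ℕ) (hj : j < 4) (z : P2) (hz : z ∈ SS j) : 1 < LL j (dev z) := by
  obtain ⟨⟨h1, h2⟩, h3⟩ := hz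
  have hy : 0 < z.2 := by linarith
  have h4 := abs_le.1 h3
  have hps : ∀ a b : ℝ, a * z.2 ≤ z.1 → z.1 ≤ b * z.2 → a ≤ ps z ∧ ps z ≤ b := by
    intro a b ha hb
    unfold ps
    exact ⟨(le_div_iff₀ hy).2 ha, (div_le_iff₀ hy).2 hb⟩
  rcases le_total z.1 ((j : ℝ) * z.2) with h5 | h5
  · have h6 := hps ((((j : ℤ) - 1 : ℤ) : ℝ)) (((j : ℤ) - 1 : ℤ) + 1 : ℝ)
      (by push_cast; nlinarith [h4.1]) (by push_cast; linarith)
    rw [dev_eq ((j : ℤ) - 1) z hy h6.1 h6.2]
    interval_cases j <;> simp [LL, dv, uu] <;> norm_num at h4 h5 ⊢ <;> nlinarith [h4.1, h4.2]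
  · rcases le_total z.1 (((j : ℝ) + 1) * z.2) with h7 | h7
    · have h6 := hps (((j : ℤ) : ℝ)) ((j : ℤ) + 1 : ℝ)
        (by push_cast; linarith) (by push_cast; linarith)
      rw [dev_eq (j : ℤ) z hy h6.1 h6.2]
      interval_cases j <;> simp [LL, dv, uu] <;> norm_num at h4 h5 h7 ⊢ <;> nlinarith [h4.1, h4.2]
    · have h6 := hps ((((j : ℤ) + 1 : ℤ) : ℝ)) (((j : ℤ) + 1 : ℤ) + 1 : ℝ)
        (by push_cast; linarith) (by push_cast; nlinarith [h4.2])
      rw [dev_eq ((j : ℤ) + 1) z hy h6.1 h6.2]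
      interval_cases j <;> simp [LL, dv, uu] <;> norm_num at h4 h5 h7 ⊢ <;> nlinarith [h4.1, h4.2]

private theorem step (j : ℕ) (hj : j < 4) (p q : Equiv.Perm P2 × Equiv.Perm P2) (hp : p ∈ Lft)
    (hq : q ∈ Lft) (hp2 : ∀ z : P2, p.2 z = (z.1 + ph j z, z.2))
    (hq2 : ∀ z : P2, q.2 z = (z.1 + ph (j + 1) z, z.2)) : p.1⁻¹ * q.1 ∈ E Q0.set := by
  have hf : p⁻¹ * q ∈ Lft := Lft.mul_mem (Lft.inv_mem hp) hq
  obtain ⟨f1, f2, f3, f4, f5, f6⟩ := hf
  have e1 : (p⁻¹ * q).1 = p.1⁻¹ * q.1 := rfl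
  have e2 : (p⁻¹ * q).2 = p.2⁻¹ * q.2 := rfl
  rw [e1] at f1 f2 f4
  rw [e2] at f3 f4 f5 f6
  have hK : IsCompact (dev '' SS j) :=
    (SS_compact j).image_of_continuousOn (dev_cont.mono fun z hz => by
      have : (2 : ℝ) ≤ z.2 := hz.1.1
      show (0 : ℝ) < z.2
      linarith)
  have hU : IsOpen {p : P2 | 1 < LL j p} := isOpen_lt continuous_const (LL_cont j)
  refine GU_le_E {p : P2 | 1 < LL j p} Q0.set hU (LL_convex j) ?_ ?_
  · rw [Set.disjoint_left]
    intro x hx hx'
    have h1 : x ∈ Metric.closedBall (0 : P2) 1 := hx'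
    rw [mem_closedBall_zero_iff] at h1
    have h2 : 1 < LL j x := hx
    linarith [LL_le j x]
  · refine ⟨f1, dev '' SS j, ?_, hK, fun x hx => ?_⟩
    · rintro _ ⟨z, hz, rfl⟩
      exact LL_SS j hj z hz
    · rcases le_or_gt ‖x‖ 1 with h | h
      · exact f2 x h
      · obtain ⟨z, hz, _, _, rfl⟩ := dev_surj x (by
          rintro rfl
          rw [norm_zero] at h
          linarith)
        have hzSt : z ∈ St := by
          rw [dev_norm z hz] at h
          exact h
        rw [← f4 z hzSt]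
        congr 1
        rw [Equiv.Perm.mul_apply, Equiv.Perm.inv_eq_iff_eq, hp2, hq2]
        by_contra hc
        have h1 : ph j z ≠ ph (j + 1) z := by
          intro h2
          rw [h2] at hc
          exact hc rfl
        obtain ⟨h2, h3, n, hn, h4⟩ := ph_ne j z h1
        refine hx ⟨(TT ^ (-(n / 4))) z, ?_, dev_TT_zpow _ z hz⟩
        rw [TT_zpow]
        refine ⟨⟨h2.le, h3.le⟩, ?_⟩
        simp only
        have h5 : (n : ℝ) = j + 4 * ((n / 4 : ℤ) : ℝ) := by
          have : n = j + 4 * (n / 4) := by omega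
          exact_mod_cast this
        have h6 : z.1 + 4 * ((-(n / 4) : ℤ) : ℝ) * z.2 - ((j : ℝ) + 1 / 2) * z.2 =
            z.1 - ((n : ℝ) + 1 / 2) * z.2 := by
          rw [h5]
          push_cast
          ring
        rw [h6]
        exact h4.le

private theorem all_E (j : ℕ) : j ≤ 4 → ∀ q ∈ Lft, (∀ z : P2, q.2 z = (z.1 + ph j z, z.2)) →
    q.1 ∈ E Q0.set := by
  induction j with
  | zero =>
    intro _ q hq h
    have h1 : q.1 = 1 := by
      ext1 x
      obtain ⟨f1, f2, f3, f4, f5, f6⟩ := hq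
      rcases le_or_gt ‖x‖ 1 with hx | hx
      · exact f2 x hx
      · obtain ⟨z, hz, _, _, rfl⟩ := dev_surj x (by
          rintro rfl
          rw [norm_zero] at hx
          linarith)
        have hzSt : z ∈ St := by
          rw [dev_norm z hz] at hx
          exact hx
        rw [← f4 z hzSt, h z, ph_zero' z, add_zero]
        rfl
    rw [h1]
    exact (E Q0.set).one_mem
  | succ j ih =>
    intro hj q hq h
    obtain ⟨p, hp, hp2⟩ := ph_ex j
    have h1 := ih (by omega) p hp hp2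
    have h2 := step j (by omega) p q hp hq hp2 h
    have h3 := (E Q0.set).mul_mem h1 h2
    rw [mul_inv_cancel_left] at h3
    exact h3

theorem mt_ex : ∃ m ∈ E Q0.set, (m, mt) ∈ Lft := by
  obtain ⟨q, hq, hq2⟩ := ph_ex 4
  have h1 := all_E 4 le_rfl q hq hq2
  refine ⟨q.1 ^ 64, (E Q0.set).pow_mem h1 64, ?_⟩
  have h2 := Lft.pow_mem hq 64
  have h3 : ∀ (k : ℕ) (z : P2), (q.2 ^ k) z = (z.1 + k * (1 / 64 * psi z.2), z.2) := by
    intro k
    induction k with
    | zero => intro z; simp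
    | succ k ih =>
      intro z
      rw [pow_succ', Equiv.Perm.mul_apply, ih, hq2, ph_four]
      ext
      · simp only
        push_cast
        ring
      · rfl
  have h4 : q.2 ^ 64 = mt := by
    ext1 z
    rw [h3]
    have h5 : mt z = (z.1 + psi z.2, z.2) := rfl
    rw [h5]
    ext
    · simp only
      push_cast
      ring
    · rfl
  have h5 : q ^ 64 = (q.1 ^ 64, mt) := by
    rw [← h4]
    rfl
  rw [← h5]
  exact h2

end C715
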