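import Pool.Agent.Work.MP_c71557_gt.D.Hh
import Pool.Agent.Work.MP_c71557_gt.D.Mt
import Pool.Agent.Work.MP_c71557_gt.D.Line

set_option autoImplicit false
set_option linter.unusedVariables false

/-!
# MP_c71557_gt, module D/Adm: positions of the elements of `HH` and of the rotation (M)

`hh_iff`: `p ∈ HH`, `c` not in the intervals `(4 k + 2/5, 4 k + 3/5)`; then `p.2` preserves
`{ps ≤ c}` and `{c ≤ ps}`: if `z = (TT^k) w`, `w ∈ Db`, then `p.2 z = (TT^k) (p.2 w)` (`Lft`) and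
`p.2 w = ph0 p w ∈ Db` (`hh_loc`, `ph0_mem`, `off_mem`), so both `ps z` and `ps (p.2 z)` are in
`(4 k + 2/5, 4 k + 3/5)` (`Db_bd`, `ps_TT`, `TT_zpow`); otherwise `p.2 z = z` (`hh_id`).
`hh_band`: the same case distinction: if `z.2 ∉ (19/8, 21/8)` then `p.2 z = z`; always
`(p.2 z).2 ∈ (19/8, 21/8)` if `z.2` is.
`mt`: `ps (mt z) = ps z + psi z.2 / z.2`, `0 ≤ psi y ≤ 4 y` for `y > 0`, and `psi y = 4 y` for
`19/8 ≤ y ≤ 21/8`, `psi y = 0` for `y ≤ 2` or `3 ≤ y`.  So `mt z = TT z` for `19/8 ≤ z.2 ≤ 21/8`.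
`mh_comm`: second components: if `z ∈ (TT^k) '' Db` then `mt (p.2 z) = TT (p.2 z) = p.2 (TT z) = p.2 (mt z)`;
otherwise `mt z ∉ ⋃ (TT^k) '' Db` (in the band `mt = TT`; off the band `mt z` is off the band) and both sides
are `mt z`.  Both products are in `Lft`; first components: for `‖x‖ > 1` write `x = dev z` (`dev_surj`,
`dev_norm`) and use `dev (p.2 (mt z)) = p.1 (m (dev z))` etc.; for `‖x‖ ≤ 1` both fix `x`.
`mh_not`: otherwise `mt z = z` off the translates of `Db` (`hh_id`), but `mt (0, 5/2) = (10, 5/2)` and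
`(0, 5/2)` is in no `(TT^k) '' Db` (`ps = 0`).
-/

namespace C715

open CategoryTheory ActCat

private theorem ad_zpow (p : Equiv.Perm P2 × Equiv.Perm P2) (hp : p ∈ Lft) (k : ℤ) (z : P2) :
    p.2 ((TT ^ k) z) = (TT ^ k) (p.2 z) := by
  have h1 : Commute p.2 TT := Equiv.ext fun z => hp.2.2.2.2.1 z
  have h2 := h1.zpow_right k
  exact congrArg (fun e : Equiv.Perm P2 => e z) h2

private theorem ad_St {w : P2} (hw : w ∈ Db) : w ∈ St := by
  have := (Db_bd w hw).2.2.1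
  change 1 < w.2
  linarith

private theorem ad_Db (p : Equiv.Perm P2 × Equiv.Perm P2) (hp : p ∈ HH) (w : P2) (hw : w ∈ Db) :
    p.2 w ∈ Db := by
  obtain ⟨h1, h2, -, -⟩ := Db_bd w hw
  rw [hh_loc p hp w (ad_St hw) (by linarith) (by linarith)]
  exact off_mem (fun z => GU_off (ph0_mem p hp)) hw

private theorem ad_tr (p : Equiv.Perm P2 × Equiv.Perm P2) (hp : p ∈ HH) (k : ℤ) (z : P2)
    (hz : z ∈ (TT ^ k) '' Db) : p.2 z ∈ (TT ^ k) '' Db := by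
  obtain ⟨w, hw, rfl⟩ := hz
  rw [ad_zpow p hp.1]
  exact ⟨_, ad_Db p hp w hw, rfl⟩

private theorem ad_bd (k : ℤ) (z : P2) (hz : z ∈ (TT ^ k) '' Db) :
    4 * (k : ℝ) + 2 / 5 < ps z ∧ ps z < 4 * (k : ℝ) + 3 / 5 ∧ 19 / 8 < z.2 ∧ z.2 < 21 / 8 := by
  obtain ⟨w, hw, rfl⟩ := hz
  obtain ⟨h1, h2, h3, h4⟩ := Db_bd w hw
  have hw0 : w.2 ≠ 0 := by linarith
  have h5 : ps ((TT ^ k) w) = ps w + 4 * k := by
    rw [TT_zpow]
    unfold ps
    field_simp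
  have h6 : ((TT ^ k) w).2 = w.2 := by rw [TT_zpow]
  rw [h5, h6]
  exact ⟨by linarith, by linarith, h3, h4⟩

private theorem ad_cases (p : Equiv.Perm P2 × Equiv.Perm P2) (hp : p ∈ HH) (z : P2) :
    p.2 z = z ∨ ∃ k : ℤ, z ∈ (TT ^ k) '' Db ∧ p.2 z ∈ (TT ^ k) '' Db := by
  by_cases h : ∃ k : ℤ, z ∈ (TT ^ k) '' Db
  · obtain ⟨k, hk⟩ := h
    exact Or.inr ⟨k, hk, ad_tr p hp k z hk⟩
  · push Not at h
    exact Or.inl (hh_id p hp z h)

theorem hh_iff (p : Equiv.Perm P2 × Equiv.Perm P2) (hp : p ∈ HH) (c : ℝ)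
    (hc : ∀ k : ℤ, c ≤ 4 * k + 2 / 5 ∨ 4 * k + 3 / 5 ≤ c) (z : P2) (hz : z ∈ St) :
    (ps (p.2 z) ≤ c ↔ ps z ≤ c) ∧ (c ≤ ps (p.2 z) ↔ c ≤ ps z) := by
  rcases ad_cases p hp z with h | ⟨k, h1, h2⟩
  · rw [h]
    exact ⟨Iff.rfl, Iff.rfl⟩
  · obtain ⟨a1, a2, -, -⟩ := ad_bd k z h1
    obtain ⟨b1, b2, -, -⟩ := ad_bd k _ h2
    rcases hc k with h | h
    · exact ⟨⟨fun _ => by linarith, fun _ => by linarith⟩, ⟨fun _ => by linarith, fun _ => by linarith⟩⟩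
    · exact ⟨⟨fun _ => by linarith, fun _ => by linarith⟩, ⟨fun _ => by linarith, fun _ => by linarith⟩⟩

theorem psi_bd (y : ℝ) (hy : 0 < y) : 0 ≤ psi y ∧ psi y ≤ 4 * y :=
  ⟨le_max_left _ _, max_le (by linarith) (min_le_left _ _)⟩

private theorem psi_eq (y : ℝ) (h1 : 19 / 8 ≤ y) (h2 : y ≤ 21 / 8) : psi y = 4 * y := by
  unfold psi
  rw [min_eq_left, max_eq_right (by linarith)]
  exact le_min (by linarith) (by linarith)

theorem mt_TT (z : P2) (h1 : 19 / 8 ≤ z.2) (h2 : z.2 ≤ 21 / 8) : mt z = TT z := by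
  change ((z.1 + psi z.2, z.2) : P2) = (z.1 + 4 * z.2, z.2)
  rw [psi_eq z.2 h1 h2]

private theorem ad_hc (c : ℝ) (h1 : -3 ≤ c) (h2 : c ≤ 2 / 5) (k : ℤ) :
    c ≤ 4 * k + 2 / 5 ∨ 4 * k + 3 / 5 ≤ c := by
  rcases lt_or_ge k 0 with hk | hk
  · have h3 : (k : ℝ) ≤ -1 := by exact_mod_cast (by omega : k ≤ -1)
    right
    linarith
  · have h3 : (0 : ℝ) ≤ k := by exact_mod_cast hk
    left
    linarith

private theorem ad_hc2 (c : ℝ) (h1 : 3 / 5 ≤ c) (h2 : c ≤ 22 / 5) (k : ℤ) :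
    c ≤ 4 * k + 2 / 5 ∨ 4 * k + 3 / 5 ≤ c := by
  rcases lt_or_ge k 1 with hk | hk
  · have h3 : (k : ℝ) ≤ 0 := by exact_mod_cast (by omega : k ≤ 0)
    right
    linarith
  · have h3 : (1 : ℝ) ≤ k := by exact_mod_cast hk
    left
    linarith

private theorem ad_left (p : Equiv.Perm P2 × Equiv.Perm P2) (hp : p ∈ HH) :
    ∀ ε > (0 : ℝ), ∃ δ > (0 : ℝ), ∀ x ∈ St, -1 - δ ≤ ps x → -1 - ε ≤ ps (p.2 x) := by
  intro ε hε
  refine ⟨min ε 1, lt_min hε one_pos, fun x hx h => ?_⟩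
  have m1 := min_le_left ε 1
  have m2 := min_le_right ε 1
  have m3 : 0 < min ε 1 := lt_min hε one_pos
  have h1 := (hh_iff p hp (-1 - min ε 1) (ad_hc _ (by linarith) (by linarith)) x hx).2.mpr h
  linarith

theorem hh_padm_g (p : Equiv.Perm P2 × Equiv.Perm P2) (hp : p ∈ HH) : PAdm Jg p.2 Jg := by
  refine ⟨fun ε hε => ?_, ad_left p hp⟩
  refine ⟨min ε (1 / 4), lt_min hε (by norm_num), fun x hx h => ?_⟩
  have m1 := min_le_left ε (1 / 4)
  have m2 := min_le_right ε (1 / 4)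
  have m3 : 0 < min ε (1 / 4) := lt_min hε (by norm_num)
  change ps x ≤ -1 / 2 + _ at h
  change ps (p.2 x) ≤ -1 / 2 + _
  have h1 := (hh_iff p hp (-1 / 2 + min ε (1 / 4)) (ad_hc _ (by linarith) (by linarith)) x hx).1.mpr h
  linarith

theorem hh_padm_t (p : Equiv.Perm P2 × Equiv.Perm P2) (hp : p ∈ HH) : PAdm Jt p.2 Jt := by
  refine ⟨fun ε hε => ?_, ad_left p hp⟩
  refine ⟨min ε (1 / 8), lt_min hε (by norm_num), fun x hx h => ?_⟩
  have m1 := min_le_left ε (1 / 8)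
  have m2 := min_le_right ε (1 / 8)
  have m3 : 0 < min ε (1 / 8) := lt_min hε (by norm_num)
  change ps x ≤ 17 / 4 + _ at h
  change ps (p.2 x) ≤ 17 / 4 + _
  have h1 := (hh_iff p hp (17 / 4 + min ε (1 / 8)) (ad_hc2 _ (by linarith) (by linarith)) x hx).1.mpr h
  linarith

theorem hh_near (p : Equiv.Perm P2 × Equiv.Perm P2) (hp : p ∈ HH) : GS.Near Jg p.2 1 := by
  refine ⟨1 / 4, by norm_num, fun x hx h1 h2 => ?_⟩
  change -1 - 1 / 4 ≤ ps x at h1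
  change ps x ≤ -1 / 2 + 1 / 4 at h2
  rw [Equiv.Perm.one_apply]
  refine hh_id p hp x fun k hk => ?_
  obtain ⟨a1, a2, -, -⟩ := ad_bd k x hk
  rcases lt_or_ge k 0 with hk | hk
  · have h3 : (k : ℝ) ≤ -1 := by exact_mod_cast (by omega : k ≤ -1)
    linarith
  · have h3 : (0 : ℝ) ≤ k := by exact_mod_cast hk
    linarith

theorem gt_padm : PAdm Jg 1 Jt := by
  refine ⟨fun ε hε => ⟨ε, hε, fun x hx h => ?_⟩, fun ε hε => ⟨ε, hε, fun x hx h => h⟩⟩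
  change ps x ≤ -1 / 2 + ε at h
  change ps x ≤ 17 / 4 + ε
  linarith

private theorem ps_mt (x : P2) (hx : x ∈ St) : ps x ≤ ps (mt x) ∧ ps (mt x) ≤ ps x + 4 := by
  have hx1 : 1 < x.2 := hx
  have hx0 : 0 < x.2 := by linarith
  obtain ⟨h1, h2⟩ := psi_bd x.2 hx0
  change x.1 / x.2 ≤ (x.1 + psi x.2) / x.2 ∧ (x.1 + psi x.2) / x.2 ≤ x.1 / x.2 + 4
  constructor
  · exact div_le_div_of_nonneg_right (by linarith) hx0.le
  · rw [add_div]
    have h3 : psi x.2 / x.2 ≤ 4 := by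
      rw [div_le_iff₀ hx0]
      exact h2
    linarith

theorem mt_padm : PAdm Jg mt Jt := by
  refine ⟨fun ε hε => ⟨ε, hε, fun x hx h => ?_⟩, fun ε hε => ⟨ε, hε, fun x hx h => ?_⟩⟩
  · change ps x ≤ -1 / 2 + ε at h
    change ps (mt x) ≤ 17 / 4 + ε
    have := (ps_mt x hx).2
    linarith
  · change -1 - ε ≤ ps x at h
    change -1 - ε ≤ ps (mt x)
    have := (ps_mt x hx).1
    linarith

/-- the rotation and its lift -/
noncomputable def mh : Equiv.Perm P2 × Equiv.Perm P2 := (Classical.choose mt_ex, mt)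

theorem mh_mem : mh ∈ EE :=
  ⟨(Classical.choose_spec mt_ex).2, (Classical.choose_spec mt_ex).1⟩

private theorem lft_snd_inj (p q : Equiv.Perm P2 × Equiv.Perm P2) (hp : p ∈ Lft) (hq : q ∈ Lft)
    (h : p.2 = q.2) : p = q := by
  refine Prod.ext (Equiv.ext fun x => ?_) h
  by_cases hx : ‖x‖ ≤ 1
  · rw [hp.2.1 x hx, hq.2.1 x hx]
  · rw [not_le] at hx
    have hx0 : x ≠ 0 := by
      rintro rfl
      rw [norm_zero] at hx
      linarith
    obtain ⟨z, hz, -, -, rfl⟩ := dev_surj x hx0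
    rw [dev_norm z hz] at hx
    rw [← hp.2.2.2.1 z hx, ← hq.2.2.2.1 z hx, h]

private theorem ad_mt_comm (p : Equiv.Perm P2 × Equiv.Perm P2) (hp : p ∈ HH) (z : P2) :
    p.2 (mt z) = mt (p.2 z) := by
  by_cases hb : 19 / 8 < z.2 ∧ z.2 < 21 / 8
  · have h1 : 19 / 8 < (p.2 z).2 ∧ (p.2 z).2 < 21 / 8 := by
      rcases ad_cases p hp z with h | ⟨k, -, h2⟩
      · rw [h]
        exact hb
      · obtain ⟨-, -, b3, b4⟩ := ad_bd k _ h2
        exact ⟨b3, b4⟩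
    rw [mt_TT z hb.1.le hb.2.le, mt_TT _ h1.1.le h1.2.le, hp.1.2.2.2.2.1 z]
  · have hoff : ∀ w : P2, w.2 = z.2 → p.2 w = w := by
      intro w hw
      rcases ad_cases p hp w with h | ⟨k, h1, -⟩
      · exact h
      · obtain ⟨-, -, b3, b4⟩ := ad_bd k _ h1
        rw [hw] at b3 b4
        exact absurd ⟨b3, b4⟩ hb
    rw [hoff (mt z) rfl, hoff z rfl]

theorem mh_comm : ∀ h ∈ HH, h * mh = mh * h := by
  intro h hh
  refine lft_snd_inj _ _ (Lft.mul_mem hh.1 mh_mem.1) (Lft.mul_mem mh_mem.1 hh.1) ?_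
  refine Equiv.ext fun z => ?_
  exact ad_mt_comm h hh z

theorem mh_not : mh ∉ HH := by
  intro h
  have h1 : mh.2 ((0, 5 / 2) : P2) = (0, 5 / 2) := by
    refine hh_id mh h _ fun k hk => ?_
    obtain ⟨a1, a2, -, -⟩ := ad_bd k _ hk
    have h0 : ps ((0, 5 / 2) : P2) = 0 := by
      unfold ps
      simp
    rw [h0] at a1 a2
    rcases lt_or_ge k 0 with hk | hk
    · have h3 : (k : ℝ) ≤ -1 := by exact_mod_cast (by omega : k ≤ -1)
      linarith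
    · have h3 : (0 : ℝ) ≤ k := by exact_mod_cast hk
      linarith
  have h2 : mh.2 ((0, 5 / 2) : P2) = TT ((0, 5 / 2) : P2) :=
    mt_TT ((0, 5 / 2) : P2) (by norm_num) (by norm_num)
  rw [h2] at h1
  have h3 : (0 : ℝ) + 4 * (5 / 2) = 0 := congrArg Prod.fst h1
  norm_num at h3

private theorem Db_le : GU Db ≤ GU St := GU_mono fun _ hw => ad_St hw

/-- elements of `GU Db` and the line group -/
theorem db_R : GU Db ≤ GS.R Jg.1.2 := by
  intro g hg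
  refine ⟨Db_le hg, 1 / 2, by norm_num, fun x hx h => GU_off hg fun hD => ?_⟩
  change ps x ≤ -1 / 2 + 1 / 2 at h
  have := (Db_bd x hD).1
  linarith

theorem db_L : GU Db ≤ GS.L Jb.1.1 := by
  intro g hg
  refine ⟨Db_le hg, 1, one_pos, fun x hx h => GU_off hg fun hD => ?_⟩
  change 7 / 2 - 1 ≤ ps x at h
  have := (Db_bd x hD).2.1
  linarith

theorem db_t : ∀ h ∈ GU Db, GS.Adm Jt h Jt := by
  intro g hg
  refine ⟨Db_le hg, fun ε hε => ⟨ε, hε, fun x hx h => ?_⟩, fun ε hε => ⟨ε, hε, fun x hx h => ?_⟩⟩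
  · change ps x ≤ 17 / 4 + ε at h
    change ps (g x) ≤ 17 / 4 + ε
    by_cases hD : x ∈ Db
    · have h1 : g x ∈ Db := off_mem (fun z => GU_off hg) hD
      have := (Db_bd _ h1).2.1
      linarith
    · rw [GU_off hg hD]
      exact h
  · change -1 - ε ≤ ps x at h
    change -1 - ε ≤ ps (g x)
    by_cases hD : x ∈ Db
    · have h1 : g x ∈ Db := off_mem (fun z => GU_off hg) hD
      have := (Db_bd _ h1).1
      linarith
    · rw [GU_off hg hD]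
      exact h

theorem jgt : GS.Adm Jg 1 Jt :=
  ⟨(GU St).one_mem, gt_padm.1, gt_padm.2⟩

theorem jbt : GS.Adm Jb 1 Jt := by
  refine ⟨(GU St).one_mem, fun ε hε => ⟨ε, hε, fun x hx h => h⟩,
    fun ε hε => ⟨ε, hε, fun x hx h => ?_⟩⟩
  change 7 / 2 - ε ≤ ps x at h
  change -1 - ε ≤ ps x
  linarith

end C715
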