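import Pool.Agent.Work.MP_c71557_gt.D.Line
import Pool.Agent.Work.MP_c71557_gt.H.ActDir
import Pool.Agent.Work.MP_c71557_gt.H.QA

set_option autoImplicit false
set_option linter.unusedVariables false

/-!
# MP_c71557_gt, module D/CEG: the category of blocks with the group `EE` (M)

* `adm_of_lft`: `p ∈ Lft`, `PAdm J p.2 J'`; then `GS.AdmG J p.2 J'`.  PROOF.  Let `C` be the constant of
`LocSt p.2`, `M = |J.1.1| + |J.1.2| + |J'.1.1| + |J'.1.2| + C + 2`, `γ ∈ GU St` equal to `p.2` on `{|ps| ≤ M}` with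
displacement `≤ C`.  `GS.Near J p.2 γ` with `ε = 1`.  `GS.Adm J γ J'`: for `ε > 0` take `δ` from `PAdm`, `δ ≤ 1`; let
`ps x ≤ J.2 + δ`.  If `-M ≤ ps x` then `|ps x| ≤ M` and `γ x = p.2 x`; otherwise
`ps (γ x) ≤ ps x + C < - M + C ≤ J'.2`.  Similarly on the left.
* `padm_big`: `J3 = (-R, R)` with `R` large compared with the blocks and the displacement constants (the
displacement of `p.2` itself is `≤ C`: every `z` has `|ps z| ≤ M` for some `M`).
* `ceG_hiso`: `quillenA_over` + `acy_over` with `g3 = 1`, `k_i = g_i`, `a3 = J3` of `padm_big`; thin because `N` is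
trivial on both sides.
-/

namespace C715

open CategoryTheory ActCat

theorem adm_of_lft {p : Equiv.Perm P2 × Equiv.Perm P2} (hp : p ∈ Lft) {J J' : LineGrp.Blk}
    (h : PAdm J p.2 J') : GS.AdmG J p.2 J' := by
  obtain ⟨C, hC⟩ := hp.2.2.2.2.2
  set M : ℝ := |J.1.1| + |J.1.2| + |J'.1.1| + |J'.1.2| + |C| + 2 with hM
  obtain ⟨γ, hγ, e1, e2⟩ := hC M
  have a1 := abs_le.mp (le_refl |J.1.1|)
  have a2 := abs_le.mp (le_refl |J.1.2|)
  have a3 := abs_le.mp (le_refl |J'.1.1|)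
  have a4 := abs_le.mp (le_refl |J'.1.2|)
  have a5 := le_abs_self C
  have n1 := abs_nonneg J.1.1
  have n2 := abs_nonneg J.1.2
  have n3 := abs_nonneg J'.1.1
  have n4 := abs_nonneg J'.1.2
  have n5 := abs_nonneg C
  refine ⟨γ, ⟨hγ, fun ε hε => ?_, fun ε hε => ?_⟩, 1, one_pos, fun x hx h1 h2 => ?_⟩
  · obtain ⟨δ, hδ, h1⟩ := h.1 ε hε
    refine ⟨min δ 1, lt_min hδ one_pos, fun x hx hp => ?_⟩
    have m1 := min_le_left δ 1
    have m2 := min_le_right δ 1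
    change ps x ≤ J.1.2 + min δ 1 at hp
    change ps (γ x) ≤ J'.1.2 + ε
    rcases le_or_gt (-M) (ps x) with h3 | h3
    · rw [← e1 x hx (abs_le.mpr ⟨h3, by linarith⟩)]
      exact h1 x hx (by linarith)
    · have h4 := abs_le.mp (e2 x hx)
      linarith [h4.2]
  · obtain ⟨δ, hδ, h1⟩ := h.2 ε hε
    refine ⟨min δ 1, lt_min hδ one_pos, fun x hx hp => ?_⟩
    have m1 := min_le_left δ 1
    have m2 := min_le_right δ 1
    change J.1.1 - min δ 1 ≤ ps x at hp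
    change J'.1.1 - ε ≤ ps (γ x)
    rcases le_or_gt (ps x) M with h3 | h3
    · rw [← e1 x hx (abs_le.mpr ⟨by linarith, h3⟩)]
      exact h1 x hx (by linarith)
    · have h4 := abs_le.mp (e2 x hx)
      linarith [h4.1]
  · change J.1.1 - 1 ≤ ps x at h1
    change ps x ≤ J.1.2 + 1 at h2
    exact e1 x hx (abs_le.mpr ⟨by linarith, by linarith⟩)

private theorem lft_disp {p : Equiv.Perm P2 × Equiv.Perm P2} (hp : p ∈ Lft) :
    ∃ C : ℝ, 0 ≤ C ∧ ∀ z ∈ St, |ps (p.2 z) - ps z| ≤ C := by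
  obtain ⟨C, hC⟩ := hp.2.2.2.2.2
  refine ⟨|C|, abs_nonneg C, fun z hz => ?_⟩
  obtain ⟨γ, hγ, e1, e2⟩ := hC |ps z|
  rw [e1 z hz le_rfl]
  exact (e2 z hz).trans (le_abs_self C)

private theorem padm_wide {p : Equiv.Perm P2 × Equiv.Perm P2} {C : ℝ}
    (h : ∀ z ∈ St, |ps (p.2 z) - ps z| ≤ C) {J J3 : LineGrp.Blk} (h1 : J3.1.1 ≤ J.1.1 - C)
    (h2 : J.1.2 + C ≤ J3.1.2) : PAdm J p.2 J3 := by
  refine ⟨fun ε hε => ⟨ε, hε, fun x hx hp => ?_⟩, fun ε hε => ⟨ε, hε, fun x hx hp => ?_⟩⟩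
  · have := (abs_le.mp (h x hx)).2
    linarith
  · have := (abs_le.mp (h x hx)).1
    linarith

theorem padm_big (p q : Equiv.Perm P2 × Equiv.Perm P2) (hp : p ∈ Lft) (hq : q ∈ Lft)
    (J J' : LineGrp.Blk) : ∃ J3 : LineGrp.Blk, PAdm J p.2 J3 ∧ PAdm J' q.2 J3 := by
  obtain ⟨C, hC0, hC⟩ := lft_disp hp
  obtain ⟨C', hC0', hC'⟩ := lft_disp hq
  have hJ := J.2
  have m1 := min_le_left (J.1.1 - C) (J'.1.1 - C')
  have m2 := min_le_right (J.1.1 - C) (J'.1.1 - C')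
  have m3 := le_max_left (J.1.2 + C) (J'.1.2 + C')
  have m4 := le_max_right (J.1.2 + C) (J'.1.2 + C')
  exact ⟨⟨(min (J.1.1 - C) (J'.1.1 - C'), max (J.1.2 + C) (J'.1.2 + C')), by
    change min (J.1.1 - C) (J'.1.1 - C') < max (J.1.2 + C) (J'.1.2 + C')
    linarith⟩, padm_wide hC m1 m3, padm_wide hC' m2 m4⟩

/-- forget the block -/
noncomputable def ceG : CE.Obj ⥤ (sg EE).Obj :=
  idFun (A := CE) (A' := sg EE) (fun _ => ()) (fun h => h.1) (fun h => h)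

theorem ceG_hiso : HIso ceG := by
  refine quillenA_over _ fun b => ?_
  obtain ⟨⟨⟩⟩ := b
  refine acy_over (A := CE) (A' := sg EE) (fun _ => ()) (fun h => h.1) (fun h => h) ()
    ⟨Jg, 1, EE.one_mem⟩ ?_ ?_
  · intro a1 g1 a2 g2 h1 h2
    have h1' : g1 ∈ EE := h1
    have h2' : g2 ∈ EE := h2
    obtain ⟨J3, h3, h4⟩ := padm_big g1 g2 h1'.1 h2'.1 a1 a2
    refine ⟨J3, 1, g1, g2, EE.one_mem, ⟨h1', h3⟩, ⟨h2', h4⟩, ?_, ?_⟩
    · rw [one_mul, inv_mul_cancel]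
      exact Subgroup.one_mem _
    · rw [one_mul, inv_mul_cancel]
      exact Subgroup.one_mem _
  · intro a a' g k k' _ _ _ h
    exact h

/-- pass to germs along blocks upstairs -/
noncomputable def devF : CE.Obj ⥤ GS.CG.Obj :=
  functor (A := CE) (A' := GS.CG) (fun J => J) (MonoidHom.snd (Equiv.Perm P2) (Equiv.Perm P2))
    (fun h => adm_of_lft h.1.1 h.2) (fun {J n} hn => by
      have hn' : n ∈ (⊥ : Subgroup (Equiv.Perm P2 × Equiv.Perm P2)) := hn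
      rw [Subgroup.mem_bot] at hn'
      subst hn'
      rw [map_one]
      exact Subgroup.one_mem _)

end C715
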