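import Pool.Agent.Work.MP_c71557_gt.P.Defs2
import Pool.Agent.Work.MP_c71557_gt.L.DefsE

set_option autoImplicit false
set_option linter.unusedVariables false

/-!
# MP_c71557_gt, block D: the half plane `y > 1` as the universal covering of the square annulus

`St = {y > 1}`, position `ps (x, y) = x / y`, translation `TT (x, y) = (x + 4 y, y)`.
`dev : St → {‖p‖ > 1}`: for `k ≤ ps z ≤ k + 1`, `dev z = ((k+1) y - x) uu k + (x - k y) uu (k+1)`, where
`uu k` are the corners of the unit square (in this order `(1,-1), (1,1), (-1,1), (-1,-1)`).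
`Lft`: pairs `(e, g)`, `e ∈ Gc` the identity on `{‖p‖ ≤ 1}`, `g` a permutation of `St` (the identity elsewhere) commuting with `TT`,
`dev ∘ g = e ∘ dev`, `g` agrees on `{|ps| ≤ M}` with elements of `GU St` of bounded displacement.
-/

namespace C715

open CategoryTheory

/-- the strip -/
def St : Set P2 := {x | 1 < x.2}

/-- position -/
noncomputable def ps (x : P2) : ℝ := x.1 / x.2

/-- translation -/
noncomputable def TT : Equiv.Perm P2 where
  toFun x := (x.1 + 4 * x.2, x.2)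
  invFun x := (x.1 - 4 * x.2, x.2)
  left_inv x := by ext <;> simp
  right_inv x := by ext <;> simp

/-- corners of the unit square -/
noncomputable def uu (k : ℤ) : P2 :=
  if k % 4 = 0 then (1, -1) else if k % 4 = 1 then (1, 1) else if k % 4 = 2 then (-1, 1) else (-1, -1)

/-- the linear pieces of `dev` -/
noncomputable def dv (k : ℤ) (z : P2) : P2 :=
  (((k : ℝ) + 1) * z.2 - z.1) • uu k + (z.1 - (k : ℝ) * z.2) • uu (k + 1)

/-- the covering map -/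
noncomputable def dev (z : P2) : P2 := dv ⌊ps z⌋ z

theorem GU_off {U : Set P2} {g : Equiv.Perm P2} (hg : g ∈ GU U) {z : P2} (hz : z ∉ U) :
    g z = z := by
  obtain ⟨_, K, hK, _, h1⟩ := hg
  exact h1 z fun h => hz (hK h)

theorem off_mem {U : Set P2} {g : Equiv.Perm P2} (h : ∀ z, z ∉ U → g z = z) {z : P2}
    (hz : z ∈ U) : g z ∈ U := by
  by_contra hc
  have h1 := h (g z) hc
  have h2 := g.injective h1
  rw [h2] at hc
  exact hc hz

theorem off_inv {U : Set P2} {g : Equiv.Perm P2} (h : ∀ z, z ∉ U → g z = z) (z : P2)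
    (hz : z ∉ U) : g⁻¹ z = z := by
  rw [Equiv.Perm.inv_eq_iff_eq, h z hz]

/-- bounded displacement and local membership in `GU St` -/
def LocSt (g : Equiv.Perm P2) : Prop :=
  ∃ C : ℝ, ∀ M : ℝ, ∃ γ ∈ GU St, (∀ z ∈ St, |ps z| ≤ M → g z = γ z) ∧
    ∀ z ∈ St, |ps (γ z) - ps z| ≤ C

theorem LocSt.mul {g h : Equiv.Perm P2} (hg : LocSt g) (hh : LocSt h) : LocSt (g * h) := by
  obtain ⟨C, hC⟩ := hg
  obtain ⟨C', hC'⟩ := hh
  refine ⟨C + C', fun M => ?_⟩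
  obtain ⟨γ, hγ, e1, e2⟩ := hC (M + C')
  obtain ⟨γ', hγ', e3, e4⟩ := hC' M
  refine ⟨γ * γ', (GU St).mul_mem hγ hγ', fun z hz hM => ?_, fun z hz => ?_⟩
  · have h1 : γ' z ∈ St := off_mem (fun w => GU_off hγ') hz
    have h2 : |ps (γ' z)| ≤ M + C' := by
      have := abs_add_le (ps (γ' z) - ps z) (ps z)
      rw [sub_add_cancel] at this
      linarith [e4 z hz]
    rw [Equiv.Perm.mul_apply, Equiv.Perm.mul_apply, e3 z hz hM, e1 _ h1 h2]
  · have h1 : γ' z ∈ St := off_mem (fun w => GU_off hγ') hz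
    have h2 := abs_add_le (ps (γ (γ' z)) - ps (γ' z)) (ps (γ' z) - ps z)
    rw [sub_add_sub_cancel] at h2
    rw [Equiv.Perm.mul_apply]
    linarith [e2 _ h1, e4 z hz]

theorem LocSt.one : LocSt 1 := ⟨0, fun M => ⟨1, (GU St).one_mem, fun _ _ _ => rfl, fun z hz => by
  simp⟩⟩

theorem LocSt.inv {g : Equiv.Perm P2} (hg : LocSt g) : LocSt g⁻¹ := by
  obtain ⟨C, hC⟩ := hg
  refine ⟨C, fun M => ?_⟩
  obtain ⟨γ, hγ, e1, e2⟩ := hC (M + C)
  refine ⟨γ⁻¹, (GU St).inv_mem hγ, fun z hz hM => ?_, fun z hz => ?_⟩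
  · have h1 : γ⁻¹ z ∈ St := off_mem (off_inv fun w => GU_off hγ) hz
    have h2 := e2 _ h1
    have h3 : γ (γ⁻¹ z) = z := γ.apply_symm_apply z
    rw [h3] at h2
    have h4 : |ps (γ⁻¹ z)| ≤ M + C := by
      have := abs_sub_abs_le_abs_sub (ps (γ⁻¹ z)) (ps z)
      rw [abs_sub_comm] at h2
      linarith
    rw [Equiv.Perm.inv_eq_iff_eq, e1 _ h1 h4, h3]
  · have h1 : γ⁻¹ z ∈ St := off_mem (off_inv fun w => GU_off hγ) hz
    have h2 := e2 _ h1
    have h3 : γ (γ⁻¹ z) = z := γ.apply_symm_apply z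
    rw [h3, abs_sub_comm] at h2
    exact h2

/-- pairs of an element of `Gc`, the identity on the unit square, and its lift to the strip -/
def Lft : Subgroup (Equiv.Perm P2 × Equiv.Perm P2) where
  carrier := {p | p.1 ∈ Gc ∧ (∀ x : P2, ‖x‖ ≤ 1 → p.1 x = x) ∧ (∀ z, z ∉ St → p.2 z = z) ∧
    (∀ z ∈ St, dev (p.2 z) = p.1 (dev z)) ∧ (∀ z, p.2 (TT z) = TT (p.2 z)) ∧ LocSt p.2}
  mul_mem' := by
    rintro ⟨e, g⟩ ⟨f, h⟩ ⟨he, h0, h1, h2, h3, h4⟩ ⟨hf, k0, k1, k2, k3, k4⟩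
    dsimp only at he h0 h1 h2 h3 h4 hf k0 k1 k2 k3 k4
    refine ⟨Gc.mul_mem he hf, fun x hx => ?_, fun z hz => ?_, fun z hz => ?_, fun z => ?_,
      h4.mul k4⟩
    · change e (f x) = x
      rw [k0 x hx, h0 x hx]
    · change g (h z) = z
      rw [k1 z hz, h1 z hz]
    · change dev (g (h z)) = e (f (dev z))
      rw [h2 _ (off_mem k1 hz), k2 z hz]
    · change g (h (TT z)) = TT (g (h z))
      rw [k3, h3]
  one_mem' := ⟨Gc.one_mem, fun _ _ => rfl, fun _ _ => rfl, fun _ _ => rfl, fun _ => rfl,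
    LocSt.one⟩
  inv_mem' := by
    rintro ⟨e, g⟩ ⟨he, h0, h1, h2, h3, h4⟩
    dsimp only at he h0 h1 h2 h3 h4
    refine ⟨Gc.inv_mem he, fun x hx => ?_, fun z hz => off_inv h1 z hz, fun z hz => ?_,
      fun z => ?_, h4.inv⟩
    · change e⁻¹ x = x
      rw [Equiv.Perm.inv_eq_iff_eq, h0 x hx]
    · change dev (g⁻¹ z) = e⁻¹ (dev z)
      rw [eq_comm, Equiv.Perm.inv_eq_iff_eq, ← h2 _ (off_mem (off_inv h1) hz)]
      congr 1
      exact (g.apply_symm_apply z).symm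
    · change g⁻¹ (TT z) = TT (g⁻¹ z)
      rw [Equiv.Perm.inv_eq_iff_eq, h3]
      congr 1
      exact (g.apply_symm_apply z).symm

/-- the unit square -/
def Q0 : Sq := ⟨(0, 1), one_pos⟩

/-- lifts of elements of `E Q0` -/
def EE : Subgroup (Equiv.Perm P2 × Equiv.Perm P2) where
  carrier := {p | p ∈ Lft ∧ p.1 ∈ E Q0.set}
  mul_mem' := fun h h' => ⟨Lft.mul_mem h.1 h'.1, (E Q0.set).mul_mem h.2 h'.2⟩
  one_mem' := ⟨Lft.one_mem, (E Q0.set).one_mem⟩
  inv_mem' := fun h => ⟨Lft.inv_mem h.1, (E Q0.set).inv_mem h.2⟩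

/-- a small disc in the strip -/
def Db : Set P2 := Metric.ball ((5 / 4, 5 / 2) : P2) (1 / 8)

/-- the linear map `dv 0` -/
noncomputable def dd0 : Equiv.Perm P2 where
  toFun x := (x.2, 2 * x.1 - x.2)
  invFun p := ((p.1 + p.2) / 2, p.1)
  left_inv x := by ext <;> simp
  right_inv x := by
    ext
    · simp
    · dsimp only
      ring

/-- its image in the annulus -/
def Dd : Set P2 := dd0 '' Db

/-- lifts of the elements supported in `Dd` -/
def HH : Subgroup (Equiv.Perm P2 × Equiv.Perm P2) where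
  carrier := {p | p ∈ Lft ∧ p.1 ∈ GU Dd}
  mul_mem' := fun h h' => ⟨Lft.mul_mem h.1 h'.1, (GU Dd).mul_mem h.2 h'.2⟩
  one_mem' := ⟨Lft.one_mem, (GU Dd).one_mem⟩
  inv_mem' := fun h => ⟨Lft.inv_mem h.1, (GU Dd).inv_mem h.2⟩

/-- conjugation by `dd0` of the first component -/
noncomputable def ph0 : Equiv.Perm P2 × Equiv.Perm P2 →* Equiv.Perm P2 :=
  (MulAut.conj dd0⁻¹).toMonoidHom.comp (MonoidHom.fst _ _)

theorem ph0_apply (p : Equiv.Perm P2 × Equiv.Perm P2) : ph0 p = dd0⁻¹ * p.1 * dd0 := by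
  change dd0⁻¹ * p.1 * dd0⁻¹⁻¹ = _
  rw [inv_inv]

/-- amount of the rotation -/
noncomputable def psi (y : ℝ) : ℝ := max 0 (min (4 * y) (min (32 * (y - 2)) (32 * (3 - y))))

/-- the rotation upstairs -/
noncomputable def mt : Equiv.Perm P2 where
  toFun x := (x.1 + psi x.2, x.2)
  invFun x := (x.1 - psi x.2, x.2)
  left_inv x := by ext <;> simp
  right_inv x := by ext <;> simp

/-- blocks -/
noncomputable def Jg : LineGrp.Blk := ⟨(-1, -1/2), by norm_num⟩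

/-- blocks -/
noncomputable def Jb : LineGrp.Blk := ⟨(7/2, 17/4), by norm_num⟩

/-- blocks -/
noncomputable def Jt : LineGrp.Blk := ⟨(-1, 17/4), by norm_num⟩

/-- admissibility with respect to the positions -/
def PAdm (J : LineGrp.Blk) (g : Equiv.Perm P2) (J' : LineGrp.Blk) : Prop :=
  (∀ ε > 0, ∃ δ > 0, ∀ x ∈ St, ps x ≤ J.1.2 + δ → ps (g x) ≤ J'.1.2 + ε) ∧
  (∀ ε > 0, ∃ δ > 0, ∀ x ∈ St, J.1.1 - δ ≤ ps x → J'.1.1 - ε ≤ ps (g x))

theorem PAdm.one (J : LineGrp.Blk) : PAdm J 1 J :=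
  ⟨fun ε hε => ⟨ε, hε, fun _ _ h => h⟩, fun ε hε => ⟨ε, hε, fun _ _ h => h⟩⟩

theorem PAdm.mul {J J' J'' : LineGrp.Blk} {g h : Equiv.Perm P2} (hg : PAdm J g J')
    (hg0 : ∀ z, z ∉ St → g z = z) (hh : PAdm J' h J'') : PAdm J (h * g) J'' := by
  refine ⟨fun ε hε => ?_, fun ε hε => ?_⟩
  · obtain ⟨δ, hδ, h1⟩ := hh.1 ε hε
    obtain ⟨δ', hδ', h2⟩ := hg.1 δ hδ
    exact ⟨δ', hδ', fun x hx hp => h1 _ (off_mem hg0 hx) (h2 x hx hp)⟩
  · obtain ⟨δ, hδ, h1⟩ := hh.2 ε hε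
    obtain ⟨δ', hδ', h2⟩ := hg.2 δ hδ
    exact ⟨δ', hδ', fun x hx hp => h1 _ (off_mem hg0 hx) (h2 x hx hp)⟩

/-- blocks, elements of `EE` -/
def CE : ActCat (Equiv.Perm P2 × Equiv.Perm P2) where
  Ob := LineGrp.Blk
  Adm J p J' := p ∈ EE ∧ PAdm J p.2 J'
  N _ := ⊥
  one J := ⟨EE.one_mem, PAdm.one J⟩
  mul := fun {a b c g h} hg hh => ⟨EE.mul_mem hh.1 hg.1, hg.2.mul hg.1.1.2.2.1 hh.2⟩
  nAdm := fun {J n} hn => by
    rw [Subgroup.mem_bot] at hn
    subst hn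
    exact ⟨EE.one_mem, PAdm.one J⟩
  conj := fun {J J' g n} hg hn => by
    rw [Subgroup.mem_bot] at hn ⊢
    subst hn
    group

end C715
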