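import Pool.Agent.Work.MP_c71557_gt.D.Dev
import Pool.Agent.Work.MP_c71557_gt.P.Inv

/-!
# MP_c71557_gt, module D/Desc: descending a periodic homeomorphism of the strip (M-L)

`g` a permutation of `P2`, the identity off `St`, commuting with `TT`, `LocSt g`.  There is `e ∈ Gc` with
`(e, g) ∈ Lft`.

PROOF.  `e p = dev (g z)` for `‖p‖ > 1`, `p = dev z`, `z.2 = ‖p‖` (`dev_surj`, `dev_norm`), `e p = p` for
`‖p‖ ≤ 1`.  Well defined: two choices of `z` differ by `TT^k` (`dev_inj`), `g` commutes with `TT`,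
`dev_TT_zpow`.  It is a permutation (inverse: from `g⁻¹`, also `LocSt`).  With `γ ∈ GU St` for `M = 4`
(`g = γ` on `{|ps| ≤ 4}`) there are `1 < a < b` with `γ z = z` unless `a ≤ z.2 ≤ b`; every `p` with `‖p‖ > 1`
has `z` with `0 ≤ ps z < 4`; so `e p = p` unless `a ≤ ‖p‖ ≤ b`.
Continuity: the plane is the union of the closed sets `{‖p‖ ≤ a}`, `{b ≤ ‖p‖}` (there `e = id`) and
of `D_k = dv k '' {z | k z.2 ≤ z.1 ≤ (k+1) z.2, a ≤ z.2 ≤ b}`, `k = 0, 1, 2, 3` (compact); on `D_k`,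
`e = dev ∘ γ ∘ (dv k)⁻¹` is continuous.  (Finite closed cover.)
PL (`IsPLf.glue'` or directly): for `p ∈ D_k` let `z = (dv k)⁻¹ p` and `j = ⌊ps (γ z)⌋`, bounded because `γ` has
bounded displacement; `e p = dv j (γ z)` and `γ z` is one of finitely many affine functions of `z`: finitely
many affine maps.  `Gc_of`.
-/

set_option autoImplicit false
set_option linter.unusedVariables false

namespace C715

open Filter Topology

private theorem St_open : IsOpen St := isOpen_lt continuous_const continuous_snd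

private theorem comm_zpow {g : Equiv.Perm P2} (h2 : ∀ z, g (TT z) = TT (g z)) (k : ℤ) (z : P2) :
    g ((TT ^ k) z) = (TT ^ k) (g z) := by
  have h : Commute g TT := by
    show g * TT = TT * g
    ext1 z
    exact h2 z
  have h3 := (h.zpow_right k)
  exact congrArg (fun f : Equiv.Perm P2 => f z) h3

/-- choice of a point of the strip over `p` -/
private theorem sg_ex (p : P2) : ∃ z : P2, p ≠ 0 → 0 < z.2 ∧ 0 ≤ ps z ∧ ps z < 4 ∧ dev z = p := by
  by_cases hp : p = 0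
  · exact ⟨0, fun h => absurd hp h⟩
  · obtain ⟨z, hz⟩ := dev_surj p hp
    exact ⟨z, fun _ => hz⟩

private noncomputable def sg (p : P2) : P2 := (sg_ex p).choose

private theorem sg_spec (p : P2) (hp : 1 < ‖p‖) :
    sg p ∈ St ∧ 0 ≤ ps (sg p) ∧ ps (sg p) < 4 ∧ dev (sg p) = p ∧ (sg p).2 = ‖p‖ := by
  have hp0 : p ≠ 0 := by
    rintro rfl
    rw [norm_zero] at hp
    linarith
  obtain ⟨h1, h2, h3, h4⟩ := (sg_ex p).choose_spec hp0
  have h5 := dev_norm (sg p) h1
  have h6 : dev (sg p) = p := h4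
  rw [h6] at h5
  exact ⟨by show 1 < (sg p).2; rw [← h5]; exact hp, h2, h3, h4, h5.symm⟩

open Classical in
/-- the descended map -/
private noncomputable def dm (g : Equiv.Perm P2) (p : P2) : P2 := if 1 < ‖p‖ then dev (g (sg p)) else p

private theorem dm_dev {g : Equiv.Perm P2} (h1 : ∀ z, z ∉ St → g z = z)
    (h2 : ∀ z, g (TT z) = TT (g z)) (z : P2) (hz : z ∈ St) : dm g (dev z) = dev (g z) := by
  have hz0 : 0 < z.2 := lt_trans one_pos hz
  have hn : 1 < ‖dev z‖ := by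
    rw [dev_norm z hz0]
    exact hz
  obtain ⟨s1, _, _, s4, _⟩ := sg_spec (dev z) hn
  unfold dm
  rw [if_pos hn]
  obtain ⟨k, hk⟩ := dev_inj (sg (dev z)) z (lt_trans one_pos s1) hz0 s4
  conv_rhs => rw [hk]
  rw [comm_zpow h2, dev_TT_zpow]
  exact lt_trans one_pos (off_mem h1 s1)

private theorem dm_inv {g : Equiv.Perm P2} (h1 : ∀ z, z ∉ St → g z = z)
    (h2 : ∀ z, g (TT z) = TT (g z)) (p : P2) : dm g⁻¹ (dm g p) = p := by
  have h1' : ∀ z, z ∉ St → g⁻¹ z = z := off_inv h1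
  have h2' : ∀ z, g⁻¹ (TT z) = TT (g⁻¹ z) := by
    intro z
    rw [Equiv.Perm.inv_eq_iff_eq, h2]
    congr 1
    exact (g.apply_symm_apply z).symm
  by_cases hp : 1 < ‖p‖
  · obtain ⟨s1, _, _, s4, _⟩ := sg_spec p hp
    have h3 : dm g p = dev (g (sg p)) := by
      unfold dm
      rw [if_pos hp]
    rw [h3, dm_dev h1' h2' _ (off_mem h1 s1)]
    have h4 : g⁻¹ (g (sg p)) = sg p := g.symm_apply_apply _
    rw [h4, s4]
  · have h3 : dm g p = p := by
      unfold dm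
      rw [if_neg hp]
    rw [h3]
    unfold dm
    rw [if_neg hp]

private noncomputable def dmp (g : Equiv.Perm P2) (h1 : ∀ z, z ∉ St → g z = z)
    (h2 : ∀ z, g (TT z) = TT (g z)) : Equiv.Perm P2 where
  toFun := dm g
  invFun := dm g⁻¹
  left_inv p := dm_inv h1 h2 p
  right_inv p := by
    have h1' : ∀ z, z ∉ St → g⁻¹ z = z := off_inv h1
    have h2' : ∀ z, g⁻¹ (TT z) = TT (g⁻¹ z) := by
      intro z
      rw [Equiv.Perm.inv_eq_iff_eq, h2]
      congr 1
      exact (g.apply_symm_apply z).symm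
    have h3 := dm_inv h1' h2' p
    rw [inv_inv] at h3
    exact h3

private theorem ps_cont {z : P2} (hz : 0 < z.2) : ContinuousAt ps z := by
  unfold ps
  exact ContinuousAt.div continuousAt_fst continuousAt_snd hz.ne'

private theorem g_cont {g : Equiv.Perm P2} (h3 : LocSt g) {z : P2} (hz : z ∈ St) :
    ContinuousAt g z := by
  obtain ⟨C, hC⟩ := h3
  obtain ⟨γ, hγ, e1, _⟩ := hC (|ps z| + 1)
  have hc : ContinuousAt γ z := (Gc_cont hγ.1).continuousAt
  refine hc.congr ?_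
  have hp := (ps_cont (lt_trans one_pos hz)).abs
  have h4 : ∀ᶠ w in 𝓝 z, |ps w| < |ps z| + 1 :=
    hp.eventually (gt_mem_nhds (by linarith))
  filter_upwards [h4, St_open.mem_nhds hz] with w hw hwS
  exact (e1 w hwS hw.le).symm

theorem descend (g : Equiv.Perm P2) (h1 : ∀ z, z ∉ St → g z = z)
    (h2 : ∀ z, g (TT z) = TT (g z)) (h3 : LocSt g) : ∃ e ∈ Gc, (e, g) ∈ Lft := by
  have hee : ∀ p, dmp g h1 h2 p = dm g p := fun p => rfl
  have hsmall : ∀ x : P2, ‖x‖ ≤ 1 → dmp g h1 h2 x = x := by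
    intro x hx
    rw [hee]
    unfold dm
    rw [if_neg (not_lt.mpr hx)]
  have hdev : ∀ z ∈ St, dev (g z) = dmp g h1 h2 (dev z) := fun z hz => by
    rw [hee, dm_dev h1 h2 z hz]
  -- the local approximation
  obtain ⟨C, hC⟩ := id h3
  obtain ⟨γ, hγ, e1, e2⟩ := hC 4
  obtain ⟨hγG, K, hKSt, hK, hKoff⟩ := id hγ
  have hval : ∀ p, 1 < ‖p‖ → dmp g h1 h2 p = dev (γ (sg p)) := by
    intro p hp
    obtain ⟨s1, s2, s3, _, _⟩ := sg_spec p hp
    rw [hee]
    unfold dm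
    rw [if_pos hp, e1 _ s1 (by rw [abs_of_nonneg s2]; exact s3.le)]
  have hid : ∀ p, 1 < ‖p‖ → sg p ∉ K → dmp g h1 h2 p = p := by
    intro p hp hn
    obtain ⟨_, _, _, s4, _⟩ := sg_spec p hp
    rw [hval p hp, hKoff _ hn, s4]
  -- bounds of K
  obtain ⟨a, b, ha, hab⟩ : ∃ a b : ℝ, 1 < a ∧ ∀ z ∈ K, a ≤ z.2 ∧ z.2 ≤ b := by
    rcases K.eq_empty_or_nonempty with hKe | hKn
    · exact ⟨2, 2, by norm_num, fun z hz => by rw [hKe] at hz; exact absurd hz (Set.notMem_empty z)⟩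
    · obtain ⟨z0, hz0, hz0m⟩ := hK.exists_isMinOn hKn (continuous_snd.continuousOn (s := K))
      obtain ⟨z1, hz1, hz1m⟩ := hK.exists_isMaxOn hKn (continuous_snd.continuousOn (s := K))
      exact ⟨z0.2, z1.2, hKSt hz0, fun z hz => ⟨hz0m hz, hz1m hz⟩⟩
  have hlow : ∀ p, ‖p‖ < a → dmp g h1 h2 p = p := by
    intro p hp
    by_cases hp1 : 1 < ‖p‖
    · apply hid p hp1
      intro hK'
      have := (hab _ hK').1
      rw [(sg_spec p hp1).2.2.2.2] at this
      linarith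
    · exact hsmall p (not_lt.mp hp1)
  have hhigh : ∀ p, max 2 (b + 1) ≤ ‖p‖ → dmp g h1 h2 p = p := by
    intro p hp
    have hp1 : 1 < ‖p‖ := by
      have := (le_max_left 2 (b + 1)).trans hp
      linarith
    apply hid p hp1
    intro hK'
    have h4 := (hab _ hK').2
    rw [(sg_spec p hp1).2.2.2.2] at h4
    have := (le_max_right 2 (b + 1)).trans hp
    linarith
  -- continuity
  have hcont : Continuous (dmp g h1 h2) := by
    rw [continuous_iff_continuousAt]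
    intro p
    by_cases hp : ‖p‖ < a
    · have hev : ∀ᶠ q in 𝓝 p, ‖q‖ < a := continuous_norm.continuousAt.eventually (gt_mem_nhds hp)
      refine (continuousAt_id (x := p)).congr ?_
      filter_upwards [hev] with q hq
      exact (hlow q hq).symm
    · have hp1 : 1 < ‖p‖ := by linarith
      obtain ⟨s1, _, _, s4, _⟩ := sg_spec p hp1
      rw [ContinuousAt, hval p hp1]
      rw [tendsto_def]
      intro V hV
      obtain ⟨V', hV'V, hV'o, hV'm⟩ := mem_nhds_iff.mp hV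
      set W : Set P2 := {z | z ∈ St ∧ dev (g z) ∈ V'} with hW
      have hgc : ContinuousOn (fun z => dev (g z)) St := by
        intro z hz
        have c1 := g_cont h3 hz
        have c2 : ContinuousAt dev (g z) := by
          apply dev_cont.continuousAt
          apply (isOpen_lt continuous_const continuous_snd).mem_nhds
          exact lt_trans one_pos (show 1 < (g z).2 from off_mem h1 hz)
        exact (ContinuousAt.comp (f := g) c2 c1).continuousWithinAt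
      have hWo : IsOpen W := hgc.isOpen_inter_preimage St_open hV'o
      have hdWo : IsOpen (dev '' W) := dev_open W hWo (fun z hz =>
        show 0 < z.2 from lt_trans one_pos (show 1 < z.2 from hz.1))
      have hpW : p ∈ dev '' W := by
        refine ⟨sg p, ⟨s1, ?_⟩, s4⟩
        rw [hdev _ s1, s4, hval p hp1]
        exact hV'm
      refine mem_of_superset (hdWo.mem_nhds hpW) ?_
      rintro _ ⟨z, hz, rfl⟩
      show dmp g h1 h2 (dev z) ∈ V
      rw [← hdev z hz.1]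
      exact hV'V hz.2
  -- piecewise linearity
  choose mi ni hmn using dv_inv
  choose mm nn hmm using dv_lin
  obtain ⟨⟨_, S1, hS1, hγ1⟩, ⟨_, S2, hS2, hγ2⟩⟩ := hγG.1.1
  obtain ⟨N, hN⟩ : ∃ N : ℕ, |C| + 5 ≤ N := exists_nat_ge _
  set I : Set ((ℤ × ℤ) × (L3 × L3)) := ((Set.Icc (0:ℤ) 3) ×ˢ (Set.Icc (-(N:ℤ)) N)) ×ˢ
    (S1 ×ˢ S2) with hI
  have hIf : I.Finite := ((Set.finite_Icc _ _).prod (Set.finite_Icc _ _)).prod (hS1.prod hS2)
  have key : ∀ p, 1 < ‖p‖ → ∃ t ∈ I, dmp g h1 h2 p =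
      ((((mm t.1.2).sub t.2.1 t.2.2).sub (mi t.1.1) (ni t.1.1)).ev p,
        (((nn t.1.2).sub t.2.1 t.2.2).sub (mi t.1.1) (ni t.1.1)).ev p) := by
    intro p hp
    obtain ⟨s1, s2, s3, s4, _⟩ := sg_spec p hp
    obtain ⟨l1, hl1, v1⟩ := hγ1 (sg p)
    obtain ⟨l2, hl2, v2⟩ := hγ2 (sg p)
    have hk0 : 0 ≤ ⌊ps (sg p)⌋ := Int.floor_nonneg.mpr s2
    have hk3 : ⌊ps (sg p)⌋ ≤ 3 := by
      have : ⌊ps (sg p)⌋ < 4 := Int.floor_lt.mpr (by exact_mod_cast s3)
      omega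
    have hγm : γ (sg p) ∈ St := off_mem (fun w hw => hKoff w (fun h => hw (hKSt h))) s1
    have hd := e2 _ s1
    have hj : |ps (γ (sg p))| ≤ |C| + 4 := by
      have h5 := abs_sub_abs_le_abs_sub (ps (γ (sg p))) (ps (sg p))
      rw [abs_of_nonneg s2] at h5
      have h6 := le_abs_self C
      linarith
    have hj1 := (abs_le.mp hj).1
    have hj2 := (abs_le.mp hj).2
    have hjl : -(N:ℤ) ≤ ⌊ps (γ (sg p))⌋ := by
      rw [Int.le_floor]
      push_cast
      linarith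
    have hju : ⌊ps (γ (sg p))⌋ ≤ (N:ℤ) := by
      have : ⌊ps (γ (sg p))⌋ < (N:ℤ) := by
        rw [Int.floor_lt]
        push_cast
        linarith
      omega
    refine ⟨((⌊ps (sg p)⌋, ⌊ps (γ (sg p))⌋), (l1, l2)), ⟨⟨⟨hk0, hk3⟩, ⟨hjl, hju⟩⟩, ⟨hl1, hl2⟩⟩, ?_⟩
    simp only [L3.ev_sub]
    have h7 : ((mi ⌊ps (sg p)⌋).ev p, (ni ⌊ps (sg p)⌋).ev p) = sg p := by
      have h8 := hmn ⌊ps (sg p)⌋ (sg p)
      have h9 : dv ⌊ps (sg p)⌋ (sg p) = p := s4
      rw [h9] at h8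
      exact h8.symm
    rw [h7, ← v1, ← v2, hval p hp]
    exact hmm ⌊ps (γ (sg p))⌋ (γ (sg p))
  have hPL : IsPL (dmp g h1 h2) := by
    constructor
    · refine ⟨continuous_fst.comp hcont, {⟨1, 0, 0⟩} ∪ (fun t : (ℤ × ℤ) × (L3 × L3) =>
        (((mm t.1.2).sub t.2.1 t.2.2).sub (mi t.1.1) (ni t.1.1))) '' I,
        (Set.finite_singleton _).union (hIf.image _), fun p => ?_⟩
      by_cases hp : 1 < ‖p‖
      · obtain ⟨t, ht, hv⟩ := key p hp
        exact ⟨_, Or.inr ⟨t, ht, rfl⟩, congrArg Prod.fst hv⟩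
      · refine ⟨⟨1, 0, 0⟩, Or.inl rfl, ?_⟩
        show (dmp g h1 h2 p).1 = _
        rw [hsmall p (not_lt.mp hp)]
        simp [L3.ev]
    · refine ⟨continuous_snd.comp hcont, {⟨0, 1, 0⟩} ∪ (fun t : (ℤ × ℤ) × (L3 × L3) =>
        (((nn t.1.2).sub t.2.1 t.2.2).sub (mi t.1.1) (ni t.1.1))) '' I,
        (Set.finite_singleton _).union (hIf.image _), fun p => ?_⟩
      by_cases hp : 1 < ‖p‖
      · obtain ⟨t, ht, hv⟩ := key p hp
        exact ⟨_, Or.inr ⟨t, ht, rfl⟩, congrArg Prod.snd hv⟩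
      · refine ⟨⟨0, 1, 0⟩, Or.inl rfl, ?_⟩
        show (dmp g h1 h2 p).2 = _
        rw [hsmall p (not_lt.mp hp)]
        simp [L3.ev]
  have hG : dmp g h1 h2 ∈ Gc := Gc_of _ hPL _ hhigh
  exact ⟨dmp g h1 h2, hG, hG, hsmall, h1, hdev, h2, h3⟩

end C715
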