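import Pool.Agent.Work.MP_c71557_gt.D.Defs

set_option autoImplicit false
set_option linter.unusedVariables false

/-!
# MP_c71557_gt, module D/Dev: the covering `dev` (M)

`dev (x, y)`, `y > 0`, is the point of the square `{‖p‖ = y}` with arc parameter `x / y` (one unit per side).
* `uu_succ` etc.: `uu` is 4-periodic with the four given values.
* `dev_eq`: `dev z = dv k z` for `k ≤ ps z ≤ k + 1`: if `ps z < k + 1` then `⌊ps z⌋ = k`; if
  `ps z = k + 1`, i.e. `z.1 = (k+1) z.2`, both `dv (k+1) z` and `dv k z` are `z.2 • uu (k+1)`.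
* `dev_norm`: write `z.2 = y`, `x = (k + t) y`, `0 ≤ t ≤ 1`: `dv k z = y ((1-t) uu k + t uu (k+1))`; the two
  corners agree in one coordinate (`= ±1`), the other coordinate of the combination is in `[-1, 1]`.
* `dev_cont`: finite (locally finite) closed cover by the sectors `k ≤ ps ≤ k+1`; or: near a point only two
  values of `k` matter.
* `dev_inj`: equal norms give `z.2 = w.2 = y`; the parameter `ps` modulo 4 is determined by the point of the
  square: the four open sides and the corners are disjoint (cases on `k % 4`, `k' % 4`).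
* `dev_surj`: sides.  `p ≠ 0`, `y = ‖p‖`; if `p.1 = y`: `k = 0`, `t = (p.2 / y + 1)/2`; if `p.2 = y`: `k = 1`,
  `t = (1 - p.1/y)/2`; if `p.1 = -y`: `k = 2`; if `p.2 = -y`: `k = 3`.
* `dv_inj`: the determinant of `dv k` is `±2 ≠ 0`; `dv_inv` gives the inverse by affine functions.
* `dev_open`: for an open set `W ⊆ {0 < z.2}` the image `dev '' W` is open (local inverse: near
  `dev z` a point `p` has a preimage close to `z`: use `dev_surj` and `dev_inj` and continuity of the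
  parameter on the finitely many closed sides; or: `dev` restricted to `{|ps - c| < 2}` is a homeomorphism
  onto the complement of a ray).
-/

namespace C715

private theorem uu0 {k : ℤ} (h : k % 4 = 0) : uu k = (1, -1) := by
  unfold uu
  rw [if_pos h]

private theorem uu1 {k : ℤ} (h : k % 4 = 1) : uu k = (1, 1) := by
  unfold uu
  rw [if_neg (by omega), if_pos h]

private theorem uu2 {k : ℤ} (h : k % 4 = 2) : uu k = (-1, 1) := by
  unfold uu
  rw [if_neg (by omega), if_neg (by omega), if_pos h]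

private theorem uu3 {k : ℤ} (h : k % 4 = 3) : uu k = (-1, -1) := by
  unfold uu
  rw [if_neg (by omega), if_neg (by omega), if_neg (by omega)]

private theorem dv0 {k : ℤ} (h : k % 4 = 0) (z : P2) :
    dv k z = (z.2, 2 * z.1 - (2 * k + 1) * z.2) := by
  unfold dv
  rw [uu0 h, uu1 (by omega)]
  ext
  · simp
    ring
  · simp
    ring

private theorem dv1 {k : ℤ} (h : k % 4 = 1) (z : P2) :
    dv k z = (-(2 * z.1 - (2 * k + 1) * z.2), z.2) := by
  unfold dv
  rw [uu1 h, uu2 (by omega)]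
  ext
  · simp
    ring
  · simp
    ring

private theorem dv2 {k : ℤ} (h : k % 4 = 2) (z : P2) :
    dv k z = (-z.2, -(2 * z.1 - (2 * k + 1) * z.2)) := by
  unfold dv
  rw [uu2 h, uu3 (by omega)]
  ext
  · simp
    ring
  · simp
    ring

private theorem dv3 {k : ℤ} (h : k % 4 = 3) (z : P2) :
    dv k z = (2 * z.1 - (2 * k + 1) * z.2, -z.2) := by
  unfold dv
  rw [uu3 h, uu0 (by omega)]
  ext
  · simp
    ring
  · simp
    ring

private theorem four (k : ℤ) : k % 4 = 0 ∨ k % 4 = 1 ∨ k % 4 = 2 ∨ k % 4 = 3 := by omega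

theorem ps_TT (z : P2) (hz : z.2 ≠ 0) : ps (TT z) = ps z + 4 := by
  change (z.1 + 4 * z.2) / z.2 = z.1 / z.2 + 4
  field_simp

private theorem TT_apply (z : P2) : TT z = (z.1 + 4 * z.2, z.2) := rfl

theorem TT_zpow (k : ℤ) (z : P2) : (TT ^ k) z = (z.1 + 4 * k * z.2, z.2) := by
  have h : ∀ (n : ℕ) (z : P2), (TT ^ n) z = (z.1 + 4 * n * z.2, z.2) := by
    intro n
    induction n with
    | zero =>
      intro z
      simp
    | succ n ih =>
      intro z
      rw [pow_succ, Equiv.Perm.mul_apply, ih, TT_apply]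
      ext
      · push_cast
        ring
      · rfl
  rcases Int.le_total 0 k with hk | hk
  · obtain ⟨n, rfl⟩ := Int.eq_ofNat_of_zero_le hk
    rw [zpow_natCast, h]
    simp
  · obtain ⟨n, hn⟩ := Int.eq_ofNat_of_zero_le (neg_nonneg.2 hk)
    have hk' : k = -(n : ℤ) := by omega
    subst hk'
    rw [zpow_neg, zpow_natCast, Equiv.Perm.inv_eq_iff_eq, h]
    ext
    · push_cast
      ring
    · rfl

theorem TT_St (k : ℤ) (z : P2) : (TT ^ k) z ∈ St ↔ z ∈ St := by
  rw [TT_zpow]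
  exact Iff.rfl

private theorem isPLf_aff (l : L3) : IsPLf (fun x => l.ev x) := by
  refine ⟨?_, {l}, Set.finite_singleton _, fun x => ⟨l, rfl, rfl⟩⟩
  unfold L3.ev
  fun_prop

theorem TT_PLH : TT ∈ PLH := by
  refine ⟨⟨?_, ?_⟩, ⟨?_, ?_⟩⟩
  · have h : (fun x : P2 => (TT x).1) = fun x => (⟨1, 4, 0⟩ : L3).ev x := by
      funext x
      simp [TT_apply, L3.ev]
    rw [h]
    exact isPLf_aff _
  · have h : (fun x : P2 => (TT x).2) = fun x => (⟨0, 1, 0⟩ : L3).ev x := by
      funext x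
      simp [TT_apply, L3.ev]
    rw [h]
    exact isPLf_aff _
  · have h : (fun x : P2 => (TT.symm x).1) = fun x => (⟨1, -4, 0⟩ : L3).ev x := by
      funext x
      change x.1 - 4 * x.2 = _
      simp [L3.ev]
      ring
    rw [h]
    exact isPLf_aff _
  · have h : (fun x : P2 => (TT.symm x).2) = fun x => (⟨0, 1, 0⟩ : L3).ev x := by
      funext x
      change x.2 = _
      simp [L3.ev]
    rw [h]
    exact isPLf_aff _

theorem dev_eq (k : ℤ) (z : P2) (hz : 0 < z.2) (h1 : (k : ℝ) ≤ ps z) (h2 : ps z ≤ k + 1) :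
    dev z = dv k z := by
  rcases lt_or_eq_of_le h2 with h3 | h3
  · have h4 : ⌊ps z⌋ = k := Int.floor_eq_iff.2 ⟨h1, h3⟩
    unfold dev
    rw [h4]
  · have h4 : ⌊ps z⌋ = k + 1 := by
      rw [h3]
      have : ((k : ℝ) + 1) = ((k + 1 : ℤ) : ℝ) := by push_cast; rfl
      rw [this, Int.floor_intCast]
    have h5 : z.1 = (k + 1) * z.2 := by
      unfold ps at h3
      rwa [div_eq_iff hz.ne'] at h3
    unfold dev
    rw [h4]
    unfold dv
    rw [h5]
    push_cast
    ext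
    · simp only [Prod.fst_add, Prod.smul_fst, smul_eq_mul]
      ring
    · simp only [Prod.snd_add, Prod.smul_snd, smul_eq_mul]
      ring

theorem dv_TT (k : ℤ) (z : P2) : dv (k + 4) (TT z) = dv k z := by
  have h : ∀ j : ℤ, uu (j + 4) = uu j := by
    intro j
    unfold uu
    rw [Int.add_emod_right]
  unfold dv
  rw [h, show k + 4 + 1 = (k + 1) + 4 by ring, h, TT_apply]
  push_cast
  congr 2
  · ring
  · ring

theorem dev_TT (z : P2) (hz : 0 < z.2) : dev (TT z) = dev z := by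
  unfold dev
  rw [ps_TT z hz.ne', show ps z + 4 = ps z + ((4 : ℤ) : ℝ) by norm_num, Int.floor_add_intCast,
    dv_TT]

private theorem TT_zpow_snd (k : ℤ) (z : P2) : ((TT ^ k) z).2 = z.2 := by
  rw [TT_zpow]

private theorem ps_TT_zpow (k : ℤ) (z : P2) (hz : z.2 ≠ 0) : ps ((TT ^ k) z) = ps z + 4 * k := by
  rw [TT_zpow]
  change (z.1 + 4 * k * z.2) / z.2 = z.1 / z.2 + 4 * k
  field_simp

theorem dev_TT_zpow (k : ℤ) (z : P2) (hz : 0 < z.2) : dev ((TT ^ k) z) = dev z := by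
  have h : ∀ n : ℕ, dev ((TT ^ n) z) = dev z := by
    intro n
    induction n with
    | zero => simp
    | succ n ih =>
      rw [pow_succ', Equiv.Perm.mul_apply, dev_TT _ (by
        have := TT_zpow_snd n z
        rw [zpow_natCast] at this
        rw [this]
        exact hz), ih]
  have h' : ∀ n : ℕ, ∀ z : P2, 0 < z.2 → dev ((TT ^ n) z) = dev z := by
    intro n
    induction n with
    | zero => intro z _; simp
    | succ n ih =>
      intro z hz
      rw [pow_succ, Equiv.Perm.mul_apply, ih _ (by rw [TT_apply]; exact hz), dev_TT z hz]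
  rcases Int.le_total 0 k with hk | hk
  · obtain ⟨n, rfl⟩ := Int.eq_ofNat_of_zero_le hk
    exact h n
  · obtain ⟨n, hn⟩ := Int.eq_ofNat_of_zero_le (neg_nonneg.2 hk)
    have hk' : k = -(n : ℤ) := by omega
    subst hk'
    have h1 : 0 < ((TT ^ (-(n : ℤ))) z).2 := by
      rw [TT_zpow_snd]
      exact hz
    rw [← h' n _ h1, ← zpow_natCast, ← Equiv.Perm.mul_apply, ← zpow_add]
    simp

private theorem dev_bounds (z : P2) (hz : 0 < z.2) :
    -z.2 ≤ 2 * z.1 - (2 * (⌊ps z⌋ : ℝ) + 1) * z.2 ∧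
      2 * z.1 - (2 * (⌊ps z⌋ : ℝ) + 1) * z.2 < z.2 := by
  have h1 : (⌊ps z⌋ : ℝ) ≤ ps z := Int.floor_le _
  have h2 : ps z < (⌊ps z⌋ : ℝ) + 1 := Int.lt_floor_add_one _
  set k : ℝ := (⌊ps z⌋ : ℝ) with hk
  have h3 : k * z.2 ≤ z.1 := by
    unfold ps at h1
    rwa [le_div_iff₀ hz] at h1
  have h4 : z.1 < (k + 1) * z.2 := by
    unfold ps at h2
    rwa [div_lt_iff₀ hz] at h2
  constructor
  · linarith
  · linarith

theorem dev_norm (z : P2) (hz : 0 < z.2) : ‖dev z‖ = z.2 := by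
  obtain ⟨h1, h2⟩ := dev_bounds z hz
  have habs : |2 * z.1 - (2 * (⌊ps z⌋ : ℝ) + 1) * z.2| ≤ z.2 := abs_le.2 ⟨h1, h2.le⟩
  have hy : |z.2| = z.2 := abs_of_pos hz
  unfold dev
  rcases four ⌊ps z⌋ with h | h | h | h
  · rw [dv0 h, Prod.norm_mk, Real.norm_eq_abs, Real.norm_eq_abs, hy, max_eq_left habs]
  · rw [dv1 h, Prod.norm_mk, Real.norm_eq_abs, Real.norm_eq_abs, hy, abs_neg, max_eq_right habs]
  · rw [dv2 h, Prod.norm_mk, Real.norm_eq_abs, Real.norm_eq_abs, abs_neg, abs_neg, hy,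
      max_eq_left habs]
  · rw [dv3 h, Prod.norm_mk, Real.norm_eq_abs, Real.norm_eq_abs, abs_neg, hy, max_eq_right habs]

private theorem dv_cont (k : ℤ) : Continuous (dv k) := by
  unfold dv
  fun_prop

theorem dev_cont : ContinuousOn dev {z : P2 | 0 < z.2} := by
  intro z0 hz0
  have hz0' : 0 < z0.2 := hz0
  apply ContinuousAt.continuousWithinAt
  have hpc : ContinuousAt ps z0 := by
    unfold ps
    exact continuousAt_fst.div continuousAt_snd hz0'.ne'
  have hpos : ∀ᶠ z : P2 in nhds z0, 0 < z.2 :=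
    continuousAt_snd.eventually (lt_mem_nhds hz0')
  set k := ⌊ps z0⌋ with hk
  have h1 : (k : ℝ) ≤ ps z0 := Int.floor_le _
  have h2 : ps z0 < (k : ℝ) + 1 := Int.lt_floor_add_one _
  have e2 : ∀ᶠ z in nhds z0, ps z < (k : ℝ) + 1 := hpc.eventually (gt_mem_nhds h2)
  have hdz : dev z0 = dv k z0 := rfl
  rcases eq_or_lt_of_le h1 with h3 | h3
  · have e1 : ∀ᶠ z in nhds z0, (k : ℝ) - 1 < ps z :=
      hpc.eventually (lt_mem_nhds (by linarith))
    have h4 : dv (k - 1) z0 = dv k z0 := by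
      rw [← dev_eq (k - 1) z0 hz0' (by push_cast; linarith) (by push_cast; linarith), hdz]
    intro V hV
    rw [hdz] at hV
    have f1 := (dv_cont k).continuousAt.eventually hV
    have f2 : ∀ᶠ z in nhds z0, dv (k - 1) z ∈ V := by
      have := (dv_cont (k - 1)).continuousAt (x := z0)
      apply this.eventually
      rw [h4]
      exact hV
    rw [Filter.mem_map]
    filter_upwards [f1, f2, e1, e2, hpos] with z g1 g2 g3 g4 g5
    change dev z ∈ V
    rcases le_total (k : ℝ) (ps z) with h5 | h5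
    · rw [dev_eq k z g5 h5 g4.le]
      exact g1
    · rw [dev_eq (k - 1) z g5 (by push_cast; linarith) (by push_cast; linarith)]
      exact g2
  · have e1 : ∀ᶠ z in nhds z0, (k : ℝ) < ps z := hpc.eventually (lt_mem_nhds h3)
    have e3 : dv k =ᶠ[nhds z0] dev := by
      filter_upwards [e1, e2, hpos] with z g1 g2 g3
      exact (dev_eq k z g3 g1.le g2.le).symm
    exact (dv_cont k).continuousAt.congr e3

private theorem inj_aux {k l : ℤ} {z w : P2} (hy : z.2 = w.2) (h : k % 4 = l % 4)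
    (h1 : 2 * z.1 - (2 * (k : ℝ) + 1) * z.2 = 2 * w.1 - (2 * (l : ℝ) + 1) * w.2) :
    ∃ k : ℤ, w = (TT ^ k) z := by
  refine ⟨(l - k) / 4, ?_⟩
  rw [TT_zpow]
  have h2 : (4 : ℤ) * ((l - k) / 4) = l - k := Int.mul_ediv_cancel' (by omega)
  have h3 : (4 : ℝ) * (((l - k) / 4 : ℤ) : ℝ) = (l : ℝ) - k := by exact_mod_cast h2
  rw [← hy] at h1
  ext
  · change w.1 = z.1 + 4 * (((l - k) / 4 : ℤ) : ℝ) * z.2
    rw [h3]
    linarith
  · exact hy.symm

theorem dev_inj (z w : P2) (hz : 0 < z.2) (hw : 0 < w.2) (h : dev z = dev w) :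
    ∃ k : ℤ, w = (TT ^ k) z := by
  have hy : z.2 = w.2 := by rw [← dev_norm z hz, ← dev_norm w hw, h]
  obtain ⟨a1, a2⟩ := dev_bounds z hz
  obtain ⟨b1, b2⟩ := dev_bounds w hw
  unfold dev at h
  set k := ⌊ps z⌋ with hk
  set l := ⌊ps w⌋ with hl
  rcases four k with hk4 | hk4 | hk4 | hk4 <;> rcases four l with hl4 | hl4 | hl4 | hl4
  · rw [dv0 hk4, dv0 hl4, Prod.mk_inj] at h
    exact inj_aux (k := k) (l := l) hy (by omega) h.2
  · rw [dv0 hk4, dv1 hl4, Prod.mk_inj] at h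
    linarith [h.1, h.2]
  · rw [dv0 hk4, dv2 hl4, Prod.mk_inj] at h
    linarith [h.1, h.2]
  · rw [dv0 hk4, dv3 hl4, Prod.mk_inj] at h
    linarith [h.1, h.2]
  · rw [dv1 hk4, dv0 hl4, Prod.mk_inj] at h
    linarith [h.1, h.2]
  · rw [dv1 hk4, dv1 hl4, Prod.mk_inj] at h
    exact inj_aux (k := k) (l := l) hy (by omega) (by linarith [h.1])
  · rw [dv1 hk4, dv2 hl4, Prod.mk_inj] at h
    linarith [h.1, h.2]
  · rw [dv1 hk4, dv3 hl4, Prod.mk_inj] at h
    linarith [h.1, h.2]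
  · rw [dv2 hk4, dv0 hl4, Prod.mk_inj] at h
    linarith [h.1, h.2]
  · rw [dv2 hk4, dv1 hl4, Prod.mk_inj] at h
    linarith [h.1, h.2]
  · rw [dv2 hk4, dv2 hl4, Prod.mk_inj] at h
    exact inj_aux (k := k) (l := l) hy (by omega) (by linarith [h.2])
  · rw [dv2 hk4, dv3 hl4, Prod.mk_inj] at h
    linarith [h.1, h.2]
  · rw [dv3 hk4, dv0 hl4, Prod.mk_inj] at h
    linarith [h.1, h.2]
  · rw [dv3 hk4, dv1 hl4, Prod.mk_inj] at h
    linarith [h.1, h.2]
  · rw [dv3 hk4, dv2 hl4, Prod.mk_inj] at h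
    linarith [h.1, h.2]
  · rw [dv3 hk4, dv3 hl4, Prod.mk_inj] at h
    exact inj_aux (k := k) (l := l) hy (by omega) (by linarith [h.1])

private theorem surj_aux (k : ℤ) (hk0 : 0 ≤ k) (hk3 : k ≤ 3) (y a : ℝ) (hy : 0 < y) (h1 : -y ≤ a)
    (h2 : a < y) (p : P2) (hp : dv k ((a + (2 * k + 1) * y) / 2, y) = p) :
    ∃ z : P2, 0 < z.2 ∧ 0 ≤ ps z ∧ ps z < 4 ∧ dev z = p := by
  have hps : ps ((a + (2 * (k : ℝ) + 1) * y) / 2, y) = k + (a + y) / (2 * y) := by
    change ((a + (2 * (k : ℝ) + 1) * y) / 2) / y = _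
    field_simp
    ring
  have h3 : 0 ≤ (a + y) / (2 * y) := div_nonneg (by linarith) (by linarith)
  have h4 : (a + y) / (2 * y) < 1 := by
    rw [div_lt_one (by linarith)]
    linarith
  have hk0' : (0 : ℝ) ≤ k := by exact_mod_cast hk0
  have hk3' : (k : ℝ) ≤ 3 := by exact_mod_cast hk3
  refine ⟨((a + (2 * (k : ℝ) + 1) * y) / 2, y), hy, by rw [hps]; linarith, by rw [hps]; linarith, ?_⟩
  rw [dev_eq k _ hy (by rw [hps]; linarith) (by rw [hps]; linarith), hp]

theorem dev_surj (p : P2) (hp : p ≠ 0) :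
    ∃ z : P2, 0 < z.2 ∧ 0 ≤ ps z ∧ ps z < 4 ∧ dev z = p := by
  have hy : 0 < ‖p‖ := norm_pos_iff.2 hp
  set y := ‖p‖ with hydef
  have h1 : |p.1| ≤ y := norm_fst_le p
  have h2 : |p.2| ≤ y := norm_snd_le p
  rw [abs_le] at h1 h2
  have h3 : |p.1| = y ∨ |p.2| = y := by
    have : y = max |p.1| |p.2| := rfl
    rcases max_choice |p.1| |p.2| with h | h
    · left; rw [this, h]
    · right; rw [this, h]
  by_cases c0 : p.1 = y ∧ p.2 < y
  · refine surj_aux 0 le_rfl (by norm_num) y p.2 hy h2.1 c0.2 p ?_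
    rw [dv0 (by norm_num)]
    ext
    · exact c0.1.symm
    · push_cast
      ring
  by_cases c1 : p.2 = y ∧ -y < p.1
  · refine surj_aux 1 (by norm_num) (by norm_num) y (-p.1) hy (by linarith [h1.2])
      (by linarith [c1.2]) p ?_
    rw [dv1 (by norm_num)]
    ext
    · push_cast
      ring
    · exact c1.1.symm
  by_cases c2 : p.1 = -y ∧ -y < p.2
  · refine surj_aux 2 (by norm_num) (by norm_num) y (-p.2) hy (by linarith [h2.2])
      (by linarith [c2.2]) p ?_
    rw [dv2 (by norm_num)]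
    ext
    · exact c2.1.symm
    · push_cast
      ring
  have c3 : p.2 = -y ∧ p.1 < y := by
    rcases h3 with h | h
    · rcases (abs_eq hy.le).1 h with h' | h'
      · exfalso
        have h4 : ¬ p.2 < y := fun h5 => c0 ⟨h', h5⟩
        have h5 : p.2 = y := le_antisymm h2.2 (not_lt.1 h4)
        exact c1 ⟨h5, by rw [h']; linarith⟩
      · have h4 : ¬ -y < p.2 := fun h5 => c2 ⟨h', h5⟩
        exact ⟨le_antisymm (not_lt.1 h4) h2.1, by rw [h']; linarith⟩
    · rcases (abs_eq hy.le).1 h with h' | h'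
      · exfalso
        have h4 : ¬ -y < p.1 := fun h5 => c1 ⟨h', h5⟩
        have h5 : p.1 = -y := le_antisymm (not_lt.1 h4) h1.1
        exact c2 ⟨h5, by rw [h']; linarith⟩
      · refine ⟨h', ?_⟩
        by_contra h4
        have h5 : p.1 = y := le_antisymm h1.2 (not_lt.1 h4)
        exact c0 ⟨h5, by rw [h']; linarith⟩
  refine surj_aux 3 (by norm_num) (by norm_num) y p.1 hy h1.1 c3.2 p ?_
  rw [dv3 (by norm_num)]
  ext
  · push_cast
    ring
  · exact c3.1.symm

/-- the inverse of `dv k` is given by linear functions -/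
theorem dv_inv (k : ℤ) : ∃ m n : L3, ∀ z, z = (m.ev (dv k z), n.ev (dv k z)) := by
  rcases four k with h | h | h | h
  · refine ⟨⟨(2 * k + 1) / 2, 1 / 2, 0⟩, ⟨1, 0, 0⟩, fun z => ?_⟩
    rw [dv0 h]
    unfold L3.ev
    ext
    · dsimp only
      ring
    · dsimp only
      ring
  · refine ⟨⟨-1 / 2, (2 * k + 1) / 2, 0⟩, ⟨0, 1, 0⟩, fun z => ?_⟩
    rw [dv1 h]
    unfold L3.ev
    ext
    · dsimp only
      ring
    · dsimp only
      ring
  · refine ⟨⟨-(2 * k + 1) / 2, -1 / 2, 0⟩, ⟨-1, 0, 0⟩, fun z => ?_⟩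
    rw [dv2 h]
    unfold L3.ev
    ext
    · dsimp only
      ring
    · dsimp only
      ring
  · refine ⟨⟨1 / 2, -(2 * k + 1) / 2, 0⟩, ⟨0, -1, 0⟩, fun z => ?_⟩
    rw [dv3 h]
    unfold L3.ev
    ext
    · dsimp only
      ring
    · dsimp only
      ring

/-- `dv k` is given by linear functions -/
theorem dv_lin (k : ℤ) : ∃ m n : L3, ∀ z, dv k z = (m.ev z, n.ev z) := by
  rcases four k with h | h | h | h
  · refine ⟨⟨0, 1, 0⟩, ⟨2, -(2 * k + 1), 0⟩, fun z => ?_⟩
    rw [dv0 h]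
    unfold L3.ev
    ext
    · dsimp only
      ring
    · dsimp only
      ring
  · refine ⟨⟨-2, 2 * k + 1, 0⟩, ⟨0, 1, 0⟩, fun z => ?_⟩
    rw [dv1 h]
    unfold L3.ev
    ext
    · dsimp only
      ring
    · dsimp only
      ring
  · refine ⟨⟨0, -1, 0⟩, ⟨-2, 2 * k + 1, 0⟩, fun z => ?_⟩
    rw [dv2 h]
    unfold L3.ev
    ext
    · dsimp only
      ring
    · dsimp only
      ring
  · refine ⟨⟨2, -(2 * k + 1), 0⟩, ⟨0, -1, 0⟩, fun z => ?_⟩
    rw [dv3 h]
    unfold L3.ev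
    ext
    · dsimp only
      ring
    · dsimp only
      ring

theorem dev_open (W : Set P2) (hW : IsOpen W) (h : W ⊆ {z : P2 | 0 < z.2}) :
    IsOpen (dev '' W) := by
  rw [isOpen_iff_mem_nhds]
  rintro _ ⟨z0, hz0, rfl⟩
  have hy0 : 0 < z0.2 := h hz0
  set c := ps z0 with hc
  set y0 := z0.2 with hy0def
  let q : P2 → P2 := fun t => (t.1 * t.2, t.2)
  have hq : Continuous q := by fun_prop
  let K : Set P2 := q '' (Set.Icc (c - 2) (c + 2) ×ˢ Set.Icc (y0 / 2) (2 * y0))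
  have hK : IsCompact K := (isCompact_Icc.prod isCompact_Icc).image hq
  have hKpos : K ⊆ {z : P2 | 0 < z.2} := by
    rintro _ ⟨t, ⟨-, ht⟩, rfl⟩
    exact lt_of_lt_of_le (by linarith) ht.1
  have hKW : IsCompact (K \ W) := hK.diff hW
  have hcl : IsClosed (dev '' (K \ W)) :=
    (hKW.image_of_continuousOn (dev_cont.mono (Set.sdiff_subset.trans hKpos))).isClosed
  have hnot : dev z0 ∉ dev '' (K \ W) := by
    rintro ⟨z, ⟨hzK, hzW⟩, hz⟩
    have hzp : 0 < z.2 := hKpos hzK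
    obtain ⟨m, hm⟩ := dev_inj z0 z hy0 hzp hz.symm
    have h1 : ps z = c + 4 * m := by rw [hm, ps_TT_zpow m z0 hy0.ne']
    have h2 : c - 2 ≤ ps z ∧ ps z ≤ c + 2 := by
      obtain ⟨t, ⟨ht1, ht2⟩, rfl⟩ := hzK
      have h3 : t.2 ≠ 0 := hzp.ne'
      have h4 : ps (q t) = t.1 := by
        change t.1 * t.2 / t.2 = t.1
        field_simp
      rw [h4]
      exact ht1
    rw [h1] at h2
    have h5 : (m : ℝ) < 1 := by linarith [h2.2]
    have h6 : (-1 : ℝ) < m := by linarith [h2.1]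
    have h7 : m < 1 := by exact_mod_cast h5
    have h8 : -1 < m := by exact_mod_cast h6
    have h9 : m = 0 := by omega
    rw [h9, zpow_zero] at hm
    apply hzW
    rw [hm]
    exact hz0
  have e1 : ∀ᶠ p : P2 in nhds (dev z0), p ∉ dev '' (K \ W) :=
    hcl.isOpen_compl.mem_nhds hnot
  have hn0 : ‖dev z0‖ = y0 := dev_norm z0 hy0
  have e2 : ∀ᶠ p : P2 in nhds (dev z0), y0 / 2 < ‖p‖ :=
    continuous_norm.continuousAt.eventually (lt_mem_nhds (by
      change y0 / 2 < ‖dev z0‖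
      rw [hn0]
      linarith))
  have e3 : ∀ᶠ p : P2 in nhds (dev z0), ‖p‖ < 2 * y0 :=
    continuous_norm.continuousAt.eventually (gt_mem_nhds (by
      change ‖dev z0‖ < 2 * y0
      rw [hn0]
      linarith))
  filter_upwards [e1, e2, e3] with p g1 g2 g3
  have hp0 : p ≠ 0 := by
    rintro rfl
    rw [norm_zero] at g2
    linarith
  obtain ⟨z, hz1, -, -, hz4⟩ := dev_surj p hp0
  obtain ⟨m, hm, -⟩ := existsUnique_add_zsmul_mem_Ico (show (0 : ℝ) < 4 by norm_num) (ps z) (c - 2)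
  have hm' : c - 2 ≤ ps z + 4 * m ∧ ps z + 4 * m < c - 2 + 4 := by
    have h1 : ps z + m • (4 : ℝ) = ps z + 4 * m := by
      rw [zsmul_eq_mul]
      ring
    rw [h1] at hm
    exact hm
  have hw2 : ((TT ^ m) z).2 = z.2 := TT_zpow_snd m z
  have hwp : 0 < ((TT ^ m) z).2 := by rw [hw2]; exact hz1
  have hwps : ps ((TT ^ m) z) = ps z + 4 * m := ps_TT_zpow m z hz1.ne'
  have hwd : dev ((TT ^ m) z) = p := by rw [dev_TT_zpow m z hz1, hz4]
  set w := (TT ^ m) z with hwdef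
  have hwn : w.2 = ‖p‖ := by rw [← hwd, dev_norm w hwp]
  have hwK : w ∈ K := by
    refine ⟨(ps w, w.2), ⟨⟨by rw [hwps]; exact hm'.1, by rw [hwps]; linarith [hm'.2]⟩,
      ⟨by rw [hwn]; exact g2.le, by rw [hwn]; exact g3.le⟩⟩, ?_⟩
    change (w.1 / w.2 * w.2, w.2) = w
    rw [div_mul_cancel₀ _ hwp.ne']
  by_contra hcon
  have hwW : w ∉ W := fun hw => hcon ⟨w, hw, hwd⟩
  exact g1 ⟨w, ⟨hwK, hwW⟩, hwd⟩

/-- on the sector `0 ≤ ps ≤ 1`, `dev = dd0` -/
theorem dev_dd0 (z : P2) (hz : 0 < z.2) (h1 : 0 ≤ ps z) (h2 : ps z ≤ 1) : dev z = dd0 z := by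
  rw [dev_eq 0 z hz (by push_cast; exact h1) (by push_cast; linarith), dv0 (by norm_num)]
  change _ = (z.2, 2 * z.1 - z.2)
  ext
  · rfl
  · push_cast
    ring

end C715
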