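import Pool.Agent.Work.MP_c71557_gt.D.Dev

set_option autoImplicit false
set_option linter.unusedVariables false

/-!
# MP_c71557_gt, module D/LftInj: uniqueness of lifts (S-M)

`(1, g) ∈ Lft` implies `g = 1`.  PROOF.  For `z ∈ St`, `dev (g z) = dev z` and `g z ∈ St`, so
`g z = (TT ^ k z) z` (`dev_inj`), `k z = (ps (g z) - ps z) / 4` an integer.  `g` is continuous on `St` (near each
point it agrees with an element of `GU St`), so `z ↦ (ps (g z) - ps z)/4` is continuous on the convex, hence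
preconnected, set `St` with integer values, so constant.  It is zero at a point `z` with `|ps z| ≤ 1`, `z.2`
close to `1`, where `g z = γ z = z` (`γ ∈ GU St`: its compact support lies in `{z.2 ≥ 1 + ε}`).
`Lft_fst_inj`: apply this to `p * q⁻¹`.
-/

namespace C715

private theorem St_open : IsOpen St := isOpen_lt continuous_const continuous_snd

private theorem St_convex : Convex ℝ St := by
  have h : St = (LinearMap.snd ℝ ℝ ℝ) ⁻¹' (Set.Ioi 1) := rfl
  rw [h]
  exact (convex_Ioi 1).linear_preimage _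

private theorem ps_contAt {z : P2} (hz : z ∈ St) : ContinuousAt ps z := by
  unfold ps
  exact continuousAt_fst.div continuousAt_snd (lt_trans one_pos hz).ne'

private theorem ps_zpow (k : ℤ) (z : P2) (hz : z.2 ≠ 0) : ps ((TT ^ k) z) = ps z + 4 * k := by
  rw [TT_zpow]
  change (z.1 + 4 * k * z.2) / z.2 = z.1 / z.2 + 4 * k
  field_simp

theorem lft_one (g : Equiv.Perm P2) (h : ((1 : Equiv.Perm P2), g) ∈ Lft) : g = 1 := by
  obtain ⟨-, -, h1, h2, -, C, hC⟩ := h
  dsimp only at h1 h2 hC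
  have hpos : ∀ z ∈ St, 0 < z.2 := fun z hz => lt_trans one_pos hz
  have hgS : ∀ z ∈ St, g z ∈ St := fun z hz => off_mem h1 hz
  have hk : ∀ z ∈ St, ∃ k : ℤ, g z = (TT ^ k) z := by
    intro z hz
    refine dev_inj z (g z) (hpos z hz) (hpos _ (hgS z hz)) ?_
    have := h2 z hz
    rw [this]
    rfl
  let f : P2 → ℝ := fun z => (ps (g z) - ps z) / 4
  have hfk : ∀ z ∈ St, ∀ k : ℤ, g z = (TT ^ k) z → f z = k := by
    intro z hz k hgk
    change (ps (g z) - ps z) / 4 = k
    rw [hgk, ps_zpow k z (hpos z hz).ne']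
    ring
  have hfc : ContinuousOn f St := by
    intro z0 hz0
    apply ContinuousAt.continuousWithinAt
    obtain ⟨γ, hγ, e1, -⟩ := hC (|ps z0| + 1)
    have hγS : γ z0 ∈ St := off_mem (fun w => GU_off hγ) hz0
    have hev : f =ᶠ[nhds z0] fun z => (ps (γ z) - ps z) / 4 := by
      have f1 : ∀ᶠ z in nhds z0, z ∈ St := St_open.mem_nhds hz0
      have f2 : ∀ᶠ z in nhds z0, |ps z| < |ps z0| + 1 :=
        (ps_contAt hz0).abs.eventually (gt_mem_nhds (by linarith))
      filter_upwards [f1, f2] with z g1 g2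
      change (ps (g z) - ps z) / 4 = _
      rw [e1 z g1 g2.le]
    rw [continuousAt_congr hev]
    have hγc : ContinuousAt γ z0 := (Gc_cont hγ.1).continuousAt
    exact (((ps_contAt hγS).comp hγc).sub (ps_contAt hz0)).div_const _
  -- a point where `g` is the identity
  obtain ⟨z1, hz1, hfz1⟩ : ∃ z1 ∈ St, f z1 = 0 := by
    obtain ⟨γ, ⟨hγ, K, hKS, hK, hγK⟩, e1, -⟩ := hC 1
    have hnK : ((0, 1) : P2) ∈ Kᶜ := by
      intro hk
      have : (1 : ℝ) < 1 := hKS hk
      exact lt_irrefl _ this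
    obtain ⟨ε, hε, hball⟩ := Metric.mem_nhds_iff.1 (hK.isClosed.isOpen_compl.mem_nhds hnK)
    have hz1S : ((0, 1 + ε / 2) : P2) ∈ St := by
      change (1 : ℝ) < 1 + ε / 2
      linarith
    refine ⟨(0, 1 + ε / 2), hz1S, ?_⟩
    have hps : ps ((0, 1 + ε / 2) : P2) = 0 := by
      change (0 : ℝ) / (1 + ε / 2) = 0
      rw [zero_div]
    have hin : ((0, 1 + ε / 2) : P2) ∈ Metric.ball ((0, 1) : P2) ε := by
      rw [Metric.mem_ball, Prod.dist_eq]
      simp only [dist_self]
      rw [Real.dist_eq, show 1 + ε / 2 - 1 = ε / 2 by ring, abs_of_pos (by linarith)]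
      exact max_lt hε (by linarith)
    have hg : g (0, 1 + ε / 2) = (0, 1 + ε / 2) := by
      rw [e1 _ hz1S (by rw [hps, abs_zero]; exact zero_le_one), hγK _ (hball hin)]
    change (ps (g (0, 1 + ε / 2)) - ps (0, 1 + ε / 2)) / 4 = 0
    rw [hg, sub_self, zero_div]
  have hpre : IsPreconnected (f '' St) := (St_convex.isPreconnected).image f hfc
  have hint : ∀ t ∈ f '' St, ∃ k : ℤ, t = k := by
    rintro _ ⟨z, hz, rfl⟩
    obtain ⟨k, hgk⟩ := hk z hz
    exact ⟨k, hfk z hz k hgk⟩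
  have h0 : (0 : ℝ) ∈ f '' St := ⟨z1, hz1, hfz1⟩
  have hzero : ∀ z ∈ St, g z = z := by
    intro z hz
    obtain ⟨k, hgk⟩ := hk z hz
    have hfz := hfk z hz k hgk
    have hk0 : k = 0 := by
      by_contra hne
      rcases lt_or_gt_of_ne hne with hlt | hgt
      · have h3 : (k : ℝ) ≤ -1 := by exact_mod_cast (by omega : k ≤ -1)
        have h4 : (-1 / 2 : ℝ) ∈ f '' St := by
          apply hpre.Icc_subset (show (k : ℝ) ∈ f '' St from ⟨z, hz, hfz⟩) h0
          constructor <;> linarith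
        obtain ⟨m, hm⟩ := hint _ h4
        have h5 : (2 : ℝ) * m = -1 := by rw [← hm]; norm_num
        have h6 : (2 : ℤ) * m = -1 := by exact_mod_cast h5
        omega
      · have h3 : (1 : ℝ) ≤ k := by exact_mod_cast (by omega : (1 : ℤ) ≤ k)
        have h4 : (1 / 2 : ℝ) ∈ f '' St := by
          apply hpre.Icc_subset h0 (show (k : ℝ) ∈ f '' St from ⟨z, hz, hfz⟩)
          constructor <;> linarith
        obtain ⟨m, hm⟩ := hint _ h4
        have h5 : (2 : ℝ) * m = 1 := by rw [← hm]; norm_num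
        have h6 : (2 : ℤ) * m = 1 := by exact_mod_cast h5
        omega
    rw [hgk, hk0, zpow_zero]
    rfl
  ext1 z
  change g z = z
  by_cases hz : z ∈ St
  · exact hzero z hz
  · exact h1 z hz

theorem lft_fst_inj (p q : Equiv.Perm P2 × Equiv.Perm P2) (hp : p ∈ Lft) (hq : q ∈ Lft)
    (h : p.1 = q.1) : p = q := by
  have h1 : p * q⁻¹ ∈ Lft := Lft.mul_mem hp (Lft.inv_mem hq)
  have h2 : p * q⁻¹ = ((1 : Equiv.Perm P2), p.2 * q.2⁻¹) := by
    refine Prod.ext ?_ rfl
    change p.1 * q.1⁻¹ = 1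
    rw [h, mul_inv_cancel]
  rw [h2] at h1
  have h3 := lft_one _ h1
  exact Prod.ext h (mul_inv_eq_one.1 h3)

end C715
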