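import Pool.Agent.Work.MP_c71557_gt.D.Dev

/-!
# MP_c71557_gt, module D/Lift: lifting maps from convex open sets through `dev` (M-L)

`U` convex open, `φ : U → P2 \ {0}` continuous: there is `s` continuous on `U` with `0 < (s x).2` and
`dev (s x) = φ x`.

PROOF.  Let `c : ℝ → P2`, `c t = dev (t, 1)`: continuous, 4-periodic, with values in the unit sphere
`S = {‖p‖ = 1}` (sup norm), surjective onto `S`, `c t = c t'` iff `t' - t ∈ 4 ℤ` (`dev_inj`, `dev_surj`).
It induces a continuous bijection `AddCircle (4 : ℝ) → S` from a compact space to a Hausdorff space: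
a homeomorphism; let `a : S → AddCircle 4` be its inverse, continuous.  If `U = ∅` take any `s`.
Otherwise the space `U` is contractible (convex), hence simply connected, and locally path
connected (open in a normed space); `AddCircle.isCoveringMap_coe` and
`IsCoveringMap.existsUnique_continuousMap_lifts` (Mathlib.Topology.Homotopy.Lifting) lift
`x ↦ a (φ x / ‖φ x‖)` to a continuous `θ : U → ℝ`.  Put `s x = (θ x * ‖φ x‖, ‖φ x‖)`:
`dev (t y, y) = y • dev (t, 1)` for `y > 0` (`dv k` is linear, `ps` is homogeneous), so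
`dev (s x) = ‖φ x‖ • c (θ x) = φ x`.
-/

set_option autoImplicit false
set_option linter.unusedVariables false

namespace C715

private theorem lift_ps (t y : ℝ) (hy : 0 < y) : ps (t * y, y) = t := by
  unfold ps
  simp only
  rw [mul_div_assoc, div_self hy.ne', mul_one]

private theorem dev_smul (t y : ℝ) (hy : 0 < y) : dev (t * y, y) = y • dev (t, 1) := by
  have h1 := lift_ps t y hy
  have h2 : ps (t, 1) = t := by
    have := lift_ps t 1 one_pos
    rwa [mul_one] at this
  unfold dev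
  rw [h1, h2]
  unfold dv
  simp only
  rw [smul_add, smul_smul, smul_smul]
  congr 2 <;> ring

private noncomputable def cS (t : ℝ) : Metric.sphere (0 : P2) 1 :=
  ⟨dev (t, 1), by
    rw [mem_sphere_zero_iff_norm]
    exact dev_norm (t, 1) one_pos⟩

private theorem cS_cont : Continuous cS := by
  refine Continuous.subtype_mk ?_ _
  have h1 : Continuous (fun t : ℝ => ((t, 1) : P2)) := by fun_prop
  exact dev_cont.comp_continuous h1 (fun t => (one_pos : (0:ℝ) < 1))

private theorem cS_per : Function.Periodic cS 4 := by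
  intro t
  apply Subtype.ext
  show dev (t + 4, 1) = dev (t, 1)
  have h1 := dev_TT (t, 1) one_pos
  have h2 : TT ((t, 1) : P2) = (t + 4, 1) := by
    show (t + 4 * 1, (1 : ℝ)) = (t + 4, 1)
    rw [mul_one]
  rw [h2] at h1
  exact h1

private theorem cS_bij : Function.Bijective (cS_per.lift) := by
  constructor
  · intro x y hxy
    obtain ⟨t, rfl⟩ := QuotientAddGroup.mk_surjective x
    obtain ⟨t', rfl⟩ := QuotientAddGroup.mk_surjective y
    have h1 : cS t = cS t' := hxy
    have h2 : dev (t, 1) = dev (t', 1) := congrArg Subtype.val h1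
    obtain ⟨k, hk⟩ := dev_inj (t, 1) (t', 1) one_pos one_pos h2
    rw [TT_zpow] at hk
    have h3 := congrArg Prod.fst hk
    simp only [mul_one] at h3
    rw [QuotientAddGroup.eq, AddSubgroup.mem_zmultiples_iff]
    refine ⟨k, ?_⟩
    rw [h3, zsmul_eq_mul]
    ring
  · intro p
    have hp0 : (p : P2) ≠ 0 := by
      intro h
      have h1 := mem_sphere_zero_iff_norm.mp p.2
      rw [h, norm_zero] at h1
      exact zero_ne_one h1
    obtain ⟨z, hz, _, _, hzp⟩ := dev_surj p hp0
    have h1 := dev_norm z hz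
    rw [hzp, mem_sphere_zero_iff_norm.mp p.2] at h1
    refine ⟨(z.1 : AddCircle (4:ℝ)), ?_⟩
    apply Subtype.ext
    have h3 : ((z.1, 1) : P2) = z := Prod.ext rfl h1
    show dev (z.1, 1) = p
    rw [h3]
    exact hzp

theorem dev_lift (U : Set P2) (hU : IsOpen U) (hc : Convex ℝ U) (φ : P2 → P2)
    (hφ : ContinuousOn φ U) (h0 : ∀ x ∈ U, φ x ≠ 0) :
    ∃ s : P2 → P2, ContinuousOn s U ∧ ∀ x ∈ U, 0 < (s x).2 ∧ dev (s x) = φ x := by
  classical
  rcases U.eq_empty_or_nonempty with rfl | hne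
  · exact ⟨fun _ => 0, continuousOn_empty _, fun x hx => absurd hx (Set.notMem_empty x)⟩
  have : Fact ((0:ℝ) < 4) := ⟨by norm_num⟩
  have hlc : Continuous (cS_per.lift : AddCircle (4:ℝ) → Metric.sphere (0 : P2) 1) := by
    have hq : Topology.IsQuotientMap (QuotientAddGroup.mk : ℝ → AddCircle (4:ℝ)) :=
      QuotientAddGroup.isQuotientMap_mk _
    rw [hq.continuous_iff]
    exact cS_cont
  let e : AddCircle (4:ℝ) ≃ Metric.sphere (0 : P2) 1 := Equiv.ofBijective _ cS_bij
  have hec : Continuous e := hlc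
  let a : AddCircle (4:ℝ) ≃ₜ Metric.sphere (0 : P2) 1 := hec.homeoOfEquivCompactToT2
  have hφr : Continuous (fun x : U => φ x) := continuousOn_iff_continuous_domRestrict.mp hφ
  have hn : ∀ x : U, ‖φ x‖ ≠ 0 := fun x => norm_ne_zero_iff.mpr (h0 x x.2)
  let ψ0 : U → Metric.sphere (0 : P2) 1 := fun x => ⟨‖φ x‖⁻¹ • φ x, by
    rw [mem_sphere_zero_iff_norm, norm_smul, norm_inv, norm_norm, inv_mul_cancel₀ (hn x)]⟩
  have hψ0 : Continuous ψ0 := by
    refine Continuous.subtype_mk ?_ _
    exact (hφr.norm.inv₀ hn).smul hφr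
  let ψ : C(U, AddCircle (4:ℝ)) := ⟨fun x => a.symm (ψ0 x), a.symm.continuous.comp hψ0⟩
  have : ContractibleSpace U := hc.contractibleSpace hne
  have : LocallyPathConnectedSpace U := hU.locallyPathConnectedSpace
  obtain ⟨x0, hx0⟩ := hne
  obtain ⟨t0, ht0⟩ := QuotientAddGroup.mk_surjective (ψ ⟨x0, hx0⟩)
  obtain ⟨θ, ⟨_, hθ⟩, _⟩ := (AddCircle.isCoveringMap_coe (4:ℝ)).existsUnique_continuousMap_lifts ψ
    ⟨x0, hx0⟩ t0 ht0
  have hθv : ∀ x : U, dev (θ x, 1) = ‖φ x‖⁻¹ • φ x := by
    intro x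
    have h1 : ((θ x : ℝ) : AddCircle (4:ℝ)) = a.symm (ψ0 x) := congrFun hθ x
    have h2 : a ((θ x : ℝ) : AddCircle (4:ℝ)) = ψ0 x := by
      rw [h1, Homeomorph.apply_symm_apply]
    exact congrArg Subtype.val h2
  refine ⟨fun x => if h : x ∈ U then (θ ⟨x, h⟩ * ‖φ x‖, ‖φ x‖) else 0, ?_, ?_⟩
  · rw [continuousOn_iff_continuous_domRestrict]
    have h3 : U.domRestrict (fun x => if h : x ∈ U then ((θ ⟨x, h⟩ * ‖φ x‖, ‖φ x‖) : P2) else 0) =
        fun x : U => (θ x * ‖φ x‖, ‖φ x‖) := by
      funext x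
      rw [Set.domRestrict_apply, dif_pos x.2]
    rw [h3]
    exact (θ.continuous.mul hφr.norm).prodMk hφr.norm
  · intro x hx
    have hpos : 0 < ‖φ x‖ := norm_pos_iff.mpr (h0 x hx)
    simp only [dif_pos hx]
    refine ⟨hpos, ?_⟩
    rw [dev_smul _ _ hpos, hθv ⟨x, hx⟩, smul_smul, mul_inv_cancel₀ hpos.ne', one_smul]

end C715
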