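import Pool.Agent.Work.MP_c71557_gt.D.LiftSec
import Pool.Agent.Work.MP_c71557_gt.D.Lift
import Pool.Agent.Work.MP_c71557_gt.D.LftInj
import Pool.Agent.Work.MP_c71557_gt.H.ConjIncl

set_option autoImplicit false
set_option linter.unusedVariables false

/-!
# MP_c71557_gt, module D/FragLft: elements of `E Q0` lift (S-M)

`lft_ex`: closure induction (`Lft` is a group).  A fragment `f` off `Q0.set = closedBall 0 1`, with `h`,
`U`, `K`: for `x ∈ U`, `‖h x‖ > 1`; `dev_lift` for `φ = h` gives `s'`; apply `lift_sec` to `f`, the open set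
`h '' U`, the compact `h '' K` and the section `s = s' ∘ h⁻¹`.
`fst_hiso`: `sgMap_hiso` for `MonoidHom.fst`, injectivity by `lft_one`/`lft_fst_inj`.
-/

namespace C715

open CategoryTheory ActCat

private theorem norm_of_disj {A : Set P2} (h : Disjoint A Q0.set) {p : P2} (hp : p ∈ A) :
    1 < ‖p‖ := by
  have h1 : p ∉ Q0.set := Set.disjoint_left.1 h hp
  have h2 : p ∉ Metric.closedBall (0 : P2) 1 := h1
  rw [Metric.mem_closedBall, dist_zero_right, not_le] at h2
  exact h2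

private theorem frag_ex (f : Equiv.Perm P2) (hf : Frag Q0.set f) :
    ∃ g : Equiv.Perm P2, (f, g) ∈ Lft := by
  obtain ⟨hfG, h, hh, U, K, hU, hUc, hK, hKU, hfK, hdis⟩ := hf
  have hc : Continuous h := Gc_cont hh
  have hc' : Continuous h.symm := Gc_cont_symm hh
  have hn : ∀ p ∈ h '' U, 1 < ‖p‖ := fun p hp => norm_of_disj hdis hp
  obtain ⟨s', hs', hs2⟩ := dev_lift U hU hUc h hc.continuousOn (fun x hx h0 => by
    have h1 := hn (h x) ⟨x, hx, rfl⟩
    rw [h0, norm_zero] at h1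
    linarith)
  have hopen : IsOpen (h '' U) := by
    rw [Equiv.image_eq_preimage_symm]
    exact hU.preimage hc'
  obtain ⟨g, hg, -, -⟩ := lift_sec f hfG (h '' U) (h '' K) hopen (hK.image hc)
    (Set.image_mono hKU) hn hfK (fun p => s' (h.symm p)) (by
      refine hs'.comp hc'.continuousOn ?_
      rintro _ ⟨x, hx, rfl⟩
      rw [Equiv.symm_apply_apply]
      exact hx) (by
      rintro _ ⟨x, hx, rfl⟩
      rw [Equiv.symm_apply_apply]
      exact hs2 x hx)
  exact ⟨g, hg⟩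

theorem lft_ex (e : Equiv.Perm P2) (he : e ∈ E Q0.set) :
    ∃ g : Equiv.Perm P2, (e, g) ∈ Lft := by
  have hle : E Q0.set ≤ Lft.map (MonoidHom.fst (Equiv.Perm P2) (Equiv.Perm P2)) := by
    refine (Subgroup.closure_le _).2 ?_
    intro f hf
    obtain ⟨g, hg⟩ := frag_ex f hf
    exact ⟨(f, g), hg, rfl⟩
  obtain ⟨⟨e', g⟩, hp, rfl⟩ := hle he
  exact ⟨g, hp⟩

theorem fst_hiso : HIso (sgMap (MonoidHom.fst (Equiv.Perm P2) (Equiv.Perm P2)) EE (E Q0.set)
    (fun p hp => hp.2)) := by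
  refine sgMap_hiso _ _ _ _ (fun k hk h1 => ?_) (fun l hl => ?_)
  · exact lft_fst_inj k 1 hk.1 Lft.one_mem h1
  · obtain ⟨g, hg⟩ := lft_ex l hl
    exact ⟨(l, g), ⟨hg, hl⟩, rfl⟩

end C715
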