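import Pool.Agent.Work.MP_c71557_gt.D.LiftSec
import Pool.Agent.Work.MP_c71557_gt.D.LftInj
import Pool.Agent.Work.MP_c71557_gt.P.Incl
import Pool.Agent.Work.MP_c71557_gt.P.Frg

/-!
# MP_c71557_gt, module D/Hh: the group `HH` of periodic lifts of elements supported in the disc `Dd` (M)

`Db = ball (5/4, 5/2) (1/8)` (sup norm): for `z ∈ Db`, `9/8 < z.1 < 11/8`, `19/8 < z.2 < 21/8`, hence
`2/5 < ps z < 3/5`.  `dd0 z = (z.2, 2 z.1 - z.2)` is linear, `Dd = dd0 '' Db` is convex open,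
`dev z = dd0 z` on `Db` (`dev_dd0`), `‖p‖ > 1` on `Dd`, and `Dd ⊆ {p | 1 < p.1}`.
* `hh_ex`: `lift_sec` with `U = Dd`, `s = dd0⁻¹`.  The lift `g` is the identity off the translates
  `(TT^k) '' Db` and `g z = dd0⁻¹ (f (dd0 z))` for `z ∈ Db`.
* `hh_loc`: `p ∈ HH`; by uniqueness (`lft_fst_inj`) `p.2` is the lift of `hh_ex`.  For `z ∈ St` with
  `-3 ≤ ps z ≤ 35/8`: `z` is not in `(TT^k) '' Db` for `k ≠ 0` (there `4 k + 2/5 < ps < 4 k + 3/5`), so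
  `p.2 z = (dd0⁻¹ p.1 dd0) z` (both are `z` if `z ∉ Db`).
* `hh_id`: `p.2 z = z` unless `z ∈ (TT^k) '' Db` for some `k`.
* `ph0`: `p ↦ dd0⁻¹ p.1 dd0` is an isomorphism `HH → GU Db` (`PLH` contains `dd0`, conjugation maps
  `GU Dd` onto `GU Db`).
* `hh_fst_hiso`, `hh_ph0_hiso`: `sgMap_hiso`.
* `hh_le`: `GU Dd ≤ E Q0.set` (`GU_le_E` with `U = Dd`).
-/

set_option autoImplicit false
set_option linter.unusedVariables false

namespace C715

open CategoryTheory ActCat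

private theorem Db_iff (z : P2) (hz : z ∈ Db) :
    9 / 8 < z.1 ∧ z.1 < 11 / 8 ∧ 19 / 8 < z.2 ∧ z.2 < 21 / 8 := by
  have h1 : dist z ((5 / 4, 5 / 2) : P2) < 1 / 8 := hz
  rw [Prod.dist_eq, max_lt_iff, Real.dist_eq, Real.dist_eq, abs_lt, abs_lt] at h1
  obtain ⟨⟨a1, a2⟩, b1, b2⟩ := h1
  simp only at a1 a2 b1 b2
  refine ⟨by linarith, by linarith, by linarith, by linarith⟩

theorem Db_bd (z : P2) (hz : z ∈ Db) : 2 / 5 < ps z ∧ ps z < 3 / 5 ∧ 19 / 8 < z.2 ∧ z.2 < 21 / 8 := by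
  obtain ⟨a1, a2, b1, b2⟩ := Db_iff z hz
  have hpos : 0 < z.2 := by linarith
  refine ⟨?_, ?_, b1, b2⟩
  · unfold ps
    rw [lt_div_iff₀ hpos]
    linarith
  · unfold ps
    rw [div_lt_iff₀ hpos]
    linarith

private theorem dd0_symm_apply (p : P2) : dd0.symm p = ((p.1 + p.2) / 2, p.1) := rfl

private theorem dd0_apply (p : P2) : dd0 p = (p.2, 2 * p.1 - p.2) := rfl

private theorem Dd_eq : Dd = dd0.symm ⁻¹' Db := Equiv.image_eq_preimage_symm dd0 Db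

private theorem mem_Dd (p : P2) : p ∈ Dd ↔ dd0.symm p ∈ Db := by
  rw [Dd_eq]
  rfl

theorem Dd_open : IsOpen Dd := by
  rw [Dd_eq]
  apply Metric.isOpen_ball.preimage
  have : Continuous (fun p : P2 => (((p.1 + p.2) / 2, p.1) : P2)) := by fun_prop
  exact this

theorem Dd_convex : Convex ℝ Dd := by
  intro p hp q hq a b ha hb hab
  rw [mem_Dd] at hp hq ⊢
  have h1 : dd0.symm (a • p + b • q) = a • dd0.symm p + b • dd0.symm q := by
    rw [dd0_symm_apply, dd0_symm_apply, dd0_symm_apply]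
    ext
    · simp only [Prod.fst_add, Prod.snd_add, Prod.smul_fst, Prod.smul_snd, smul_eq_mul]
      ring
    · simp only [Prod.fst_add, Prod.snd_add, Prod.smul_fst, Prod.smul_snd, smul_eq_mul]
  rw [h1]
  exact convex_ball _ _ hp hq ha hb hab

private theorem Dd_fst (p : P2) (hp : p ∈ Dd) : 19 / 8 < p.1 := by
  obtain ⟨z, hz, rfl⟩ := hp
  rw [dd0_apply]
  exact (Db_bd z hz).2.2.1

private theorem Dd_norm (p : P2) (hp : p ∈ Dd) : 1 < ‖p‖ := by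
  have h1 := Dd_fst p hp
  have h2 : |p.1| ≤ ‖p‖ := norm_fst_le p
  have h3 := le_abs_self p.1
  linarith

theorem Dd_disj : Disjoint Dd Q0.set := by
  rw [Set.disjoint_left]
  intro p hp hq
  have h1 := Dd_norm p hp
  have h2 : p ∈ Metric.closedBall (0 : P2) 1 := hq
  rw [mem_closedBall_zero_iff] at h2
  linarith

theorem HH_le : HH ≤ EE := fun _ hp => ⟨hp.1, GU_le_E Dd Q0.set Dd_open Dd_convex Dd_disj hp.2⟩

private theorem hh_ex (f : Equiv.Perm P2) (hf : f ∈ GU Dd) :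
    ∃ g : Equiv.Perm P2, (f, g) ∈ HH ∧ (∀ z, (∀ k : ℤ, z ∉ (TT ^ k) '' Db) → g z = z) ∧
      ∀ z ∈ Db, g z = dd0.symm (f (dd0 z)) := by
  obtain ⟨hG, K, hKU, hK, hoff⟩ := id hf
  have hs : ContinuousOn dd0.symm Dd := by
    have : Continuous (fun p : P2 => (((p.1 + p.2) / 2, p.1) : P2)) := by fun_prop
    exact Continuous.continuousOn this
  obtain ⟨g, hg, h1, h2⟩ := lift_sec f hG Dd K Dd_open hK hKU Dd_norm hoff dd0.symm hs (by
    intro p hp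
    rw [mem_Dd] at hp
    obtain ⟨a1, a2, a3, a4⟩ := Db_bd _ hp
    refine ⟨by linarith, ?_⟩
    rw [dev_dd0 _ (by linarith) (by linarith) (by linarith)]
    exact dd0.apply_symm_apply p)
  refine ⟨g, ⟨hg, hf⟩, ?_, ?_⟩
  · intro z hz
    apply h1
    intro k p hp heq
    exact hz k ⟨dd0.symm p, (mem_Dd p).mp (hKU hp), heq.symm⟩
  · intro z hz
    have h3 := h2 (dd0 z) ⟨z, hz, rfl⟩
    rwa [dd0.symm_apply_apply] at h3

theorem hh_id (p : Equiv.Perm P2 × Equiv.Perm P2) (hp : p ∈ HH) (z : P2)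
    (hz : ∀ k : ℤ, z ∉ (TT ^ k) '' Db) : p.2 z = z := by
  obtain ⟨g, hg, h1, _⟩ := hh_ex p.1 hp.2
  have h2 : p = (p.1, g) := lft_fst_inj _ _ hp.1 hg.1 rfl
  have h3 : p.2 = g := congrArg Prod.snd h2
  rw [h3]
  exact h1 z hz

private theorem ps_TT_zpow (k : ℤ) (w : P2) (hw : w.2 ≠ 0) : ps ((TT ^ k) w) = ps w + 4 * k := by
  rw [TT_zpow]
  unfold ps
  simp only
  field_simp

theorem hh_loc (p : Equiv.Perm P2 × Equiv.Perm P2) (hp : p ∈ HH) (z : P2) (hz : z ∈ St)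
    (h1 : -3 ≤ ps z) (h2 : ps z ≤ 35 / 8) : p.2 z = (ph0 p) z := by
  have hph : (ph0 p) z = dd0.symm (p.1 (dd0 z)) := by
    rw [ph0_apply]
    rfl
  rw [hph]
  by_cases hzD : z ∈ Db
  · obtain ⟨g, hg, _, h3⟩ := hh_ex p.1 hp.2
    have h4 : p = (p.1, g) := lft_fst_inj _ _ hp.1 hg.1 rfl
    have h5 : p.2 = g := congrArg Prod.snd h4
    rw [h5]
    exact h3 z hzD
  · have h3 : dd0 z ∉ Dd := by
      rw [mem_Dd, dd0.symm_apply_apply]
      exact hzD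
    rw [GU_off hp.2 h3, dd0.symm_apply_apply]
    apply hh_id p hp
    rintro k ⟨w, hw, rfl⟩
    obtain ⟨a1, a2, a3, a4⟩ := Db_bd w hw
    rw [ps_TT_zpow k w (by linarith)] at h1 h2
    rcases lt_trichotomy k 0 with hk | hk | hk
    · have h6 : (k : ℝ) ≤ -1 := by exact_mod_cast (by omega : k ≤ -1)
      linarith
    · subst hk
      apply hzD
      rw [zpow_zero]
      exact hw
    · have h6 : (1 : ℝ) ≤ k := by exact_mod_cast (by omega : 1 ≤ k)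
      linarith

private theorem dd0_PLH : dd0 ∈ PLH := by
  refine ⟨⟨⟨?_, {⟨0, 1, 0⟩}, Set.finite_singleton _, fun x => ⟨_, rfl, ?_⟩⟩,
    ⟨?_, {⟨2, -1, 0⟩}, Set.finite_singleton _, fun x => ⟨_, rfl, ?_⟩⟩⟩,
    ⟨⟨?_, {⟨1 / 2, 1 / 2, 0⟩}, Set.finite_singleton _, fun x => ⟨_, rfl, ?_⟩⟩,
    ⟨?_, {⟨1, 0, 0⟩}, Set.finite_singleton _, fun x => ⟨_, rfl, ?_⟩⟩⟩⟩
  · show Continuous (fun x : P2 => x.2)
    fun_prop
  · show x.2 = _
    simp only [L3.ev]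
    ring
  · show Continuous (fun x : P2 => 2 * x.1 - x.2)
    fun_prop
  · show 2 * x.1 - x.2 = _
    simp only [L3.ev]
    ring
  · show Continuous (fun x : P2 => (x.1 + x.2) / 2)
    fun_prop
  · show (x.1 + x.2) / 2 = _
    simp only [L3.ev]
    ring
  · show Continuous (fun x : P2 => x.1)
    fun_prop
  · show x.1 = _
    simp only [L3.ev]
    ring

private theorem conj_GU {U : Set P2} {f h : Equiv.Perm P2} (hh : h ∈ PLH) (hf : f ∈ GU U) :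
    h * f * h⁻¹ ∈ GU (h '' U) := by
  obtain ⟨hG, K, hKU, hK, hoff⟩ := hf
  refine GU_of _ ?_ (h '' U) (h '' K) (Set.image_mono hKU) (hK.image hh.1.cont) ?_
  · exact (PLH.mul_mem (PLH.mul_mem hh hG.1) (PLH.inv_mem hh)).1
  · intro x hx
    have h1 : h⁻¹ x ∉ K := fun h2 => hx ⟨h⁻¹ x, h2, h.apply_symm_apply x⟩
    rw [Equiv.Perm.mul_apply, Equiv.Perm.mul_apply, hoff _ h1]
    exact h.apply_symm_apply x

theorem ph0_mem (p : Equiv.Perm P2 × Equiv.Perm P2) (hp : p ∈ HH) : ph0 p ∈ GU Db := by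
  have h1 := conj_GU (PLH.inv_mem dd0_PLH) hp.2
  rw [inv_inv] at h1
  rw [ph0_apply]
  have h2 : (dd0⁻¹ : Equiv.Perm P2) '' Dd = Db := by
    unfold Dd
    rw [← Set.image_comp]
    have h3 : (⇑(dd0⁻¹ : Equiv.Perm P2) ∘ ⇑dd0) = id := by
      funext x
      exact dd0.symm_apply_apply x
    rw [h3, Set.image_id]
  rwa [h2] at h1

theorem ph0_inj (p : Equiv.Perm P2 × Equiv.Perm P2) (hp : p ∈ HH) (h : ph0 p = 1) : p = 1 := by
  rw [ph0_apply] at h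
  have h1 : p.1 = 1 := by
    have h2 : p.1 = dd0 * (dd0⁻¹ * p.1 * dd0) * dd0⁻¹ := by group
    rw [h2, h]
    group
  have h3 : ((1 : Equiv.Perm P2), p.2) ∈ Lft := by
    rw [← h1]
    exact hp.1
  exact Prod.ext h1 (lft_one _ h3)

theorem ph0_surj (f : Equiv.Perm P2) (hf : f ∈ GU Db) : ∃ p ∈ HH, ph0 p = f := by
  have h1 := conj_GU dd0_PLH hf
  obtain ⟨g, hg, _, _⟩ := hh_ex _ h1
  refine ⟨_, hg, ?_⟩
  rw [ph0_apply]
  simp only
  group

theorem hh_fst_hiso : HIso (sgMap (MonoidHom.fst (Equiv.Perm P2) (Equiv.Perm P2)) HH (GU Dd)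
    (fun p hp => hp.2)) := by
  apply sgMap_hiso
  · intro p hp h1
    have h2 : p.1 = 1 := h1
    have h3 : ((1 : Equiv.Perm P2), p.2) ∈ Lft := by
      rw [← h2]
      exact hp.1
    exact Prod.ext h2 (lft_one _ h3)
  · intro f hf
    obtain ⟨g, hg, _, _⟩ := hh_ex f hf
    exact ⟨_, hg, rfl⟩

end C715
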