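import Pool.Agent.Work.MP_c71557_gt.D.Dev
import Pool.Agent.Work.MP_c71557_gt.P.Inv

set_option autoImplicit false
set_option linter.unusedVariables false

/-!
# MP_c71557_gt, module D/LiftSec: lifting an element supported in a set with a section (M-L)

`f ∈ Gc` is the identity off `K`, `K` compact in the open `U ⊆ {‖p‖ > 1}`, `s : U → P2` a continuous
section of `dev` with `0 < (s p).2` (then `(s p).2 = ‖p‖ > 1`, so `s p ∈ St`).  Then `f` lifts.

PROOF.  For `z` with `0 < z.2` and `dev z ∈ U` let `kk z` be the integer with `z = (TT ^ kk z) (s (dev z))`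
(`dev_inj`); `4 * kk z = ps z - ps (s (dev z))`, so `kk` is locally constant.  For a set `A` of integers put
`FF f A z = (TT ^ kk z) (s (f (dev z)))` if `0 < z.2`, `dev z ∈ U`, `kk z ∈ A` and `FF f A z = z` otherwise.
The inverse of `FF f A` is `FF f.symm A`.  `g = FF f univ`, and for `M` the element
`γ = FF f {k | |k| ≤ n}`, `n` large, is in `GU St` (`GU_of`).
-/

namespace C715

section

variable (U : Set P2) (s : P2 → P2)

open Classical in
private noncomputable def kk (z : P2) : ℤ :=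
  if h : ∃ k : ℤ, z = (TT ^ k) (s (dev z)) then h.choose else 0

open Classical in
private noncomputable def FF (f : P2 → P2) (A : Set ℤ) (z : P2) : P2 :=
  if 0 < z.2 ∧ dev z ∈ U ∧ kk s z ∈ A then (TT ^ (kk s z)) (s (f (dev z))) else z

variable {U s}

private theorem kk_spec (hs2 : ∀ p ∈ U, 0 < (s p).2 ∧ dev (s p) = p) (z : P2) (hz : 0 < z.2)
    (hz' : dev z ∈ U) : z = (TT ^ (kk s z)) (s (dev z)) := by
  have h : ∃ k : ℤ, z = (TT ^ k) (s (dev z)) :=
    dev_inj (s (dev z)) z (hs2 _ hz').1 hz (hs2 _ hz').2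
  unfold kk
  rw [dif_pos h]
  exact h.choose_spec

private theorem dev_k (hs2 : ∀ p ∈ U, 0 < (s p).2 ∧ dev (s p) = p) (k : ℤ) (p : P2) (hp : p ∈ U) :
    dev ((TT ^ k) (s p)) = p := by
  rw [dev_TT_zpow k _ (hs2 p hp).1, (hs2 p hp).2]

private theorem snd_k (k : ℤ) (z : P2) : ((TT ^ k) z).2 = z.2 := by
  rw [TT_zpow]

private theorem ps_k (k : ℤ) (z : P2) (hz : 0 < z.2) : ps ((TT ^ k) z) = ps z + 4 * k := by
  rw [TT_zpow]
  unfold ps
  simp only
  rw [add_div, mul_div_assoc, div_self hz.ne', mul_one]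

private theorem kk_eq (hs2 : ∀ p ∈ U, 0 < (s p).2 ∧ dev (s p) = p) (k : ℤ) (p : P2) (hp : p ∈ U) :
    kk s ((TT ^ k) (s p)) = k := by
  have h1 := kk_spec hs2 ((TT ^ k) (s p)) (by rw [snd_k]; exact (hs2 p hp).1)
    (by rw [dev_k hs2 k p hp]; exact hp)
  rw [dev_k hs2 k p hp] at h1
  generalize kk s ((TT ^ k) (s p)) = j at h1
  rw [TT_zpow, TT_zpow] at h1
  have h2 := congrArg Prod.fst h1
  simp only at h2
  have h3 : (4 * (s p).2) * ((k : ℝ) - j) = 0 := by linear_combination h2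
  have h4 : (4 * (s p).2) ≠ 0 := by
    have := (hs2 p hp).1
    positivity
  have h5 : ((k : ℝ) - j) = 0 := by
    rcases mul_eq_zero.1 h3 with h | h
    · exact absurd h h4
    · exact h
  have h6 : (k : ℝ) = j := by linarith
  exact_mod_cast h6.symm

private theorem FF_in (hs2 : ∀ p ∈ U, 0 < (s p).2 ∧ dev (s p) = p) (f : P2 → P2) (A : Set ℤ)
    (k : ℤ) (p : P2) (hp : p ∈ U) (hk : k ∈ A) :
    FF U s f A ((TT ^ k) (s p)) = (TT ^ k) (s (f p)) := by
  unfold FF
  rw [if_pos, kk_eq hs2 k p hp, dev_k hs2 k p hp]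
  rw [kk_eq hs2 k p hp, dev_k hs2 k p hp, snd_k]
  exact ⟨(hs2 p hp).1, hp, hk⟩

private theorem FF_out (hs2 : ∀ p ∈ U, 0 < (s p).2 ∧ dev (s p) = p) (f : P2 → P2) (A : Set ℤ)
    (k : ℤ) (p : P2) (hp : p ∈ U) (hk : k ∉ A) :
    FF U s f A ((TT ^ k) (s p)) = (TT ^ k) (s p) := by
  unfold FF
  rw [if_neg]
  rw [kk_eq hs2 k p hp]
  exact fun h => hk h.2.2

private theorem FF_off (f : P2 → P2) (A : Set ℤ) (z : P2) (hz : ¬ (0 < z.2 ∧ dev z ∈ U)) :
    FF U s f A z = z := by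
  unfold FF
  rw [if_neg]
  exact fun h => hz ⟨h.1, h.2.1⟩

private theorem FF_K (hs2 : ∀ p ∈ U, 0 < (s p).2 ∧ dev (s p) = p) (f : P2 → P2) (A : Set ℤ)
    (z : P2) (hz : 0 < z.2 → f (dev z) = dev z) : FF U s f A z = z := by
  unfold FF
  split_ifs with h
  · rw [hz h.1]
    exact (kk_spec hs2 z h.1 h.2.1).symm
  · rfl

private theorem cases_z (hs2 : ∀ p ∈ U, 0 < (s p).2 ∧ dev (s p) = p) (z : P2) :
    (∃ k : ℤ, ∃ p ∈ U, z = (TT ^ k) (s p)) ∨ ¬ (0 < z.2 ∧ dev z ∈ U) := by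
  by_cases h : 0 < z.2 ∧ dev z ∈ U
  · exact Or.inl ⟨_, _, h.2, kk_spec hs2 z h.1 h.2⟩
  · exact Or.inr h

private theorem FF_inv (hs2 : ∀ p ∈ U, 0 < (s p).2 ∧ dev (s p) = p) (f f' : P2 → P2) (A : Set ℤ)
    (hf : ∀ p ∈ U, f p ∈ U) (hff : ∀ p, f' (f p) = p) (z : P2) :
    FF U s f' A (FF U s f A z) = z := by
  rcases cases_z hs2 z with ⟨k, p, hp, rfl⟩ | hz
  · by_cases hk : k ∈ A
    · rw [FF_in hs2 f A k p hp hk, FF_in hs2 f' A k _ (hf p hp) hk, hff]
    · rw [FF_out hs2 f A k p hp hk, FF_out hs2 f' A k _ hp hk]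
  · rw [FF_off f A z hz, FF_off f' A z hz]

private theorem O_open (hU : IsOpen U) : IsOpen {z : P2 | 0 < z.2 ∧ dev z ∈ U} := by
  have h1 : IsOpen {z : P2 | 0 < z.2} := isOpen_lt continuous_const continuous_snd
  have h2 := dev_cont.isOpen_inter_preimage h1 hU
  exact h2

private theorem TT_cont (k : ℤ) : Continuous (fun z : P2 => (TT ^ k) z) := by
  have h : (fun z : P2 => (TT ^ k) z) = fun z : P2 => ((z.1 + 4 * k * z.2, z.2) : P2) := by
    funext z
    exact TT_zpow k z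
  rw [h]
  fun_prop

private theorem ps_contAt (z : P2) (hz : 0 < z.2) : ContinuousAt ps z := by
  unfold ps
  exact ContinuousAt.div continuousAt_fst continuousAt_snd hz.ne'

private theorem dev_contAt (z : P2) (hz : 0 < z.2) : ContinuousAt dev z :=
  dev_cont.continuousAt ((isOpen_lt continuous_const continuous_snd).mem_nhds hz)

private theorem kk_ps (hs2 : ∀ p ∈ U, 0 < (s p).2 ∧ dev (s p) = p) (z : P2) (hz : 0 < z.2)
    (hz' : dev z ∈ U) : (4 : ℝ) * kk s z = ps z - ps (s (dev z)) := by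
  have h1 := kk_spec hs2 z hz hz'
  have h2 : ps z = ps (s (dev z)) + 4 * kk s z := by
    conv_lhs => rw [h1]
    exact ps_k _ _ (hs2 _ hz').1
  linarith

private theorem kk_loc (hU : IsOpen U) (hs : ContinuousOn s U)
    (hs2 : ∀ p ∈ U, 0 < (s p).2 ∧ dev (s p) = p) (z0 : P2) (hz : 0 < z0.2) (hz' : dev z0 ∈ U) :
    ∀ᶠ z in nhds z0, (0 < z.2 ∧ dev z ∈ U) ∧ kk s z = kk s z0 := by
  have h1 : ContinuousAt (fun z => ps z - ps (s (dev z))) z0 := by
    refine (ps_contAt z0 hz).sub ?_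
    have h2 : ContinuousAt s (dev z0) := hs.continuousAt (hU.mem_nhds hz')
    have h3 : ContinuousAt (fun z => s (dev z)) z0 := h2.comp (dev_contAt z0 hz)
    exact ContinuousAt.comp (g := ps) (f := fun z => s (dev z)) (ps_contAt _ (hs2 _ hz').1) h3
  have h4 := Metric.continuousAt_iff'.1 h1 4 (by norm_num)
  have h5 : ∀ᶠ z in nhds z0, 0 < z.2 ∧ dev z ∈ U := (O_open hU).mem_nhds ⟨hz, hz'⟩
  filter_upwards [h4, h5] with z e1 e2
  refine ⟨e2, ?_⟩
  rw [Real.dist_eq, ← kk_ps hs2 z e2.1 e2.2, ← kk_ps hs2 z0 hz hz'] at e1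
  have e3 : |((kk s z - kk s z0 : ℤ) : ℝ)| < 1 := by
    have : (4 : ℝ) * kk s z - 4 * kk s z0 = 4 * ((kk s z - kk s z0 : ℤ) : ℝ) := by
      push_cast
      ring
    rw [this, abs_mul, abs_of_pos (by norm_num : (0 : ℝ) < 4)] at e1
    linarith
  have e4 : |kk s z - kk s z0| < 1 := by exact_mod_cast e3
  have e5 := Int.abs_lt_one_iff.1 e4
  omega

private theorem C_closed {K : Set P2} (hK : IsCompact K) (h1 : ∀ p ∈ K, 1 < ‖p‖) :
    IsClosed {z : P2 | 0 < z.2 ∧ dev z ∈ K} := by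
  have e : {z : P2 | 0 < z.2 ∧ dev z ∈ K} = {z : P2 | 1 ≤ z.2} ∩ dev ⁻¹' K := by
    ext z
    constructor
    · rintro ⟨h2, h3⟩
      refine ⟨?_, h3⟩
      have h4 := h1 _ h3
      rw [dev_norm z h2] at h4
      exact h4.le
    · rintro ⟨h2, h3⟩
      exact ⟨lt_of_lt_of_le one_pos h2, h3⟩
  rw [e]
  refine ContinuousOn.preimage_isClosed_of_isClosed ?_ ?_ hK.isClosed
  · refine dev_cont.mono fun z hz => ?_
    have h2 : (1 : ℝ) ≤ z.2 := hz
    exact lt_of_lt_of_le (zero_lt_one' ℝ) h2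
  · exact isClosed_le continuous_const continuous_snd

private theorem FF_cont (hU : IsOpen U) (hs : ContinuousOn s U)
    (hs2 : ∀ p ∈ U, 0 < (s p).2 ∧ dev (s p) = p) (h0 : ∀ p ∈ U, 1 < ‖p‖) {K : Set P2}
    (hK : IsCompact K) (hKU : K ⊆ U) (f : P2 → P2) (hf : Continuous f) (hfU : ∀ p ∈ U, f p ∈ U)
    (hfK : ∀ p, p ∉ K → f p = p) (A : Set ℤ) : Continuous (FF U s f A) := by
  rw [continuous_iff_continuousAt]
  intro z0
  by_cases hz : 0 < z0.2 ∧ dev z0 ∈ U
  · have h1 := kk_loc hU hs hs2 z0 hz.1 hz.2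
    by_cases hk : kk s z0 ∈ A
    · have h2 : FF U s f A =ᶠ[nhds z0] fun z => (TT ^ (kk s z0)) (s (f (dev z))) := by
        filter_upwards [h1] with z hz1
        unfold FF
        rw [hz1.2, if_pos ⟨hz1.1.1, hz1.1.2, hk⟩]
      refine ContinuousAt.congr ?_ h2.symm
      have h3 : ContinuousAt s (f (dev z0)) := hs.continuousAt (hU.mem_nhds (hfU _ hz.2))
      have h4 : ContinuousAt (fun z => f (dev z)) z0 :=
        (hf.continuousAt).comp (dev_contAt z0 hz.1)
      have h5 : ContinuousAt (fun z => s (f (dev z))) z0 :=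
        ContinuousAt.comp (g := s) (f := fun z => f (dev z)) h3 h4
      exact ContinuousAt.comp (g := fun z : P2 => (TT ^ (kk s z0)) z)
        (f := fun z => s (f (dev z))) (TT_cont _).continuousAt h5
    · have h2 : FF U s f A =ᶠ[nhds z0] fun z => z := by
        filter_upwards [h1] with z hz1
        unfold FF
        rw [if_neg]
        rw [hz1.2]
        exact fun h => hk h.2.2
      exact continuousAt_id.congr h2.symm
  · have h1 : IsOpen {z : P2 | 0 < z.2 ∧ dev z ∈ K}ᶜ :=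
      (C_closed hK fun p hp => h0 p (hKU hp)).isOpen_compl
    have h2 : z0 ∈ {z : P2 | 0 < z.2 ∧ dev z ∈ K}ᶜ := fun h => hz ⟨h.1, hKU h.2⟩
    have h3 : FF U s f A =ᶠ[nhds z0] fun z => z := by
      filter_upwards [h1.mem_nhds h2] with z hz1
      refine FF_K hs2 f A z fun h4 => hfK _ fun h5 => hz1 ⟨h4, h5⟩
    exact continuousAt_id.congr h3.symm

private theorem dv_PL (i : ℤ) : IsPL (dv i) := by
  obtain ⟨m, n, h⟩ := dv_lin i
  constructor
  · have : (fun x => (dv i x).1) = m.ev := by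
      funext x
      rw [h]
    rw [this]
    exact IsPLf.ev m
  · have : (fun x => (dv i x).2) = n.ev := by
      funext x
      rw [h]
    rw [this]
    exact IsPLf.ev n

private theorem FF_PL (hU : IsOpen U) (hs : ContinuousOn s U)
    (hs2 : ∀ p ∈ U, 0 < (s p).2 ∧ dev (s p) = p) (h0 : ∀ p ∈ U, 1 < ‖p‖) {K : Set P2}
    (hK : IsCompact K) (hKU : K ⊆ U) (f : P2 → P2) (hf : IsPL f) (hfU : ∀ p ∈ U, f p ∈ U)
    (hfk : ∀ p ∈ K, f p ∈ K)
    (hfK : ∀ p, p ∉ K → f p = p) (N : ℝ) (hN : ∀ p ∈ K, |ps (s p)| ≤ N) (n : ℕ) :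
    IsPL (FF U s f {k : ℤ | |k| ≤ n}) := by
  have hc := FF_cont hU hs hs2 h0 hK hKU f hf.cont hfU hfK {k : ℤ | |k| ≤ n}
  obtain ⟨B, hB⟩ : ∃ B : ℕ, N + 4 * n + 1 ≤ B := exists_nat_ge _
  choose m' n' hmn using dv_inv
  -- key selection
  have key : ∀ z : P2, FF U s f {k : ℤ | |k| ≤ n} z = z ∨
      ∃ i ∈ Finset.Icc (-(B : ℤ)) B, ∃ j ∈ Finset.Icc (-(B : ℤ)) B,
        FF U s f {k : ℤ | |k| ≤ n} z = ((m' j).ev (f (dv i z)), (n' j).ev (f (dv i z))) := by
    intro z
    rcases cases_z hs2 z with ⟨k, p, hp, rfl⟩ | hz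
    · by_cases hk : |k| ≤ (n : ℤ)
      · by_cases hpK : p ∈ K
        · right
          have hk' : |(k : ℝ)| ≤ n := by exact_mod_cast hk
          have b1 : ∀ q ∈ K, ⌊ps ((TT ^ k) (s q))⌋ ∈ Finset.Icc (-(B : ℤ)) B := by
            intro q hq
            rw [ps_k k (s q) (hs2 q (hKU hq)).1, Finset.mem_Icc]
            have h1 := abs_le.1 (hN q hq)
            have h2 := abs_le.1 hk'
            constructor
            · rw [Int.le_floor]
              push_cast
              linarith [h1.1, h2.1]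
            · have h3 : ps (s q) + 4 * k < (B : ℤ) + 1 := by
                push_cast
                linarith [h1.2, h2.2]
              have h4 := Int.floor_lt.2 (by exact_mod_cast h3 : ps (s q) + 4 * k < ((B + 1 : ℤ) : ℝ))
              omega
          refine ⟨_, b1 p hpK, _, b1 (f p) (hfk p hpK), ?_⟩
          rw [FF_in hs2 f _ k p hp hk]
          have e1 : dv ⌊ps ((TT ^ k) (s p))⌋ ((TT ^ k) (s p)) = p := dev_k hs2 k p hp
          have e2 : dv ⌊ps ((TT ^ k) (s (f p)))⌋ ((TT ^ k) (s (f p))) = f p :=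
            dev_k hs2 k (f p) (hfU p hp)
          rw [e1]
          have e3 := hmn ⌊ps ((TT ^ k) (s (f p)))⌋ ((TT ^ k) (s (f p)))
          rw [e2] at e3
          exact e3
        · left
          refine FF_K hs2 f _ _ fun _ => ?_
          rw [dev_k hs2 k p hp]
          exact hfK p hpK
      · left
        exact FF_out hs2 f _ k p hp hk
    · left
      exact FF_off f _ z hz
  have hfin : ((Finset.Icc (-(B : ℤ)) B ×ˢ Finset.Icc (-(B : ℤ)) B : Finset (ℤ × ℤ)) :
      Set (ℤ × ℤ)).Finite := Finset.finite_toSet _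
  constructor
  · refine IsPLf.glue (continuous_fst.comp hc)
      (insert (fun z : P2 => z.1) ((fun t : ℤ × ℤ => fun z => (m' t.2).ev (f (dv t.1 z))) ''
        ((Finset.Icc (-(B : ℤ)) B ×ˢ Finset.Icc (-(B : ℤ)) B : Finset (ℤ × ℤ)) : Set (ℤ × ℤ))))
      ((hfin.image _).insert _) ?_ fun z => ?_
    · rintro ψ (rfl | ⟨t, _, rfl⟩)
      · exact IsPLf.fst
      · exact (IsPLf.ev (m' t.2)).comp (hf.comp (dv_PL t.1))
    · rcases key z with h | ⟨i, hi, j, hj, h⟩
      · exact ⟨_, Set.mem_insert _ _, by simp only [h]⟩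
      · exact ⟨_, Set.mem_insert_of_mem _ ⟨(i, j), Finset.mem_coe.2 (Finset.mem_product.2 ⟨hi, hj⟩), rfl⟩,
          by simp only [h]⟩
  · refine IsPLf.glue (continuous_snd.comp hc)
      (insert (fun z : P2 => z.2) ((fun t : ℤ × ℤ => fun z => (n' t.2).ev (f (dv t.1 z))) ''
        ((Finset.Icc (-(B : ℤ)) B ×ˢ Finset.Icc (-(B : ℤ)) B : Finset (ℤ × ℤ)) : Set (ℤ × ℤ))))
      ((hfin.image _).insert _) ?_ fun z => ?_
    · rintro ψ (rfl | ⟨t, _, rfl⟩)
      · exact IsPLf.snd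
      · exact (IsPLf.ev (n' t.2)).comp (hf.comp (dv_PL t.1))
    · rcases key z with h | ⟨i, hi, j, hj, h⟩
      · exact ⟨_, Set.mem_insert _ _, by simp only [h]⟩
      · exact ⟨_, Set.mem_insert_of_mem _ ⟨(i, j), Finset.mem_coe.2 (Finset.mem_product.2 ⟨hi, hj⟩), rfl⟩,
          by simp only [h]⟩

end

theorem lift_sec (f : Equiv.Perm P2) (hf : f ∈ Gc) (U K : Set P2) (hU : IsOpen U)
    (hK : IsCompact K) (hKU : K ⊆ U) (h0 : ∀ p ∈ U, 1 < ‖p‖) (hfK : ∀ p, p ∉ K → f p = p)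
    (s : P2 → P2) (hs : ContinuousOn s U) (hs2 : ∀ p ∈ U, 0 < (s p).2 ∧ dev (s p) = p) :
    ∃ g : Equiv.Perm P2, (f, g) ∈ Lft ∧
      (∀ z, (∀ k : ℤ, ∀ p ∈ K, z ≠ (TT ^ k) (s p)) → g z = z) ∧
      ∀ p ∈ U, g (s p) = s (f p) := by
  have hfK' : ∀ p, p ∉ K → f.symm p = p := fun p hp => by
    rw [Equiv.symm_apply_eq, hfK p hp]
  have hfk : ∀ p ∈ K, f p ∈ K := by
    intro p hp
    by_contra h
    have h1 := f.injective (hfK _ h)
    rw [h1] at h
    exact h hp
  have hfU : ∀ p ∈ U, f p ∈ U := by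
    intro p hp
    by_cases h : p ∈ K
    · exact hKU (hfk p h)
    · rw [hfK p h]
      exact hp
  have hfU' : ∀ p ∈ U, f.symm p ∈ U := by
    intro p hp
    by_contra h
    have h1 : f.symm p ∉ K := fun h2 => h (hKU h2)
    have h2 := hfK _ h1
    rw [Equiv.apply_symm_apply] at h2
    rw [← h2] at h
    exact h hp
  let P : Set ℤ → Equiv.Perm P2 := fun A =>
    { toFun := FF U s f A
      invFun := FF U s f.symm A
      left_inv := fun z => FF_inv hs2 f f.symm A hfU (fun p => f.symm_apply_apply p) z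
      right_inv := fun z => FF_inv hs2 f.symm f A hfU' (fun p => f.apply_symm_apply p) z }
  have hP : ∀ A z, P A z = FF U s f A z := fun _ _ => rfl
  -- bound of the positions
  obtain ⟨N, hN0, hN⟩ : ∃ N : ℝ, 0 ≤ N ∧ ∀ p ∈ K, |ps (s p)| ≤ N := by
    have h1 : ContinuousOn (fun p => ps (s p)) K := by
      intro p hp
      have h2 : ContinuousAt s p := hs.continuousAt (hU.mem_nhds (hKU hp))
      exact (ContinuousAt.comp (g := ps) (f := s) (ps_contAt _ (hs2 p (hKU hp)).1) h2).continuousWithinAt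
    obtain ⟨N, hN⟩ := (hK.image_of_continuousOn h1).isBounded.exists_norm_le
    refine ⟨max N 0, le_max_right _ _, fun p hp => ?_⟩
    have h3 := hN _ ⟨p, hp, rfl⟩
    exact (le_of_eq (Real.norm_eq_abs _).symm).trans (h3.trans (le_max_left _ _))
  have hSt : ∀ p ∈ U, s p ∈ St := by
    intro p hp
    have h1 := dev_norm (s p) (hs2 p hp).1
    rw [(hs2 p hp).2] at h1
    have h2 := h0 p hp
    rw [h1] at h2
    exact h2
  have hoff : ∀ A z, z ∉ St → P A z = z := by
    intro A z hz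
    rw [hP]
    refine FF_off _ _ _ fun h => hz ?_
    have h1 := h0 _ h.2
    rw [dev_norm z h.1] at h1
    exact h1
  have hsupp : ∀ A z, (∀ k : ℤ, ∀ p ∈ K, z ≠ (TT ^ k) (s p)) → P A z = z := by
    intro A z hz
    rw [hP]
    rcases cases_z hs2 z with ⟨k, p, hp, rfl⟩ | hz'
    · refine FF_K hs2 _ _ _ fun _ => ?_
      rw [dev_k hs2 k p hp]
      exact hfK p fun h => hz k p h rfl
    · exact FF_off _ _ _ hz'
  have hGU : ∀ n : ℕ, P {k : ℤ | |k| ≤ n} ∈ GU St := by
    intro n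
    have hPL : IsPL (P {k : ℤ | |k| ≤ n}) :=
      FF_PL hU hs hs2 h0 hK hKU f hf.1.1 hfU hfk hfK N hN n
    have hfin : ({k : ℤ | |k| ≤ (n : ℤ)}).Finite := by
      refine (Set.finite_Icc (-(n : ℤ)) n).subset fun k hk => ?_
      exact abs_le.1 hk
    refine GU_of _ hPL St (⋃ k ∈ {k : ℤ | |k| ≤ (n : ℤ)}, (fun z => (TT ^ k) z) '' (s '' K)) ?_ ?_ ?_
    · refine Set.iUnion₂_subset fun k _ => ?_
      rintro _ ⟨_, ⟨p, hp, rfl⟩, rfl⟩
      exact (TT_St k _).2 (hSt p (hKU hp))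
    · refine hfin.isCompact_biUnion fun k _ => ?_
      exact (hK.image_of_continuousOn (hs.mono hKU)).image (TT_cont k)
    · intro z hz
      rw [hP]
      rcases cases_z hs2 z with ⟨k, p, hp, rfl⟩ | hz'
      · by_cases hk : |k| ≤ (n : ℤ)
        · refine FF_K hs2 _ _ _ fun _ => ?_
          rw [dev_k hs2 k p hp]
          exact hfK p fun h => hz (Set.mem_biUnion (show k ∈ {k : ℤ | |k| ≤ (n : ℤ)} from hk)
            ⟨s p, ⟨p, h, rfl⟩, rfl⟩)
        · exact FF_out hs2 _ _ k p hp hk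
      · exact FF_off _ _ _ hz'
  refine ⟨P Set.univ, ⟨hf, fun x hx => ?_, hoff _, fun z hz => ?_, fun z => ?_, ?_⟩,
    hsupp _, fun p hp => ?_⟩
  · exact hfK x fun h => absurd (h0 x (hKU h)) (not_lt.2 hx)
  · change dev (P Set.univ z) = f (dev z)
    rw [hP]
    have hz0 : 0 < z.2 := lt_trans one_pos hz
    rcases cases_z hs2 z with ⟨k, p, hp, rfl⟩ | hz'
    · rw [FF_in hs2 _ _ k p hp (Set.mem_univ _), dev_k hs2 k p hp, dev_k hs2 k _ (hfU p hp)]
    · rw [FF_off _ _ _ hz']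
      exact (hfK _ fun h => hz' ⟨hz0, hKU h⟩).symm
  · change P Set.univ (TT z) = TT (P Set.univ z)
    rw [hP, hP]
    rcases cases_z hs2 z with ⟨k, p, hp, rfl⟩ | hz'
    · have e : ∀ w : P2, TT ((TT ^ k) w) = (TT ^ (k + 1)) w := by
        intro w
        rw [add_comm, zpow_add, zpow_one, Equiv.Perm.mul_apply]
      rw [FF_in hs2 _ _ k p hp (Set.mem_univ _), e, e, FF_in hs2 _ _ (k + 1) p hp (Set.mem_univ _)]
    · rw [FF_off _ _ _ hz', FF_off]
      rintro ⟨h1, h2⟩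
      have h3 : (TT z).2 = z.2 := rfl
      rw [h3] at h1
      rw [dev_TT z h1] at h2
      exact hz' ⟨h1, h2⟩
  · refine ⟨2 * N, fun M => ?_⟩
    obtain ⟨n, hn⟩ : ∃ n : ℕ, M + N ≤ n := exists_nat_ge _
    refine ⟨P {k : ℤ | |k| ≤ n}, hGU n, fun z hz hM => ?_, fun z hz => ?_⟩
    · change P Set.univ z = _
      rw [hP, hP]
      rcases cases_z hs2 z with ⟨k, p, hp, rfl⟩ | hz'
      · by_cases hpK : p ∈ K
        · have hk : |k| ≤ (n : ℤ) := by
            rw [ps_k k _ (hs2 p hp).1] at hM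
            have h1 := abs_le.1 hM
            have h2 := abs_le.1 (hN p hpK)
            have h3 : |(k : ℝ)| ≤ n := by
              rw [abs_le]
              constructor
              · linarith [h1.1, h2.2, h1.2, h2.1]
              · linarith [h1.1, h2.2, h1.2, h2.1]
            exact_mod_cast h3
          rw [FF_in hs2 _ _ k p hp (Set.mem_univ _), FF_in hs2 _ _ k p hp hk]
        · rw [FF_K hs2, FF_K hs2]
          · intro _
            rw [dev_k hs2 k p hp]
            exact hfK p hpK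
          · intro _
            rw [dev_k hs2 k p hp]
            exact hfK p hpK
      · rw [FF_off _ _ _ hz', FF_off _ _ _ hz']
    · rw [hP]
      rcases cases_z hs2 z with ⟨k, p, hp, rfl⟩ | hz'
      · by_cases hpK : p ∈ K
        · by_cases hk : |k| ≤ (n : ℤ)
          · rw [FF_in hs2 _ _ k p hp hk, ps_k k _ (hs2 p hp).1, ps_k k _ (hs2 _ (hfU p hp)).1]
            have h1 := abs_le.1 (hN p hpK)
            have h2 := abs_le.1 (hN _ (hfk p hpK))
            rw [abs_le]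
            constructor <;> linarith [h1.1, h1.2, h2.1, h2.2]
          · rw [FF_out hs2 _ _ k p hp hk, sub_self, abs_zero]
            positivity
        · rw [FF_K hs2, sub_self, abs_zero]
          · positivity
          · intro _
            rw [dev_k hs2 k p hp]
            exact hfK p hpK
      · rw [FF_off _ _ _ hz', sub_self, abs_zero]
        positivity
  · rw [hP]
    have h1 := FF_in hs2 f Set.univ 0 p hp (Set.mem_univ _)
    simpa using h1

end C715
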