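import Pool.Agent.Work.MP_c71557_gt.D.Defs
import Pool.Agent.Work.MP_c71557_gt.P.Shear

set_option autoImplicit false
set_option linter.unusedVariables false

/-!
# MP_c71557_gt, module D/PushSt: pushing to the right and to the left in the strip (M)

`pushR_St` (the field `pushR` of `LineGrp`).  PROOF.  All `f ∈ F` are the identity off a compact `K ⊆ St`
and for `ps x ≤ r + ε` (minimum over the finite set; `ε < r1 - r`); so they are the identity off
`K' = K ∩ {r + ε ≤ ps}`; let `1 < a < b` with `a ≤ z.2 ≤ b` on `K`.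
`g z = (z.1 + φ z, z.2)`, `φ z = min (κ (z.1 - (r + ε/2) z.2)⁺) (min (θ (r1 z.2 - z.1)⁺) (B z.2))`, `B y` the PL function
`max 0 (min (λ (y - (1+a)/2)) (λ (2 b - y)))`, `θ < 1` with `r + ε + θ (r1 - r - ε) > r'`, and `κ, λ` large so that at
`z.1 = (r + ε) z.2`, `a ≤ z.2 ≤ b`, the minimum is `θ (r1 - r - ε) z.2`.  `φ` is PL, `≥ 0`, with compact support in
`{(1+a)/2 ≤ z.2 ≤ 2 b, (r+ε/2) z.2 ≤ z.1 ≤ r1 z.2} ⊆ St`, slopes in `z.1` at least `-θ`
(`t + min = min (t + ·)` of strictly increasing functions): `shear1` gives `g ∈ GU St`.  `g` is the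
identity for `ps ≤ r + ε/2` and for `r1 ≤ ps`.  For `z ∈ K'`: by monotonicity on the horizontal line,
`ps (g z) ≥ r + ε + θ (r1 - r - ε) = r' + 2 ε'`, some `ε' > 0`.  `g f g⁻¹` is the identity off `g (K')`, hence
for `ps ≤ r' + ε'`.
`pushL_St`: by the symmetry `(x, y) ↦ (-x, y)` (conjugation by it maps `GU St` to itself and `ps` to `-ps`),
or the same formulas.
-/

namespace C715

private theorem min_add' (a b c : ℝ) : a + min b c = min (a + b) (a + c) :=
  (min_add_add_left a b c).symm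

private theorem supp_fin (F : Set (Equiv.Perm P2)) (hF : F.Finite) (h : ∀ f ∈ F, f ∈ GU St) :
    ∃ K : Set P2, K ⊆ St ∧ IsCompact K ∧ ∀ f ∈ F, ∀ x, x ∉ K → f x = x := by
  choose! K hKU hK h1 using fun f hf => (h f hf).2
  refine ⟨⋃ f ∈ F, K f, Set.iUnion₂_subset hKU, hF.isCompact_biUnion hK, fun f hf x hx => ?_⟩
  exact h1 f hf x fun h2 => hx (Set.mem_biUnion hf h2)

private theorem eps_fin (F : Set (Equiv.Perm P2)) (hF : F.Finite) (r : ℝ)
    (h : ∀ f ∈ F, ∃ ε > 0, ∀ x ∈ St, ps x ≤ r + ε → f x = x) :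
    ∃ ε > 0, ∀ f ∈ F, ∀ x ∈ St, ps x ≤ r + ε → f x = x := by
  induction F, hF using Set.Finite.induction_on with
  | empty => exact ⟨1, one_pos, fun f hf => absurd hf (Set.notMem_empty f)⟩
  | @insert a s ha hs ih =>
    obtain ⟨ε, hε, h1⟩ := ih fun f hf => h f (Or.inr hf)
    obtain ⟨ε', hε', h2⟩ := h a (Or.inl rfl)
    refine ⟨min ε ε', lt_min hε hε', fun f hf x hx hp => ?_⟩
    rcases hf with rfl | hf
    · exact h2 x hx (hp.trans (by linarith [min_le_right ε ε']))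
    · exact h1 f hf x hx (hp.trans (by linarith [min_le_left ε ε']))

private theorem low_ex (K : Set P2) (hK : IsCompact K) (hKS : K ⊆ St) :
    ∃ a b : ℝ, 1 < a ∧ a < b ∧ ∀ z ∈ K, a ≤ z.2 ∧ z.2 ≤ b := by
  obtain ⟨R, hR⟩ : ∃ R : ℝ, ∀ x ∈ K, ‖x‖ ≤ R := hK.isBounded.exists_norm_le
  rcases K.eq_empty_or_nonempty with h | h
  · exact ⟨2, 3, by norm_num, by norm_num, fun z hz => by rw [h] at hz; exact hz.elim⟩
  · obtain ⟨z0, hz0, hmin⟩ := hK.exists_isMinOn h (continuous_snd.continuousOn)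
    have h1 : 1 < z0.2 := hKS hz0
    refine ⟨z0.2, max R z0.2 + 1, h1, by linarith [le_max_right R z0.2], fun z hz => ⟨hmin hz, ?_⟩⟩
    have h2 : ‖z.2‖ ≤ R := (norm_snd_le z).trans (hR z hz)
    have h3 := (le_abs_self z.2).trans h2
    linarith [le_max_left R z0.2]

/-- the pushing map -/
private theorem push_map (a b s s' r1 r'' : ℝ) (ha : 1 < a) (hab : a < b) (hs : s < s')
    (hs' : s' < r'') (hr : r'' < r1) :
    ∃ g ∈ GU St, (∀ x ∈ St, ps x ≤ s → g x = x) ∧ (∀ x ∈ St, r1 ≤ ps x → g x = x) ∧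
      ∀ x ∈ St, a ≤ x.2 → x.2 ≤ b → s' ≤ ps x → r'' ≤ ps (g x) := by
  set D : ℝ := r1 - s' with hD
  have hD0 : 0 < D := by linarith
  set θ : ℝ := (r'' - s') / D with hθ
  have hθ0 : 0 < θ := div_pos (by linarith) hD0
  have hθ1 : θ < 1 := by
    rw [hθ, div_lt_one hD0]
    linarith
  have hθD : θ * D = r'' - s' := div_mul_cancel₀ _ hD0.ne'
  set κ : ℝ := D / (s' - s) with hκ
  have hκ0 : 0 < κ := div_pos hD0 (by linarith)
  have hκs : κ * (s' - s) = D := div_mul_cancel₀ _ (by linarith)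
  set lam : ℝ := D * b / (a - (1 + a) / 2) + D with hlam
  have ha2 : 0 < a - (1 + a) / 2 := by linarith
  have hb0 : 0 < b := by linarith
  have hlam1 : D * b ≤ lam * (a - (1 + a) / 2) := by
    have : D * b / (a - (1 + a) / 2) * (a - (1 + a) / 2) = D * b := div_mul_cancel₀ _ ha2.ne'
    nlinarith
  have hlam2 : D ≤ lam := by
    have : 0 ≤ D * b / (a - (1 + a) / 2) := by positivity
    linarith
  have hlam0 : 0 < lam := by linarith
  set B : P2 → ℝ := fun z => max 0 (min (lam * (z.2 - (1 + a) / 2)) (lam * (2 * b - z.2))) with hB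
  set φ : P2 → ℝ := fun z => min (κ * max 0 (z.1 - s * z.2))
    (min (θ * max 0 (r1 * z.2 - z.1)) (B z)) with hφ
  have hBPL : IsPLf B :=
    (IsPLf.const 0).max (((IsPLf.snd.sub (IsPLf.const _)).smul lam).min
      (((IsPLf.const _).sub IsPLf.snd).smul lam))
  have hφPL : IsPLf φ :=
    (((IsPLf.const 0).max (IsPLf.fst.sub (IsPLf.snd.smul s))).smul κ).min
      ((((IsPLf.const 0).max ((IsPLf.snd.smul r1).sub IsPLf.fst)).smul θ).min hBPL)
  have hB0 : ∀ z, 0 ≤ B z := fun z => le_max_left _ _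
  have hφ0 : ∀ z, 0 ≤ φ z := by
    intro z
    refine le_min ?_ (le_min ?_ (hB0 z))
    · have := le_max_left 0 (z.1 - s * z.2)
      positivity
    · have := le_max_left 0 (r1 * z.2 - z.1)
      positivity
  have hv1 : ∀ z : P2, z.1 ≤ s * z.2 → φ z = 0 := by
    intro z hz
    refine le_antisymm ((min_le_left _ _).trans ?_) (hφ0 z)
    rw [max_eq_left (by linarith), mul_zero]
  have hv2 : ∀ z : P2, r1 * z.2 ≤ z.1 → φ z = 0 := by
    intro z hz
    refine le_antisymm ((min_le_right _ _).trans ((min_le_left _ _).trans ?_)) (hφ0 z)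
    rw [max_eq_left (by linarith), mul_zero]
  have hv3 : ∀ z : P2, z.2 ≤ (1 + a) / 2 → φ z = 0 := by
    intro z hz
    refine le_antisymm ((min_le_right _ _).trans ((min_le_right _ _).trans ?_)) (hφ0 z)
    refine max_le le_rfl ((min_le_left _ _).trans ?_)
    nlinarith
  have hv4 : ∀ z : P2, 2 * b ≤ z.2 → φ z = 0 := by
    intro z hz
    refine le_antisymm ((min_le_right _ _).trans ((min_le_right _ _).trans ?_)) (hφ0 z)
    refine max_le le_rfl ((min_le_right _ _).trans ?_)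
    nlinarith
  set K : Set P2 := {z | (1 + a) / 2 ≤ z.2 ∧ z.2 ≤ 2 * b ∧ s * z.2 ≤ z.1 ∧ z.1 ≤ r1 * z.2} with hK
  have hKS : K ⊆ St := fun z hz => show 1 < z.2 by linarith [hz.1]
  have hKc : IsCompact K := by
    have hcl : IsClosed K := by
      refine IsClosed.inter (isClosed_le continuous_const continuous_snd)
        (IsClosed.inter (isClosed_le continuous_snd continuous_const)
          (IsClosed.inter (isClosed_le (by fun_prop) continuous_fst)
            (isClosed_le continuous_fst (by fun_prop))))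
    refine IsCompact.of_isClosed_subset (isCompact_closedBall (0 : P2)
      (2 * b * (|s| + |r1| + 1))) hcl fun z hz => ?_
    obtain ⟨h1, h2, h3, h4⟩ := hz
    have hz0 : 0 < z.2 := by linarith
    rw [mem_closedBall_zero_iff, Prod.norm_def]
    refine max_le ?_ ?_
    · rw [Real.norm_eq_abs, abs_le]
      have a1 := neg_abs_le s
      have a2 := le_abs_self r1
      have a3 := abs_nonneg s
      have a4 := abs_nonneg r1
      constructor
      · nlinarith
      · nlinarith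
    · rw [Real.norm_eq_abs, abs_of_pos hz0]
      have a3 := abs_nonneg s
      have a4 := abs_nonneg r1
      nlinarith
  have hoff : ∀ x, x ∉ K → φ x = 0 := by
    intro x hx
    by_contra hne
    refine hx ⟨?_, ?_, ?_, ?_⟩
    · by_contra h
      exact hne (hv3 x (not_le.1 h).le)
    · by_contra h
      exact hne (hv4 x (not_le.1 h).le)
    · by_contra h
      exact hne (hv1 x (not_le.1 h).le)
    · by_contra h
      exact hne (hv2 x (not_le.1 h).le)
  have hmono : ∀ y : ℝ, StrictMono (fun t : ℝ => t + φ (t, y)) := by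
    intro y u v huv
    show u + min (κ * max 0 (u - s * y)) (min (θ * max 0 (r1 * y - u)) (B (u, y))) <
      v + min (κ * max 0 (v - s * y)) (min (θ * max 0 (r1 * y - v)) (B (v, y)))
    rw [min_add', min_add', min_add', min_add']
    refine min_lt_min ?_ (min_lt_min ?_ ?_)
    · have : max 0 (u - s * y) ≤ max 0 (v - s * y) := max_le_max le_rfl (by linarith)
      have := mul_le_mul_of_nonneg_left this hκ0.le
      linarith
    · rcases le_total 0 (r1 * y - u) with h6 | h6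
      · rw [max_eq_right h6]
        have := le_max_right 0 (r1 * y - v)
        have := mul_le_mul_of_nonneg_left this hθ0.le
        nlinarith
      · rw [max_eq_left h6]
        have := le_max_left 0 (r1 * y - v)
        have := mul_le_mul_of_nonneg_left this hθ0.le
        nlinarith
    · have : B (u, y) = B (v, y) := rfl
      linarith
  obtain ⟨g, hg, hgz⟩ := shear1 φ hφPL St K hKS hKc hoff hmono
  refine ⟨g, hg, fun x hx hp => ?_, fun x hx hp => ?_, fun x hx h1 h2 h3 => ?_⟩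
  · have hx0 : 0 < x.2 := lt_trans one_pos hx
    rw [hgz, hv1 x ((div_le_iff₀ hx0).1 hp), add_zero]
  · have hx0 : 0 < x.2 := lt_trans one_pos hx
    rw [hgz, hv2 x ((le_div_iff₀ hx0).1 hp), add_zero]
  · have hx0 : 0 < x.2 := lt_trans one_pos hx
    have h4 : s' * x.2 ≤ x.1 := (le_div_iff₀ hx0).1 h3
    have h5 : s' * x.2 + φ (s' * x.2, x.2) ≤ x.1 + φ x := (hmono x.2).monotone h4
    have h6 : (r'' - s') * x.2 ≤ φ (s' * x.2, x.2) := by
      have e1 : θ * D * x.2 ≤ D * x.2 := by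
        have := mul_le_mul_of_nonneg_right hθ1.le (mul_pos hD0 hx0).le
        linarith
      refine le_min ?_ (le_min ?_ ?_)
      · show (r'' - s') * x.2 ≤ κ * max 0 (s' * x.2 - s * x.2)
        have e2 := le_max_right 0 (s' * x.2 - s * x.2)
        have e3 := mul_le_mul_of_nonneg_left e2 hκ0.le
        have e4 : κ * (s' * x.2 - s * x.2) = D * x.2 := by
          rw [← hκs]
          ring
        rw [← hθD]
        linarith
      · show (r'' - s') * x.2 ≤ θ * max 0 (r1 * x.2 - s' * x.2)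
        have e2 := le_max_right 0 (r1 * x.2 - s' * x.2)
        have e3 := mul_le_mul_of_nonneg_left e2 hθ0.le
        have e4 : θ * (r1 * x.2 - s' * x.2) = θ * D * x.2 := by
          rw [hD]
          ring
        rw [← hθD]
        linarith
      · show (r'' - s') * x.2 ≤ max 0 (min (lam * (x.2 - (1 + a) / 2)) (lam * (2 * b - x.2)))
        refine le_max_of_le_right (le_min ?_ ?_)
        · rw [← hθD]
          have e2 : D * x.2 ≤ D * b := mul_le_mul_of_nonneg_left h2 hD0.le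
          have e3 : lam * (a - (1 + a) / 2) ≤ lam * (x.2 - (1 + a) / 2) :=
            mul_le_mul_of_nonneg_left (by linarith) hlam0.le
          linarith
        · rw [← hθD]
          have e2 : D * x.2 ≤ D * b := mul_le_mul_of_nonneg_left h2 hD0.le
          have e3 : lam * b ≤ lam * (2 * b - x.2) :=
            mul_le_mul_of_nonneg_left (by linarith) hlam0.le
          have e4 : D * b ≤ lam * b := mul_le_mul_of_nonneg_right hlam2 hb0.le
          linarith
    rw [hgz]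
    show r'' ≤ (x.1 + φ x) / x.2
    rw [le_div_iff₀ hx0]
    linarith

/-- the reflection -/
private noncomputable def sg0 : Equiv.Perm P2 where
  toFun x := (-x.1, x.2)
  invFun x := (-x.1, x.2)
  left_inv x := by ext <;> simp
  right_inv x := by ext <;> simp

private theorem sg0_conj (f : Equiv.Perm P2) (hf : f ∈ GU St) : sg0 * f * sg0⁻¹ ∈ GU St := by
  obtain ⟨hf, K, hKU, hK, h1⟩ := hf
  have hs : IsPL sg0 := ⟨IsPLf.fst.neg, IsPLf.snd⟩
  have hs' : IsPL (sg0⁻¹ : Equiv.Perm P2) := ⟨IsPLf.fst.neg, IsPLf.snd⟩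
  have hc : IsPL (sg0 * f * sg0⁻¹ : Equiv.Perm P2) := hs.comp (hf.1.1.comp hs')
  refine GU_of _ hc St (sg0 '' K) ?_ (hK.image hs.cont) fun x hx => ?_
  · rintro _ ⟨x, hx, rfl⟩
    have h2 : x ∈ St := hKU hx
    exact h2
  · rw [Equiv.Perm.mul_apply, Equiv.Perm.mul_apply, h1 _ fun h2 => hx ⟨_, h2, ?_⟩]
    · exact sg0.apply_symm_apply x
    · exact sg0.apply_symm_apply x

private theorem ps_sg0 (x : P2) : ps (sg0 x) = -ps x := neg_div _ _

private theorem ps_sg0' (x : P2) : ps (sg0⁻¹ x) = -ps x := neg_div _ _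

private theorem sg0_St (x : P2) (hx : x ∈ St) : sg0 x ∈ St := hx

private theorem sg0_St' (x : P2) (hx : x ∈ St) : sg0⁻¹ x ∈ St := hx

theorem pushR_St (r r' r1 : ℝ) (h : r ≤ r') (h' : r' < r1) (F : Set (Equiv.Perm P2))
    (hF : F.Finite) (hf : ∀ f ∈ F, f ∈ GU St ∧ ∃ ε > 0, ∀ x ∈ St, ps x ≤ r + ε → f x = x) :
    ∃ g ∈ GU St, (∃ ε > 0, ∀ x ∈ St, ps x ≤ r + ε → g x = x) ∧
      (∀ x ∈ St, r1 ≤ ps x → g x = x) ∧
      ∀ f ∈ F, ∃ ε > 0, ∀ x ∈ St, ps x ≤ r' + ε → (g * f * g⁻¹) x = x := by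
  obtain ⟨K, hKS, hK, hoff⟩ := supp_fin F hF fun f hff => (hf f hff).1
  obtain ⟨ε0, hε0, hid0⟩ := eps_fin F hF r fun f hff => (hf f hff).2
  obtain ⟨a, b, ha, hab, hKab⟩ := low_ex K hK hKS
  set ε : ℝ := min ε0 ((r1 - r) / 2) with hε
  have hεp : 0 < ε := lt_min hε0 (by linarith)
  have hε1 : ε ≤ ε0 := min_le_left _ _
  have hε2 : ε ≤ (r1 - r) / 2 := min_le_right _ _
  have hm : max (r + ε) r' < r1 := max_lt (by linarith) h'
  set r'' : ℝ := (max (r + ε) r' + r1) / 2 with hr''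
  have e1 : r + ε < r'' := by linarith [le_max_left (r + ε) r']
  have e2 : r' < r'' := by linarith [le_max_right (r + ε) r']
  have e3 : r'' < r1 := by linarith
  obtain ⟨g, hg, g1, g2, g3⟩ := push_map a b (r + ε / 2) (r + ε) r1 r'' ha hab (by linarith) e1 e3
  refine ⟨g, hg, ⟨ε / 2, by positivity, g1⟩, g2, fun f hff => ⟨(r'' - r') / 2, by linarith,
    fun x hx hp => ?_⟩⟩
  have hgx : g⁻¹ x ∈ St := off_mem (off_inv fun w => GU_off hg) hx
  have hgg : g (g⁻¹ x) = x := g.apply_symm_apply x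
  have key : f (g⁻¹ x) = g⁻¹ x := by
    by_cases hk : g⁻¹ x ∈ K
    · rcases le_or_gt (ps (g⁻¹ x)) (r + ε) with h6 | h6
      · exact hid0 f hff _ hgx (by linarith)
      · exfalso
        have h7 := g3 _ hgx (hKab _ hk).1 (hKab _ hk).2 h6.le
        rw [hgg] at h7
        linarith
    · exact hoff f hff _ hk
  rw [Equiv.Perm.mul_apply, Equiv.Perm.mul_apply, key, hgg]

theorem pushL_St (l l' l1 : ℝ) (h : l' ≤ l) (h' : l1 < l') (F : Set (Equiv.Perm P2))
    (hF : F.Finite) (hf : ∀ f ∈ F, f ∈ GU St ∧ ∃ ε > 0, ∀ x ∈ St, l - ε ≤ ps x → f x = x) :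
    ∃ g ∈ GU St, (∃ ε > 0, ∀ x ∈ St, l - ε ≤ ps x → g x = x) ∧
      (∀ x ∈ St, ps x ≤ l1 → g x = x) ∧
      ∀ f ∈ F, ∃ ε > 0, ∀ x ∈ St, l' - ε ≤ ps x → (g * f * g⁻¹) x = x := by
  obtain ⟨g, hg, ⟨ε, hε, g1⟩, g2, g3⟩ := pushR_St (-l) (-l') (-l1) (by linarith) (by linarith)
    ((fun f => sg0 * f * sg0⁻¹) '' F) (hF.image _) (by
      rintro _ ⟨f, hff, rfl⟩
      obtain ⟨h1, ε, hε, h2⟩ := hf f hff
      refine ⟨sg0_conj f h1, ε, hε, fun x hx hp => ?_⟩
      show sg0 (f (sg0⁻¹ x)) = x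
      rw [h2 _ (sg0_St' x hx) (by rw [ps_sg0']; linarith)]
      exact sg0.apply_symm_apply x)
  refine ⟨sg0 * g * sg0⁻¹, sg0_conj g hg, ⟨ε, hε, fun x hx hp => ?_⟩, fun x hx hp => ?_,
    fun f hff => ?_⟩
  · show sg0 (g (sg0⁻¹ x)) = x
    rw [g1 _ (sg0_St' x hx) (by rw [ps_sg0']; linarith)]
    exact sg0.apply_symm_apply x
  · show sg0 (g (sg0⁻¹ x)) = x
    rw [g2 _ (sg0_St' x hx) (by rw [ps_sg0']; linarith)]
    exact sg0.apply_symm_apply x
  · obtain ⟨ε', hε', h3⟩ := g3 _ ⟨f, hff, rfl⟩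
    refine ⟨ε', hε', fun x hx hp => ?_⟩
    have h4 := h3 _ (sg0_St' x hx) (by rw [ps_sg0']; linarith)
    have h5 : sg0 * g * sg0⁻¹ * f * (sg0 * g * sg0⁻¹)⁻¹ =
        sg0 * (g * (sg0 * f * sg0⁻¹) * g⁻¹) * sg0⁻¹ := by
      have e1 : sg0⁻¹ = sg0 := rfl
      have e2 : sg0 * sg0 = 1 := by
        nth_rw 2 [← e1]
        exact mul_inv_cancel sg0
      rw [e1, mul_inv_rev, mul_inv_rev, e1]
      simp only [mul_assoc]
    rw [h5]
    show sg0 ((g * (sg0 * f * sg0⁻¹) * g⁻¹) (sg0⁻¹ x)) = x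
    rw [h4]
    exact sg0.apply_symm_apply x

theorem bdd_St (g : Equiv.Perm P2) (hg : g ∈ GU St) :
    ∃ a b : ℝ, ∀ x ∈ St, (ps x ≤ a ∨ b ≤ ps x) → g x = x := by
  obtain ⟨_, K, hKS, hK, h1⟩ := hg
  obtain ⟨R, hR⟩ : ∃ R : ℝ, ∀ x ∈ K, ‖x‖ ≤ R := hK.isBounded.exists_norm_le
  refine ⟨-(R + 1), R + 1, fun x hx hp => h1 x fun hxK => ?_⟩
  have hx1 : 1 < x.2 := hx
  have hx0 : 0 < x.2 := lt_trans one_pos hx1
  have h2 : |x.1| ≤ R := (norm_fst_le x).trans (hR x hxK)
  have h3 : |ps x| ≤ R := by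
    unfold ps
    rw [abs_div, abs_of_pos hx0, div_le_iff₀ hx0]
    have := abs_nonneg x.1
    nlinarith
  obtain ⟨h4, h5⟩ := abs_le.1 h3
  rcases hp with hp | hp
  · linarith
  · linarith

end C715
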