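import Pool.Agent.Work.MP_c71557_gt.D.Line
import Pool.Agent.Work.MP_c71557_gt.P.Incl

set_option autoImplicit false
set_option linter.unusedVariables false

/-!
# MP_c71557_gt, module D/Split: elements which are the identity near a block split (M)

* `GS_split`.  `g ∈ GU St` is the identity on `Z = {z ∈ St | l - ε ≤ ps z ≤ r + ε}` (`l = J.1.1`, `r = J.1.2`).
Let `W = {z ∈ St | ps z < l - ε}` = `{1 < z.2, z.1 < (l - ε) z.2}`, convex, open, and
`W' = {z ∈ St | r + ε < ps z}`.  `g (W) ∩ Z = ∅` (injectivity), so the preconnected set `g (W) ⊆ St` is contained in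
the disjoint union of the open sets `W`, `W'`; `g` has compact support and `W` is unbounded, so some point of
`W` is fixed; hence `g (W) ⊆ W`; the same for `g⁻¹`.
Put `a z = g z` if `z ∈ W`, `a z = z` otherwise; a permutation; continuous: on the open set `{z ∈ St | ps z < r + ε}` it
equals `g`... precisely: on the open set `O1 = {z ∈ St | ps z < r}` `a = g` (`g = id` on `Z`), on the open set
`O2 = Kᶜ ∪ {z ∈ St | l - ε < ps z}` (`K` the compact support of `g` in `St`) `a = id`, and `O1 ∪ O2` is everything.  PL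
(`IsPLf.glue'`: it selects from the pieces of `g` and the identity).  So `a ∈ GU St` (`GU_of`), `a ∈ GS.L l` and
`b = a⁻¹ g` is the identity for `ps ≤ r + ε`: `b ∈ GS.R r`.
* `GS_L`, `GS_R`: `{z | 1 < z.2 ∧ z.1 < l z.2}` is convex and open; a compact subset of it has `ps ≤ l - ε`
(continuity of `ps` on `St`); conversely an element of `GU St` which is the identity for `ps ≥ l - ε` has its
support in a compact set intersected with the closed set `{z.1 ≤ (l - ε) z.2}`.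
* `GS_L_hiso`: `GU_hiso`.
-/

namespace C715

open CategoryTheory ActCat

private theorem ps_le_iff (z : P2) (hz : z ∈ St) (c : ℝ) : ps z ≤ c ↔ z.1 ≤ c * z.2 :=
  div_le_iff₀ (lt_trans one_pos hz)

private theorem le_ps_iff (z : P2) (hz : z ∈ St) (c : ℝ) : c ≤ ps z ↔ c * z.2 ≤ z.1 :=
  le_div_iff₀ (lt_trans one_pos hz)

private theorem isOpen_lt_reg (c : ℝ) : IsOpen {z : P2 | 1 < z.2 ∧ z.1 < c * z.2} :=
  (isOpen_lt continuous_const continuous_snd).inter
    (isOpen_lt continuous_fst (by fun_prop))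

private theorem isOpen_gt_reg (c : ℝ) : IsOpen {z : P2 | 1 < z.2 ∧ c * z.2 < z.1} :=
  (isOpen_lt continuous_const continuous_snd).inter
    (isOpen_lt (by fun_prop) continuous_fst)

private theorem convex_lt_reg (c : ℝ) : Convex ℝ {z : P2 | 1 < z.2 ∧ z.1 < c * z.2} := by
  rintro x ⟨hx1, hx2⟩ y ⟨hy1, hy2⟩ a b ha hb hab
  refine ⟨?_, ?_⟩
  · show 1 < a * x.2 + b * y.2
    rcases ha.lt_or_eq with h | h
    · nlinarith
    · subst h
      rw [zero_add] at hab
      subst hab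
      linarith
  · show a * x.1 + b * y.1 < c * (a * x.2 + b * y.2)
    rcases ha.lt_or_eq with h | h
    · nlinarith
    · subst h
      rw [zero_add] at hab
      subst hab
      linarith

private theorem nonempty_lt_reg (c : ℝ) (R : ℝ) :
    ∃ z : P2, (1 < z.2 ∧ z.1 < c * z.2) ∧ R < ‖z‖ := by
  refine ⟨(-(|R| + 1 + 2 * |c|), 2), ⟨by norm_num, ?_⟩, ?_⟩
  · show -(|R| + 1 + 2 * |c|) < c * 2
    have := neg_abs_le c
    have := abs_nonneg R
    linarith
  · have h1 := norm_fst_le ((-(|R| + 1 + 2 * |c|), 2) : P2)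
    have h2 : ‖(-(|R| + 1 + 2 * |c|) : ℝ)‖ = |R| + 1 + 2 * |c| := by
      rw [norm_neg, Real.norm_of_nonneg (by positivity)]
    have h3 := le_abs_self R
    have h4 := abs_nonneg c
    change ‖(-(|R| + 1 + 2 * |c|) : ℝ)‖ ≤ _ at h1
    rw [h2] at h1
    linarith

private theorem keep_lt (g : Equiv.Perm P2) (hg : g ∈ GU St) (c d : ℝ) (hcd : c < d)
    (h : ∀ x ∈ St, c ≤ ps x → ps x ≤ d → g x = x) (z : P2) (hz : z ∈ St) (hzc : z.1 < c * z.2) :
    (g z).1 < c * (g z).2 := by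
  have hmem : ∀ x ∈ St, g x ∈ St := fun x hx => off_mem (fun w => GU_off hg) hx
  obtain ⟨hgc, K, hKS, hK, hoff⟩ := hg
  obtain ⟨R, hR⟩ : ∃ R : ℝ, ∀ x ∈ K, ‖x‖ ≤ R := hK.isBounded.exists_norm_le
  set W : Set P2 := {z : P2 | 1 < z.2 ∧ z.1 < c * z.2} with hW
  have hdisj : Disjoint W {z : P2 | 1 < z.2 ∧ d * z.2 < z.1} := by
    rw [Set.disjoint_left]
    rintro x ⟨h1, h2⟩ ⟨h3, h4⟩
    nlinarith
  have hsub : g '' W ⊆ W ∪ {z : P2 | 1 < z.2 ∧ d * z.2 < z.1} := by
    rintro _ ⟨x, hx, rfl⟩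
    have hxS : x ∈ St := hx.1
    have h1 : g x ∈ St := hmem x hxS
    by_cases h2 : (g x).1 < c * (g x).2
    · exact Or.inl ⟨h1, h2⟩
    · refine Or.inr ⟨h1, ?_⟩
      by_contra h3
      have h4 := h (g x) h1 ((le_ps_iff _ h1 c).2 (not_lt.1 h2))
        ((ps_le_iff _ h1 d).2 (not_lt.1 h3))
      have h5 := g.injective h4
      rw [h5] at h2
      exact h2 hx.2
  have hne : ((g '' W) ∩ W).Nonempty := by
    obtain ⟨w, hw, hwR⟩ := nonempty_lt_reg c R
    have h1 : g w = w := hoff w fun hk => absurd (hR w hk) (not_le.2 hwR)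
    exact ⟨w, ⟨w, hw, h1⟩, hw⟩
  have hpre : _root_.IsPreconnected (g '' W) :=
    (convex_lt_reg c).isPreconnected.image g (Gc_cont hgc).continuousOn
  have h1 := hpre.subset_left_of_subset_union (isOpen_lt_reg c) (isOpen_gt_reg d) hdisj hsub hne
  exact (h1 ⟨z, ⟨hz, hzc⟩, rfl⟩).2

private theorem supp_L (g : Equiv.Perm P2) (l : ℝ) (hg : g ∈ GS.L l) :
    g ∈ GU {z : P2 | 1 < z.2 ∧ z.1 < l * z.2} := by
  obtain ⟨⟨hgc, K, hKS, hK, hoff⟩, ε, hε, h1⟩ := hg
  refine ⟨hgc, K ∩ {z : P2 | z.1 ≤ (l - ε) * z.2}, ?_, hK.inter_right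
    (isClosed_le continuous_fst (by fun_prop)), fun x hx => ?_⟩
  · rintro z ⟨hz, hz2⟩
    have h2 : 1 < z.2 := hKS hz
    refine ⟨h2, ?_⟩
    have h3 : z.1 ≤ (l - ε) * z.2 := hz2
    nlinarith
  · by_cases hk : x ∈ K
    · have h3 : ¬ x.1 ≤ (l - ε) * x.2 := fun h => hx ⟨hk, h⟩
      have h4 := hKS hk
      exact h1 x h4 ((le_ps_iff x h4 _).2 (not_le.1 h3).le)
    · exact hoff x hk

private theorem supp_R (g : Equiv.Perm P2) (r : ℝ) (hg : g ∈ GS.R r) :
    g ∈ GU {z : P2 | 1 < z.2 ∧ r * z.2 < z.1} := by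
  obtain ⟨⟨hgc, K, hKS, hK, hoff⟩, ε, hε, h1⟩ := hg
  refine ⟨hgc, K ∩ {z : P2 | (r + ε) * z.2 ≤ z.1}, ?_, hK.inter_right
    (isClosed_le (by fun_prop) continuous_fst), fun x hx => ?_⟩
  · rintro z ⟨hz, hz2⟩
    have h2 : 1 < z.2 := hKS hz
    refine ⟨h2, ?_⟩
    have h3 : (r + ε) * z.2 ≤ z.1 := hz2
    nlinarith
  · by_cases hk : x ∈ K
    · have h3 : ¬ (r + ε) * x.2 ≤ x.1 := fun h => hx ⟨hk, h⟩
      have h4 := hKS hk
      exact h1 x h4 ((ps_le_iff x h4 _).2 (not_le.1 h3).le)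
    · exact hoff x hk

private theorem bd_ex (K : Set P2) (hK : IsCompact K) (hKS : K ⊆ St) (u : P2 → ℝ)
    (hu : Continuous u) (h : ∀ z ∈ K, 0 < u z) : ∃ ε > 0, ∀ z ∈ K, ε * z.2 < u z := by
  rcases K.eq_empty_or_nonempty with h0 | h0
  · exact ⟨1, one_pos, fun z hz => by rw [h0] at hz; exact hz.elim⟩
  · obtain ⟨z0, hz0, hmin⟩ := hK.exists_isMinOn h0 hu.continuousOn
    obtain ⟨R, hR⟩ : ∃ R : ℝ, ∀ x ∈ K, ‖x‖ ≤ R := hK.isBounded.exists_norm_le
    have hu0 := h z0 hz0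
    have hR1 : 0 < |R| + 1 := by positivity
    refine ⟨u z0 / (|R| + 1), div_pos hu0 hR1, fun z hz => ?_⟩
    have h1 : z.2 < |R| + 1 := by
      have h2 : |z.2| ≤ R := (norm_snd_le z).trans (hR z hz)
      linarith [le_abs_self z.2, le_abs_self R]
    calc u z0 / (|R| + 1) * z.2 < u z0 / (|R| + 1) * (|R| + 1) :=
          mul_lt_mul_of_pos_left h1 (div_pos hu0 hR1)
      _ = u z0 := div_mul_cancel₀ _ hR1.ne'
      _ ≤ u z := hmin hz

private theorem hiso_aux (U V : Set P2) (hU : IsOpen U) (hUc : Convex ℝ U) (hUn : U.Nonempty)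
    (hV : IsOpen V) (hVc : Convex ℝ V) (h : U ⊆ V) (S : Subgroup (Equiv.Perm P2))
    (hS : S = GU V) (h' : GU U ≤ S) : HIso (sgIncl h') := by
  subst hS
  exact GU_hiso U V hU hUc hUn hV hVc h

theorem GS_split : GS.Split := by
  classical
  rintro J g hg ⟨ε, hε, hid⟩
  have hJ := J.2
  set l : ℝ := J.1.1 with hl
  set r : ℝ := J.1.2 with hr
  have hid1 : ∀ x ∈ St, l - ε ≤ ps x → ps x ≤ r + ε → g x = x := fun x hx h1 h2 => hid x hx h1 h2
  have hg' : g⁻¹ ∈ GU St := (GU St).inv_mem hg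
  have hid2 : ∀ x ∈ St, l - ε ≤ ps x → ps x ≤ r + ε → g⁻¹ x = x := fun x hx h1 h2 => by
    rw [Equiv.Perm.inv_eq_iff_eq, hid1 x hx h1 h2]
  set W : Set P2 := {z : P2 | 1 < z.2 ∧ z.1 < (l - ε) * z.2} with hW
  have hmem : ∀ x ∈ St, g x ∈ St := fun x hx => off_mem (fun w => GU_off hg) hx
  have hmem' : ∀ x ∈ St, g⁻¹ x ∈ St := fun x hx => off_mem (fun w => GU_off hg') hx
  have k1 : ∀ z ∈ W, g z ∈ W := fun z hz =>
    ⟨hmem z hz.1, keep_lt g hg _ _ (by linarith) hid1 z hz.1 hz.2⟩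
  have k2 : ∀ z ∈ W, g⁻¹ z ∈ W := fun z hz =>
    ⟨hmem' z hz.1, keep_lt g⁻¹ hg' _ _ (by linarith) hid2 z hz.1 hz.2⟩
  obtain ⟨hgc, K, hKS, hK, hoff⟩ := id hg
  set a : Equiv.Perm P2 :=
    { toFun := fun z => if z ∈ W then g z else z
      invFun := fun z => if z ∈ W then g⁻¹ z else z
      left_inv := by
        intro z
        by_cases hz : z ∈ W
        · simp only [if_pos hz, if_pos (k1 z hz)]
          exact g.symm_apply_apply z
        · simp only [if_neg hz]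
      right_inv := by
        intro z
        by_cases hz : z ∈ W
        · simp only [if_pos hz, if_pos (k2 z hz)]
          exact g.apply_symm_apply z
        · simp only [if_neg hz] } with ha
  have ha1 : ∀ z ∈ W, a z = g z := fun z hz => if_pos hz
  have ha2 : ∀ z, z ∉ W → a z = z := fun z hz => if_neg hz
  have haK : ∀ z, z ∉ K → a z = z := by
    intro z hz
    by_cases hzW : z ∈ W
    · rw [ha1 z hzW, hoff z hz]
    · exact ha2 z hzW
  have hagl : ∀ z ∈ {z : P2 | 1 < z.2 ∧ z.1 < l * z.2}, a z = g z := by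
    rintro z ⟨hz1, hz2⟩
    have hzS : z ∈ St := hz1
    by_cases hzW : z ∈ W
    · exact ha1 z hzW
    · rw [ha2 z hzW]
      refine (hid1 z hzS ((le_ps_iff z hzS _).2 ?_) ((ps_le_iff z hzS _).2 ?_)).symm
      · by_contra h
        exact hzW ⟨hz1, not_le.1 h⟩
      · nlinarith
  have hac : Continuous a := by
    rw [continuous_iff_continuousAt]
    intro z
    by_cases hzK : z ∈ K
    · have hzS := hKS hzK
      have hz0 : 0 < z.2 := lt_trans one_pos hzS
      rcases lt_or_ge z.1 (l * z.2) with h | h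
      · refine (Gc_cont hgc).continuousAt.congr ?_
        filter_upwards [(isOpen_lt_reg l).mem_nhds ⟨hzS, h⟩] with w hw
        exact (hagl w hw).symm
      · refine continuousAt_id.congr ?_
        have h1 : IsOpen {w : P2 | (l - ε) * w.2 < w.1} :=
          isOpen_lt (by fun_prop) continuous_fst
        filter_upwards [h1.mem_nhds (show (l - ε) * z.2 < z.1 by nlinarith)] with w hw
        refine (ha2 w fun hw' => ?_).symm
        exact absurd hw'.2 (not_lt.2 (le_of_lt hw))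
    · refine continuousAt_id.congr ?_
      filter_upwards [hK.isClosed.isOpen_compl.mem_nhds hzK] with w hw
      exact (haK w hw).symm
  have haPL : IsPL a := by
    refine ⟨?_, ?_⟩
    · refine IsPLf.glue (continuous_fst.comp hac) {fun z => (g z).1, fun z => z.1}
        (Set.toFinite _) ?_ fun z => ?_
      · rintro χ (rfl | hχ)
        · exact hgc.1.1.1
        · rw [Set.mem_singleton_iff] at hχ
          rw [hχ]
          exact IsPLf.fst
      · by_cases hz : z ∈ W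
        · exact ⟨_, Or.inl rfl, congrArg Prod.fst (ha1 z hz)⟩
        · exact ⟨_, Or.inr rfl, congrArg Prod.fst (ha2 z hz)⟩
    · refine IsPLf.glue (continuous_snd.comp hac) {fun z => (g z).2, fun z => z.2}
        (Set.toFinite _) ?_ fun z => ?_
      · rintro χ (rfl | hχ)
        · exact hgc.1.1.2
        · rw [Set.mem_singleton_iff] at hχ
          rw [hχ]
          exact IsPLf.snd
      · by_cases hz : z ∈ W
        · exact ⟨_, Or.inl rfl, congrArg Prod.snd (ha1 z hz)⟩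
        · exact ⟨_, Or.inr rfl, congrArg Prod.snd (ha2 z hz)⟩
  have haG : a ∈ GU St := GU_of a haPL St K hKS hK haK
  refine ⟨a, ⟨haG, ε, hε, fun x hx hp => ha2 x fun hxW => ?_⟩, a⁻¹ * g,
    ⟨(GU St).mul_mem ((GU St).inv_mem haG) hg, ε, hε, fun x hx hp => ?_⟩, by group⟩
  · exact absurd hxW.2 (not_lt.2 ((le_ps_iff x hx _).1 hp))
  · rw [Equiv.Perm.mul_apply, Equiv.Perm.inv_eq_iff_eq]
    by_cases hxW : x ∈ W
    · rw [ha1 x hxW]
    · rw [ha2 x hxW]
      refine hid1 x hx ((le_ps_iff x hx _).2 ?_) hp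
      by_contra h
      exact hxW ⟨hx, not_le.1 h⟩

theorem GS_L (l : ℝ) : GS.L l = GU {z : P2 | 1 < z.2 ∧ z.1 < l * z.2} := by
  refine le_antisymm (fun g hg => supp_L g l hg) ?_
  rintro g ⟨hgc, K, hKU, hK, hoff⟩
  have hKS : K ⊆ St := fun z hz => (hKU hz).1
  obtain ⟨ε, hε, h1⟩ := bd_ex K hK hKS (fun z => l * z.2 - z.1) (by fun_prop)
    (fun z hz => sub_pos.2 (hKU hz).2)
  refine ⟨⟨hgc, K, hKS, hK, hoff⟩, ε, hε, fun x hx hp => hoff x fun hk => ?_⟩
  have h2 := h1 x hk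
  have h3 := (le_ps_iff x hx _).1 hp
  linarith

theorem GS_R (r : ℝ) : GS.R r = GU {z : P2 | 1 < z.2 ∧ r * z.2 < z.1} := by
  refine le_antisymm (fun g hg => supp_R g r hg) ?_
  rintro g ⟨hgc, K, hKU, hK, hoff⟩
  have hKS : K ⊆ St := fun z hz => (hKU hz).1
  obtain ⟨ε, hε, h1⟩ := bd_ex K hK hKS (fun z => z.1 - r * z.2) (by fun_prop)
    (fun z hz => sub_pos.2 (hKU hz).2)
  refine ⟨⟨hgc, K, hKS, hK, hoff⟩, ε, hε, fun x hx hp => hoff x fun hk => ?_⟩
  have h2 := h1 x hk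
  have h3 := (ps_le_iff x hx _).1 hp
  linarith

theorem GS_L_hiso (U : Set P2) (hU : IsOpen U) (hUc : Convex ℝ U) (hUn : U.Nonempty) (l : ℝ)
    (h : GU U ≤ GS.L l) (h' : ∀ z ∈ U, 1 < z.2 ∧ z.1 < l * z.2) : HIso (sgIncl h) := by
  exact hiso_aux U {z : P2 | 1 < z.2 ∧ z.1 < l * z.2} hU hUc hUn (isOpen_lt_reg l)
    (convex_lt_reg l) h' _ (GS_L l) h

theorem GS_L_Gc (l : ℝ) (n : ℕ) : Nonempty (HC (sg (GS.L l)).Obj n ≃ₗ[ℚ] HC (sg Gc).Obj n) := by
  rw [GS_L l]
  obtain ⟨w, hw, _⟩ := nonempty_lt_reg l 0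
  have h := GU_Gc_hiso _ (isOpen_lt_reg l) (convex_lt_reg l) ⟨w, hw⟩ n
  exact ⟨LinearEquiv.ofBijective _ h⟩

end C715
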