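import Pool.Agent.Work.MP_c71557_gt.D.Desc
import Pool.Agent.Work.MP_c71557_gt.P.Shear

set_option autoImplicit false
set_option linter.unusedVariables false

/-!
# MP_c71557_gt, module D/Tsh: periodic horizontal displacements (M)

`φ : P2 → ℝ`, `0 ≤ φ z`, `φ z ≤ 4 z.2` where `z.2 > 0`, `φ z = 0` unless `2 < z.2 < 3`, `φ (TT z) = φ z`,
`t ↦ t + φ (t, y)` strictly increasing and continuous, and for every `M` there is a PL function `ψ` with
`φ z = ψ z` for `|z.1| ≤ M`.  Then there is `g` with `g z = (z.1 + φ z, z.2)`, the identity off `St`,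
commuting with `TT`, `LocSt g`; so (`descend`) it is the second component of an element of `Lft`.

PROOF.  Bijective: on every horizontal line `t ↦ t + φ (t, y)` is a strictly increasing continuous function with
bounded displacement (`0 ≤ φ ≤ 4 y ≤ 12`).  Continuity of `t ↦ φ (t, y)` follows from local PL.
`TT`: `φ (TT z) = φ z`, `(TT z).2 = z.2`.  `LocSt` with `C = 4`: given `M ≥ 1` put
`c z = min (4 (z.1 + (M+1) z.2)⁺) (((M+8) z.2 - z.1)⁺ / 2)` and `φ' z = min (φ z) (c z)`.
On `|ps z| ≤ M`, `2 < z.2 < 3`: `c z ≥ 4 z.2 ≥ φ z`, so `φ' = φ`.  `φ'` vanishes off the compact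
`{2 ≤ z.2 ≤ 3, |z.1| ≤ 3 (M + 8)} ⊆ St`.  PL: `φ` is continuous (on `{|z.1| < M'}` it equals a PL function).  Let
`B = 3 (M + 8) + 1` and `ψ` the PL function for `B`.  If `|z.1| ≤ B` then `φ' z = min (ψ z) (c z)`; if
`|z.1| > B` then `φ' z = 0` (either `φ z = 0`, or `2 < z.2 < 3` and `c z = 0`).  `IsPLf.glue` with the two functions
`min ψ c` and `0`.
`t ↦ t + φ' (t, y)` is the minimum of strictly increasing functions (`t + min a b = min (t + a) (t + b)`; the slopes
of `c` are `≥ -1/2`).  `shear1`.  Displacement: `|ps (γ z) - ps z| = φ' z / z.2 ≤ 4`.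
-/

namespace C715

theorem tsh (φ : P2 → ℝ) (h0 : ∀ z, 0 ≤ φ z) (h1 : ∀ z : P2, 0 < z.2 → φ z ≤ 4 * z.2)
    (h2 : ∀ z : P2, (z.2 ≤ 2 ∨ 3 ≤ z.2) → φ z = 0) (h3 : ∀ z, φ (TT z) = φ z)
    (h4 : ∀ y : ℝ, StrictMono (fun t : ℝ => t + φ (t, y)))
    (h5 : ∀ M : ℝ, ∃ ψ : P2 → ℝ, IsPLf ψ ∧ ∀ z : P2, |z.1| ≤ M → φ z = ψ z) :
    ∃ p ∈ Lft, ∀ z : P2, p.2 z = (z.1 + φ z, z.2) := by
  have hz : ∀ z : P2, φ z ≤ 12 := by
    intro z
    by_cases h : z.2 ≤ 2 ∨ 3 ≤ z.2
    · rw [h2 z h]
      norm_num
    · push Not at h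
      have := h1 z (by linarith)
      linarith
  have hc : Continuous φ := by
    rw [continuous_iff_continuousAt]
    intro z
    obtain ⟨ψ, hψ, e⟩ := h5 (|z.1| + 1)
    have h6 : ∀ᶠ w : P2 in nhds z, |w.1| < |z.1| + 1 := by
      have c1 : Continuous (fun w : P2 => |w.1|) := continuous_fst.abs
      exact (isOpen_lt c1 continuous_const).mem_nhds (show |z.1| < |z.1| + 1 by linarith)
    refine (hψ.cont.continuousAt (x := z)).congr ?_
    filter_upwards [h6] with w hw
    exact (e w hw.le).symm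
  have hbij : Function.Bijective (fun z : P2 => ((z.1 + φ z, z.2) : P2)) := by
    constructor
    · rintro ⟨a, b⟩ ⟨c, d⟩ h
      simp only [Prod.mk.injEq] at h
      obtain ⟨e1, e2⟩ := h
      subst e2
      have := (h4 b).injective e1
      rw [this]
    · rintro ⟨u, y⟩
      have hc1 : Continuous (fun t : ℝ => t + φ (t, y)) := by
        have : Continuous (fun t : ℝ => ((t, y) : P2)) := by fun_prop
        exact continuous_id.add (hc.comp this)
      have hiv := intermediate_value_Icc (a := u - 12) (b := u) (by linarith) hc1.continuousOn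
      have hmem : u ∈ Set.Icc ((fun t : ℝ => t + φ (t, y)) (u - 12))
          ((fun t : ℝ => t + φ (t, y)) u) := by
        refine ⟨?_, ?_⟩
        · show u - 12 + φ (u - 12, y) ≤ u
          have := hz (u - 12, y)
          linarith
        · show u ≤ u + φ (u, y)
          have := h0 (u, y)
          linarith
      obtain ⟨t, _, ht⟩ := hiv hmem
      refine ⟨(t, y), ?_⟩
      show ((t + φ (t, y), y) : P2) = (u, y)
      rw [show t + φ (t, y) = u from ht]
  set g : Equiv.Perm P2 := Equiv.ofBijective _ hbij with hg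
  have hgz : ∀ z : P2, g z = (z.1 + φ z, z.2) := fun z => rfl
  have k1 : ∀ z, z ∉ St → g z = z := by
    intro z hzS
    have : z.2 ≤ 1 := not_lt.1 hzS
    rw [hgz, h2 z (Or.inl (by linarith)), add_zero]
  have k2 : ∀ z, g (TT z) = TT (g z) := by
    intro z
    rw [hgz, hgz, h3]
    have e1 : ∀ w : P2, TT w = (w.1 + 4 * w.2, w.2) := fun w => rfl
    rw [e1, e1]
    ext
    · dsimp only
      ring
    · rfl
  have k3 : LocSt g := by
    refine ⟨4, fun M => ?_⟩
    set m : ℝ := |M| + 1 with hm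
    have hMm : M ≤ m := by linarith [le_abs_self M]
    have hm1 : 1 ≤ m := by linarith [abs_nonneg M]
    set c : P2 → ℝ := fun z => min (4 * max 0 (z.1 + (m + 1) * z.2))
      (2⁻¹ * max 0 ((m + 8) * z.2 - z.1)) with hcd
    have hcPL : IsPLf c := by
      refine IsPLf.min ?_ ?_
      · exact ((IsPLf.const 0).max (IsPLf.fst.add (IsPLf.snd.smul (m + 1)))).smul 4
      · exact ((IsPLf.const 0).max ((IsPLf.snd.smul (m + 8)).sub IsPLf.fst)).smul 2⁻¹
    have hc0 : ∀ z, 0 ≤ c z := by
      intro z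
      refine le_min ?_ ?_
      · have := le_max_left 0 (z.1 + (m + 1) * z.2)
        positivity
      · have := le_max_left 0 ((m + 8) * z.2 - z.1)
        positivity
    set φ' : P2 → ℝ := fun z => min (φ z) (c z) with hφ'
    have hφ0 : ∀ z, 0 ≤ φ' z := fun z => le_min (h0 z) (hc0 z)
    have hφle : ∀ z, φ' z ≤ φ z := fun z => min_le_left _ _
    have hoff1 : ∀ z : P2, (z.2 ≤ 2 ∨ 3 ≤ z.2) → φ' z = 0 := fun z h =>
      le_antisymm ((hφle z).trans (h2 z h).le) (hφ0 z)
    have hoff2 : ∀ z : P2, ¬ (z.2 ≤ 2 ∨ 3 ≤ z.2) → 3 * (m + 8) < |z.1| → c z = 0 := by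
      intro z h hz1
      push Not at h
      refine le_antisymm ?_ (hc0 z)
      rcases lt_abs.1 hz1 with h6 | h6
      · have h7 : (m + 8) * z.2 - z.1 ≤ 0 := by nlinarith
        refine (min_le_right _ _).trans ?_
        rw [max_eq_left h7, mul_zero]
      · have h7 : z.1 + (m + 1) * z.2 ≤ 0 := by nlinarith
        refine (min_le_left _ _).trans ?_
        rw [max_eq_left h7, mul_zero]
    set K : Set P2 := {z | |z.1| ≤ 3 * (m + 8) ∧ 2 ≤ z.2 ∧ z.2 ≤ 3} with hK
    have hKSt : K ⊆ St := fun z hz => show 1 < z.2 by linarith [hz.2.1]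
    have hKc : IsCompact K := by
      have hKe : K = ((Set.Icc (-(3 * (m + 8))) (3 * (m + 8))) ×ˢ (Set.Icc (2 : ℝ) 3) : Set P2) := by
        ext z
        simp only [hK, Set.mem_prod, Set.mem_Icc, Set.mem_setOf_eq, abs_le]
      rw [hKe]
      exact isCompact_Icc.prod isCompact_Icc
    have hφoff : ∀ z, z ∉ K → φ' z = 0 := by
      intro z hzK
      by_cases h : z.2 ≤ 2 ∨ 3 ≤ z.2
      · exact hoff1 z h
      · have h6 : 3 * (m + 8) < |z.1| := by
          by_contra h7
          push Not at h h7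
          exact hzK ⟨h7, h.1.le, h.2.le⟩
        exact le_antisymm ((min_le_right _ _).trans (hoff2 z h h6).le) (hφ0 z)
    have hφPL : IsPLf φ' := by
      obtain ⟨ψ, hψ, e⟩ := h5 (3 * (m + 8))
      refine IsPLf.glue (hc.min hcPL.cont) {fun z => min (ψ z) (c z), fun _ => 0}
        (Set.toFinite _) ?_ fun z => ?_
      · intro χ hχ
        rcases hχ with rfl | hχ
        · exact hψ.min hcPL
        · rw [Set.mem_singleton_iff] at hχ
          rw [hχ]
          exact IsPLf.const 0
      · by_cases hz1 : |z.1| ≤ 3 * (m + 8)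
        · refine ⟨_, Or.inl rfl, ?_⟩
          show min (φ z) (c z) = min (ψ z) (c z)
          rw [e z hz1]
        · refine ⟨_, Or.inr rfl, ?_⟩
          exact hφoff z fun hk => hz1 hk.1
    have hmono : ∀ y : ℝ, StrictMono (fun t : ℝ => t + φ' (t, y)) := by
      intro y s t hst
      have e1 : ∀ a b c : ℝ, a + min b c = min (a + b) (a + c) :=
        fun a b c => (min_add_add_left a b c).symm
      show s + min (φ (s, y)) (c (s, y)) < t + min (φ (t, y)) (c (t, y))
      rw [e1 s (φ (s, y)) (c (s, y)), e1 t (φ (t, y)) (c (t, y))]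
      refine min_lt_min (h4 y hst) ?_
      show s + min (4 * max 0 (s + (m + 1) * y)) (2⁻¹ * max 0 ((m + 8) * y - s)) <
        t + min (4 * max 0 (t + (m + 1) * y)) (2⁻¹ * max 0 ((m + 8) * y - t))
      rw [e1, e1]
      refine min_lt_min ?_ ?_
      · have : max 0 (s + (m + 1) * y) ≤ max 0 (t + (m + 1) * y) :=
          max_le_max le_rfl (by linarith)
        linarith
      · rcases le_total 0 ((m + 8) * y - s) with h6 | h6
        · rw [max_eq_right h6]
          have := le_max_right 0 ((m + 8) * y - t)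
          linarith
        · rw [max_eq_left h6]
          have := le_max_left 0 ((m + 8) * y - t)
          linarith
    obtain ⟨γ, hγ, hγz⟩ := shear1 φ' hφPL St K hKSt hKc hφoff hmono
    refine ⟨γ, hγ, fun z hz hzM => ?_, fun z hz => ?_⟩
    · rw [hgz, hγz]
      have : φ' z = φ z := by
        by_cases h : z.2 ≤ 2 ∨ 3 ≤ z.2
        · rw [hoff1 z h, h2 z h]
        · push Not at h
          have hzp : 0 < z.2 := by linarith
          have h6 : |z.1| ≤ m * z.2 := by
            have h7 : |z.1 / z.2| ≤ M := hzM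
            rw [abs_div, abs_of_pos hzp, div_le_iff₀ hzp] at h7
            nlinarith
          obtain ⟨h8, h9⟩ := abs_le.1 h6
          refine min_eq_left ((h1 z hzp).trans (le_min ?_ ?_))
          · have := le_max_right 0 (z.1 + (m + 1) * z.2)
            nlinarith
          · have := le_max_right 0 ((m + 8) * z.2 - z.1)
            nlinarith
      rw [this]
    · rw [hγz]
      have hzp : 0 < z.2 := lt_trans one_pos hz
      show |(z.1 + φ' z) / z.2 - z.1 / z.2| ≤ 4
      rw [← sub_div, add_sub_cancel_left, abs_of_nonneg (div_nonneg (hφ0 z) hzp.le),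
        div_le_iff₀ hzp]
      exact (hφle z).trans (h1 z hzp)
  obtain ⟨e, _, he⟩ := descend g k1 k2 k3
  exact ⟨(e, g), he, hgz⟩

end C715
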